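import Pool.Agent.MalP.X.Lift
import Pool.Agent.MalP.X.Base

/-! # Theorem X: identities of the split cross product algebra -/

set_option autoImplicit false

namespace Pool.Agent.MalP

universe u

namespace X

open CPA Finset

variable {F : Type u} [Field F]

/-- a family which vanishes at the coloured assignments over an infinite field vanishes at every natural family of
points -/
theorem van_of_infinite (K : Type u) [Field K] [Algebra F K] [Infinite K] {L : Finset ℕ} {col : ℕ → ℕ} {g : SF F}
    (hg : g ∈ D F L) (h : ∀ y : ℕ → (C7R F K).E, g (C7R F K) (fun i => y (col i)) = 0) {pt : Pt F}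
    (hpt : PtNat pt) : Van pt col g :=
  fun R _ _ θ => dens_infinite K (evp_nat hpt col hg) (fun θ => h (pt K θ)) R θ

/-- **Theorem X**: a homogeneous identity of the split cross product algebra over an infinite field is an identity of
all cross product algebras. -/
theorem evalXK [C23 F] (K : Type u) [Field K] [Algebra F K] [Infinite K] {m : Multiset ℕ} {p : FA F}
    (hp : p ∈ Hg F m) (h : ∀ x : ℕ → (C7R F K).Mal, ev x p = 0) (A : CPA F) (x : ℕ → A.Mal) : ev x p = 0 := by
  -- a colour which does not occur
  obtain ⟨c, hc⟩ : ∃ c : ℕ, c ∉ m := by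
    obtain ⟨c, hc⟩ := m.toFinset.exists_notMem
    exact ⟨c, fun h => hc (Multiset.mem_toFinset.2 h)⟩
  obtain ⟨L, N, col, hN, hm, hcN⟩ := exists_col m c
  obtain ⟨g, hg, hg'⟩ := lift_Hg hm hp hN
  have h1 : Van (pt0 F ((L ∪ {N}).image col)) col g := van_of_infinite K hg (fun y => by
    rw [hg', h]
    exact LinearMap.map_zero₂ _ _) (pt0_nat _)
  -- the values in the extension
  let y : ℕ → A.ext.E := Function.update (fun i => A.incl.ψ (x i).e) c A.Y
  have h3 := thmX' two_ne_zero hg h1 A.ext y
  rw [hg', hcN] at h3
  have h4 : ev (toMal A.ext y) p = MalEAux.hm A.incl (ev x p) := by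
    rw [hom_ev]
    refine ev_congr hp _ _ fun i hi => ?_
    have hi' : i ≠ c := fun h => hc (h ▸ hi)
    apply CPA.Mal.ext
    show Function.update (fun i => A.incl.ψ (x i).e) c A.Y i = A.incl.ψ (x i).e
    rw [Function.update_of_ne hi']
  have h5 : y c = A.Y := Function.update_self _ _ _
  rw [h4, h5] at h3
  apply CPA.Mal.ext
  exact MalEAux.s_Y A _ h3

end X

end Pool.Agent.MalP
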