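import Pool.Agent.MalP.X.Dens
import Pool.Agent.MalP.MalE
import Pool.Agent.MalP.Words3

/-! # (S1) over an infinite field: the elements of a trivial ideal are identities of C7 -/

set_option autoImplicit false

namespace Pool.Agent.MalP

universe u v

namespace X

namespace S1KAux

open C7RAux

variable {K : Type u} [Field K]

/-- the coordinate vectors -/
def E0 : C7RE K := (1, 0, 0)

/-- the coordinate vectors of the first half -/
def Ei (i : Fin 3) : C7RE K := (0, Pi.single i 1, 0)

/-- the coordinate vectors of the second half -/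
def Fi (i : Fin 3) : C7RE K := (0, 0, Pi.single i 1)

theorem sf_E0 (x : C7RE K) : sf E0 x = - x.1 := by
  simp [sf, E0]

theorem sf_Ei (i : Fin 3) (x : C7RE K) : sf (Ei i) x = -(2 * x.2.2 i) := by
  simp [sf, Ei]

theorem sf_Fi (i : Fin 3) (x : C7RE K) : sf (Fi i) x = -(2 * x.2.1 i) := by
  simp [sf, Fi]

theorem nondeg (hc : (2 : K) ≠ 0) (x : C7RE K) (h : ∀ y, sf x y = 0) : x = 0 := by
  have h' : ∀ y : C7RE K, sf y x = 0 := fun y => by
    rw [sf_symm]
    exact h y
  have hu : ∀ i, x.2.1 i = 0 := fun i => by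
    have := h' (Fi i)
    rw [sf_Fi, neg_eq_zero, mul_eq_zero] at this
    exact this.resolve_left hc
  have hv : ∀ i, x.2.2 i = 0 := fun i => by
    have := h' (Ei i)
    rw [sf_Ei, neg_eq_zero, mul_eq_zero] at this
    exact this.resolve_left hc
  have h0 : x.1 = 0 := by
    have := h' E0
    rwa [sf_E0, neg_eq_zero] at this
  exact C7RAux.ext h0 (funext hu) (funext hv)

theorem mulf_zero_left (x : C7RE K) : mulf 0 x = 0 := by
  have h := mulf_smul_left (0 : K) 0 x
  rwa [zero_smul, zero_smul] at h

theorem mulf_zero_right (x : C7RE K) : mulf x 0 = 0 := by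
  have h := mulf_smul_right (0 : K) x 0
  rwa [zero_smul, zero_smul] at h

theorem mulf_sq (g c : C7RE K) : mulf (mulf g c) c = sf g c • c - sf c c • g := by
  have h := C7RAux.main g c c
  rw [mulf_self, mulf_zero_right, zero_add] at h
  rw [h, two_mul, add_smul]
  abel

theorem mulf_sub_left (x x' y : C7RE K) : mulf (x - x') y = mulf x y - mulf x' y := by
  have h := mulf_add_left (x - x') x' y
  rw [sub_add_cancel] at h
  rw [h]
  abel

theorem key (hc : (2 : K) ≠ 0) {g : C7RE K} (h : ∀ c, mulf (mulf (mulf g c) c) g = 0) : g = 0 := by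
  by_contra hg
  have h1 : ∀ c, sf g c • mulf c g = 0 := by
    intro c
    have h2 := h c
    rwa [mulf_sq, mulf_sub_left, mulf_smul_left, mulf_smul_left, mulf_self, smul_zero,
      sub_zero] at h2
  obtain ⟨c₀, hc₀⟩ : ∃ c, sf g c ≠ 0 := by
    by_contra hcon
    push Not at hcon
    exact hg (nondeg hc g hcon)
  have h2 : ∀ c, sf g c ≠ 0 → mulf c g = 0 := fun c hc =>
    (smul_eq_zero.mp (h1 c)).resolve_left hc
  have h3 : ∀ d, mulf d g = 0 := by
    intro d
    by_cases hd : sf g d = 0
    · have h4 : sf g (d + c₀) ≠ 0 := by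
        rw [sf_add_right, hd, zero_add]
        exact hc₀
      have h5 := h2 _ h4
      rwa [mulf_add_left, h2 _ hc₀, add_zero] at h5
    · exact h2 d hd
  have h4 : ∀ d, mulf g d = 0 := by
    intro d
    have h5 := mulf_self (g + d)
    rw [mulf_add_left, mulf_add_right, mulf_add_right, mulf_self, mulf_self, h3 d] at h5
    simpa using h5
  have h5 : ∀ c, sf g c • c = sf c c • g := by
    intro c
    have h6 := mulf_sq g c
    rw [h4, mulf_zero_left] at h6
    exact (sub_eq_zero.mp h6.symm)
  have h6 : ∀ c, sf g c ≠ 0 → ∃ r : K, c = r • g := by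
    intro c hc
    refine ⟨(sf g c)⁻¹ * sf c c, ?_⟩
    rw [mul_smul, ← h5 c, smul_smul, inv_mul_cancel₀ hc, one_smul]
  have h7 : ∀ c, ∃ r : K, c = r • g := by
    intro c
    by_cases hc : sf g c = 0
    · obtain ⟨r, hr⟩ := h6 (c + c₀) (by
        rw [sf_add_right, hc, zero_add]
        exact hc₀)
      obtain ⟨t, ht⟩ := h6 c₀ hc₀
      refine ⟨r - t, ?_⟩
      rw [sub_smul, ← hr, ← ht]
      abel
    · exact h6 c hc
  obtain ⟨a, ha⟩ := h7 E0
  obtain ⟨b, hb⟩ := h7 (Ei 0)
  have h8 : b • (E0 : C7RE K) = a • Ei 0 := by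
    rw [ha, hb, smul_smul, smul_smul, mul_comm]
  have h9 : b = 0 := by
    have := congrArg Prod.fst h8
    simpa [E0, Ei] using this
  rw [h9, zero_smul] at hb
  have h10 := congrFun (congrArg (fun z : C7RE K => z.2.1) hb) 0
  simp [Ei] at h10

end S1KAux

open CPA

section hom

variable {K V C : Type*} [Field K] [Infinite K] [AddCommGroup V] [Module K V] [SMul K C]

/-- separation of the multihomogeneous components over an infinite field -/
theorem homog_sep (n : ℕ) : ∀ (s : Finset (Multiset ℕ)) (g : Multiset ℕ → (ℕ → C) → V), s.card = n →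
    (∀ m ∈ s, ∀ (i : ℕ) (t : K) (x : ℕ → C), g m (Function.update x i (t • x i)) =
      t ^ (m.count i) • g m x) → (∀ x, ∑ m ∈ s, g m x = 0) → ∀ m ∈ s, ∀ x, g m x = 0 := by
  classical
  induction n with
  | zero =>
    intro s g hs _ _ m hm
    rw [Finset.card_eq_zero] at hs
    rw [hs] at hm
    exact absurd hm (Finset.notMem_empty m)
  | succ n ih =>
    intro s g hs hg h0 m0 hm0 x
    by_cases h : ∃ m' ∈ s, m' ≠ m0
    · obtain ⟨m', hm', hne⟩ := h
      obtain ⟨i, hi⟩ : ∃ i, m'.count i ≠ m0.count i := by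
        by_contra hcon
        push Not at hcon
        exact hne (Multiset.ext.mpr hcon)
      obtain ⟨t, ht⟩ : ∃ t : K, t ^ (m0.count i) - t ^ (m'.count i) ≠ 0 := by
        by_contra hcon
        push Not at hcon
        have h1 : (Polynomial.X ^ (m0.count i) - Polynomial.X ^ (m'.count i) : Polynomial K) = 0 := by
          refine Polynomial.funext fun t => ?_
          rw [Polynomial.eval_sub, Polynomial.eval_pow, Polynomial.eval_pow, Polynomial.eval_X,
            Polynomial.eval_zero]
          exact hcon t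
        have h2 := congrArg (fun q => Polynomial.coeff q (m0.count i)) (sub_eq_zero.1 h1)
        simp only [Polynomial.coeff_X_pow, if_true] at h2
        rw [if_neg (fun e => hi e.symm)] at h2
        exact one_ne_zero h2
      have h3 := ih (s.erase m') (fun m y => (t ^ (m.count i) - t ^ (m'.count i)) • g m y)
        (by rw [Finset.card_erase_of_mem hm', hs]; rfl)
        (fun m hm j r y => by
          show (t ^ (m.count i) - t ^ (m'.count i)) • g m (Function.update y j (r • y j)) =
            r ^ (m.count j) • (t ^ (m.count i) - t ^ (m'.count i)) • g m y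
          rw [hg m (Finset.mem_of_mem_erase hm) j r y, smul_comm])
        (fun y => by
          show ∑ m ∈ s.erase m', (t ^ (m.count i) - t ^ (m'.count i)) • g m y = 0
          have h4 := h0 (Function.update y i (t • y i))
          have h5 : ∑ m ∈ s, t ^ (m.count i) • g m y = 0 := by
            rw [← h4]
            exact Finset.sum_congr rfl fun m hm => (hg m hm i t y).symm
          have h6 : ∑ m ∈ s, (t ^ (m.count i) - t ^ (m'.count i)) • g m y = 0 := by
            simp only [sub_smul, Finset.sum_sub_distrib]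
            rw [h5, ← Finset.smul_sum, h0 y, smul_zero, sub_zero]
          rw [← Finset.sum_erase_add s _ hm', sub_self, zero_smul, add_zero] at h6
          exact h6) m0
        (Finset.mem_erase.mpr ⟨hne.symm, hm0⟩) x
      exact (smul_eq_zero.1 h3).resolve_left ht
    · push Not at h
      have h1 : s = {m0} := Finset.eq_singleton_iff_unique_mem.2 ⟨hm0, h⟩
      have h2 := h0 x
      rwa [h1, Finset.sum_singleton] at h2

end hom

section scale

variable {F : Type u} [Field F] {A : CPA F}

open Classical in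
theorem evw_scale (i : ℕ) (t : A.S) (x : ℕ → A.Mal) (w : FreeMagma ℕ) :
    (evw (Function.update x i ⟨t • (x i).e⟩) w).e = t ^ ((content w).count i) • (evw x w).e := by
  induction w using FreeMagma.recOnMul with
  | ih1 j =>
    show (Function.update x i ⟨t • (x i).e⟩ j).e = t ^ (Multiset.count i {j}) • (x j).e
    by_cases h : j = i
    · subst h
      rw [Function.update_self, Multiset.count_singleton_self, pow_one]
    · rw [Function.update_of_ne h, Multiset.count_singleton, if_neg (fun e => h e.symm), pow_zero,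
        one_smul]
  | ih2 a b ha hb =>
    show A.mul (evw (Function.update x i ⟨t • (x i).e⟩) a).e (evw (Function.update x i ⟨t • (x i).e⟩) b).e =
      t ^ (Multiset.count i (content a + content b)) • A.mul (evw x a).e (evw x b).e
    rw [ha, hb, Multiset.count_add, map_smul, map_smul, LinearMap.smul_apply, smul_smul, pow_add,
      mul_comm]

theorem ev_scale {m : Multiset ℕ} {p : FA F} (hp : p ∈ Hg F m) (i : ℕ) (t : A.S) (x : ℕ → A.Mal) :
    (ev (Function.update x i ⟨t • (x i).e⟩) p).e = t ^ (m.count i) • (ev x p).e := by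
  classical
  unfold Hg at hp
  induction hp using Submodule.span_induction with
  | mem q hq =>
    obtain ⟨w, hw, rfl⟩ := hq
    rw [ev_wd, ev_wd, evw_scale, hw]
  | zero =>
    rw [map_zero, map_zero, CPA.Mal.zero_e, smul_zero]
  | add p q _ _ hp hq =>
    rw [map_add, map_add, CPA.Mal.add_e, CPA.Mal.add_e, hp, hq, smul_add]
  | smul r p _ hp =>
    rw [map_smul, map_smul, CPA.Mal.smul_e, CPA.Mal.smul_e, hp, smul_comm]

end scale

variable {F : Type u} [Field F] [C23 F] (K : Type u) [Field K] [Algebra F K]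

omit [C23 F] in
/-- the letters of an element of the free algebra are bounded -/
theorem exists_bdd (p : FA F) : ∃ N : ℕ, ∀ {B : Type u} [NonUnitalNonAssocRing B] [Module F B]
    [IsScalarTower F B B] [SMulCommClass F B B] (x y : ℕ → B), (∀ i, i < N → x i = y i) →
    ev x p = ev y p := by
  have hp : p ∈ Submodule.span F (Set.range (wd : FreeMagma ℕ → FA F)) := by
    rw [span_wd]
    exact Submodule.mem_top
  induction hp using Submodule.span_induction with
  | mem x hx =>
    obtain ⟨w, rfl⟩ := hx
    refine ⟨(content w).sup + 1, ?_⟩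
    intro B _ _ _ _ x y hxy
    rw [ev_wd, ev_wd]
    exact evw_congr x y w fun i hi => hxy i (Nat.lt_succ_of_le (Multiset.le_sup hi))
  | zero => exact ⟨0, fun x y _ => by rw [map_zero, map_zero]⟩
  | add p q _ _ hp hq =>
    obtain ⟨N, hN⟩ := hp
    obtain ⟨M, hM⟩ := hq
    refine ⟨max N M, fun x y hxy => ?_⟩
    rw [map_add, map_add, hN x y fun i hi => hxy i (lt_of_lt_of_le hi (le_max_left _ _)),
      hM x y fun i hi => hxy i (lt_of_lt_of_le hi (le_max_right _ _))]
  | smul r p _ hp =>
    obtain ⟨N, hN⟩ := hp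
    exact ⟨N, fun x y hxy => by rw [map_smul, map_smul, hN x y hxy]⟩

theorem mk_eq_zero_of_ev {I : Submodule F (FreeMalcev F ℕ)} (hi : IsIdl I) (ht : IsTriv I) {p : FA F}
    (hI : FreeMalcev.mk p ∈ I) {N : ℕ} (hN : ∀ {B : Type u} [NonUnitalNonAssocRing B] [Module F B]
    [IsScalarTower F B B] [SMulCommClass F B B] (x y : ℕ → B), (∀ i, i < N → x i = y i) →
    ev x p = ev y p) (x : ℕ → (C7R F K).Mal) (a b : (C7R F K).Mal) :
    ((ev x p * a) * b) * ev x p = 0 := by
  let φ : FreeMalcev F ℕ →ₙₐ[F] (C7R F K).Mal := FreeMalcev.lift (CPA.Mal.isMalcev (C7R F K))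
    (fun n => if n < N then x n else if n = N then a else b)
  have h1 := (hi _ (hi _ hI (FreeMalcev.of N)).1 (FreeMalcev.of (N + 1))).1
  have h2 := ht _ h1 _ hI
  have h3 : φ (FreeMalcev.mk p) = ev x p := by
    show FreeMalcev.lift _ _ (FreeMalcev.mk p) = _
    rw [FreeMalcev.lift_mk]
    refine hN _ _ fun i hi => ?_
    show (if i < N then x i else if i = N then a else b) = x i
    rw [if_pos hi]
  have h4 : φ (FreeMalcev.of N) = a := by
    show FreeMalcev.lift _ _ (FreeMalcev.of N) = a
    rw [FreeMalcev.lift_of, if_neg (lt_irrefl N), if_pos rfl]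
  have h5 : φ (FreeMalcev.of (N + 1)) = b := by
    show FreeMalcev.lift _ _ (FreeMalcev.of (N + 1)) = b
    rw [FreeMalcev.lift_of, if_neg (by omega), if_neg (by omega)]
  have h6 := congrArg φ h2
  rwa [map_mul, map_mul, map_mul, map_zero, h3, h4, h5] at h6

/-- (S1) over the field `K` -/
theorem S1K (hc : (2 : K) ≠ 0) {I : Submodule F (FreeMalcev F ℕ)} (hi : IsIdl I) (ht : IsTriv I) {p : FA F}
    (hI : FreeMalcev.mk p ∈ I) (x : ℕ → (C7R F K).Mal) : ev x p = 0 := by
  obtain ⟨N, hN⟩ := exists_bdd p
  apply CPA.Mal.ext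
  refine S1KAux.key hc (g := (ev x p).e) fun c => ?_
  exact congrArg CPA.Mal.e (mk_eq_zero_of_ev K hi ht hI hN x ⟨c⟩ ⟨c⟩)

omit [C23 F] in
/-- the multihomogeneous components of an identity of `C7` over an infinite field are identities -/
theorem comp_ev [Infinite K] {p : FA F} (h : ∀ x : ℕ → (C7R F K).Mal, ev x p = 0) (m : Multiset ℕ)
    (x : ℕ → (C7R F K).Mal) : ev x (comp F m p) = 0 := by
  classical
  obtain ⟨s, hs⟩ := sum_comp p
  have key : ∀ m ∈ s, ∀ x : ℕ → C7RE K, ((ev (fun i => (⟨x i⟩ : (C7R F K).Mal)) (comp F m p)).e : C7RE K) = 0 := by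
    refine homog_sep (K := K) (V := C7RE K) (C := C7RE K) s.card s (fun m x =>
      ((ev (fun i => (⟨x i⟩ : (C7R F K).Mal)) (comp F m p)).e : C7RE K)) rfl ?_ ?_
    · intro m _ i t x
      have h1 := ev_scale (A := C7R F K) (comp_mem m p) i (sc F t) (fun i => ⟨x i⟩)
      have h2 : Function.update (fun i => (⟨x i⟩ : (C7R F K).Mal)) i
          ⟨sc F t • ((⟨x i⟩ : (C7R F K).Mal)).e⟩ =
          fun j => ⟨Function.update x i (t • x i) j⟩ := by
        funext j
        by_cases hj : j = i
        · subst hj
          rw [Function.update_self, Function.update_self]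
          rfl
        · rw [Function.update_of_ne hj, Function.update_of_ne hj]
      rw [h2] at h1
      exact h1
    · intro x
      have h1 := h (fun i => ⟨x i⟩)
      have h2 : ev (fun i => (⟨x i⟩ : (C7R F K).Mal)) (∑ m ∈ s, comp F m p) = 0 := by
        rw [← hs]
        exact h1
      rw [map_sum] at h2
      have h3 : ∀ t : Finset (Multiset ℕ), (∑ m ∈ t, ev (fun i => (⟨x i⟩ : (C7R F K).Mal))
          (comp F m p)).e = ∑ m ∈ t, (ev (fun i => (⟨x i⟩ : (C7R F K).Mal)) (comp F m p)).e := by
        intro t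
        induction t using Finset.induction_on with
        | empty => rfl
        | @insert a t ha ih =>
          rw [Finset.sum_insert ha, Finset.sum_insert ha, CPA.Mal.add_e, ih]
      have h4 := congrArg CPA.Mal.e h2
      rw [h3] at h4
      exact h4
  by_cases hm : m ∈ s
  · apply CPA.Mal.ext
    exact key m hm (fun i => (x i).e)
  · have h1 : comp F m p = 0 := by
      have h2 : comp F m p = comp F m (∑ m' ∈ s, comp F m' p) := by rw [← hs]
      rw [h2, map_sum]
      refine Finset.sum_eq_zero fun m' hm' => ?_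
      rw [comp_of_mem (comp_mem m' p), if_neg]
      exact fun e => hm (e ▸ hm')
    rw [h1, map_zero]

/-- (S1) for the components -/
theorem S1comp [Infinite K] (hc : (2 : K) ≠ 0) {I : Submodule F (FreeMalcev F ℕ)} (hi : IsIdl I)
    (ht : IsTriv I) {p : FA F} (hI : FreeMalcev.mk p ∈ I) (m : Multiset ℕ)
    (x : ℕ → (C7R F K).Mal) : ev x (comp F m p) = 0 :=
  comp_ev K (S1K K hc hi ht hI) m x

end X

end Pool.Agent.MalP
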