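import Pool.Agent.MalP.CPA

/-! # Theorem X: the split seven-dimensional cross product algebra over commutative rings

`C7R F R` is the split cross product algebra with the scalars `R`. `pnt` gives the points in coordinates. `vec2 p q` are
the points of a special null plane `V2` (products and values of the form are zero), `perp` the points orthogonal to it,
`nulA` the null points which map `V2` to the line of `vec2 p q`, `per2` the points whose form with `V2` is a multiple of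
the determinant with `(p, q)`. -/

set_option autoImplicit false
set_option linter.unusedSimpArgs false
set_option linter.unusedSectionVars false

namespace Pool.Agent.MalP

universe u

namespace X

open CPA Matrix

/-- the space of the split algebra over a ring -/
abbrev C7RE (R : Type u) : Type u := R × (Fin 3 → R) × (Fin 3 → R)

namespace C7RAux

variable {R : Type u} [CommRing R]

/-- equality in `C7E` -/
theorem ext {x y : C7RE R} (h : x.1 = y.1) (h1 : x.2.1 = y.2.1) (h2 : x.2.2 = y.2.2) : x = y :=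
  Prod.ext h (Prod.ext h1 h2)

theorem ext3 {a b : Fin 3 → R} (h0 : a 0 = b 0) (h1 : a 1 = b 1) (h2 : a 2 = b 2) : a = b := by
  funext i
  fin_cases i <;> assumption

/-- the product -/
def mulf (x y : C7RE R) : C7RE R := (2 * (x.2.1 ⬝ᵥ y.2.2 - x.2.2 ⬝ᵥ y.2.1),
      x.1 • y.2.1 - y.1 • x.2.1 - (2 : R) • (x.2.2 ⨯₃ y.2.2),
      y.1 • x.2.2 - x.1 • y.2.2 + (2 : R) • (x.2.1 ⨯₃ y.2.1))

/-- the form -/
def sf (x y : C7RE R) : R := - x.1 * y.1 - 2 * (x.2.1 ⬝ᵥ y.2.2 + x.2.2 ⬝ᵥ y.2.1)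

theorem mulf_1 (x y : C7RE R) : (mulf x y).1 = 2 * (x.2.1 0 * y.2.2 0 + x.2.1 1 * y.2.2 1 +
    x.2.1 2 * y.2.2 2 - (x.2.2 0 * y.2.1 0 + x.2.2 1 * y.2.1 1 + x.2.2 2 * y.2.1 2)) := by
  simp only [mulf, vec3_dotProduct]

theorem mulf_u0 (x y : C7RE R) : (mulf x y).2.1 0 = x.1 * y.2.1 0 - y.1 * x.2.1 0 -
    2 * (x.2.2 1 * y.2.2 2 - x.2.2 2 * y.2.2 1) := by
  change x.1 * y.2.1 0 - y.1 * x.2.1 0 - 2 * ((x.2.2 ⨯₃ y.2.2) 0) = _
  rw [cross_apply]
  rfl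

theorem mulf_u1 (x y : C7RE R) : (mulf x y).2.1 1 = x.1 * y.2.1 1 - y.1 * x.2.1 1 -
    2 * (x.2.2 2 * y.2.2 0 - x.2.2 0 * y.2.2 2) := by
  change x.1 * y.2.1 1 - y.1 * x.2.1 1 - 2 * ((x.2.2 ⨯₃ y.2.2) 1) = _
  rw [cross_apply]
  rfl

theorem mulf_u2 (x y : C7RE R) : (mulf x y).2.1 2 = x.1 * y.2.1 2 - y.1 * x.2.1 2 -
    2 * (x.2.2 0 * y.2.2 1 - x.2.2 1 * y.2.2 0) := by
  change x.1 * y.2.1 2 - y.1 * x.2.1 2 - 2 * ((x.2.2 ⨯₃ y.2.2) 2) = _
  rw [cross_apply]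
  rfl

theorem mulf_v0 (x y : C7RE R) : (mulf x y).2.2 0 = y.1 * x.2.2 0 - x.1 * y.2.2 0 +
    2 * (x.2.1 1 * y.2.1 2 - x.2.1 2 * y.2.1 1) := by
  change y.1 * x.2.2 0 - x.1 * y.2.2 0 + 2 * ((x.2.1 ⨯₃ y.2.1) 0) = _
  rw [cross_apply]
  rfl

theorem mulf_v1 (x y : C7RE R) : (mulf x y).2.2 1 = y.1 * x.2.2 1 - x.1 * y.2.2 1 +
    2 * (x.2.1 2 * y.2.1 0 - x.2.1 0 * y.2.1 2) := by
  change y.1 * x.2.2 1 - x.1 * y.2.2 1 + 2 * ((x.2.1 ⨯₃ y.2.1) 1) = _
  rw [cross_apply]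
  rfl

theorem mulf_v2 (x y : C7RE R) : (mulf x y).2.2 2 = y.1 * x.2.2 2 - x.1 * y.2.2 2 +
    2 * (x.2.1 0 * y.2.1 1 - x.2.1 1 * y.2.1 0) := by
  change y.1 * x.2.2 2 - x.1 * y.2.2 2 + 2 * ((x.2.1 ⨯₃ y.2.1) 2) = _
  rw [cross_apply]
  rfl

theorem sf_eq (x y : C7RE R) : sf x y = - x.1 * y.1 - 2 * (x.2.1 0 * y.2.2 0 + x.2.1 1 * y.2.2 1 +
    x.2.1 2 * y.2.2 2 + (x.2.2 0 * y.2.1 0 + x.2.2 1 * y.2.1 1 + x.2.2 2 * y.2.1 2)) := by
  simp only [sf, vec3_dotProduct]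

theorem mulf_add_left (x x' y : C7RE R) : mulf (x + x') y = mulf x y + mulf x' y := by
  refine C7RAux.ext ?_ (C7RAux.ext3 ?_ ?_ ?_) (C7RAux.ext3 ?_ ?_ ?_) <;>
    (simp only [mulf_1, mulf_u0, mulf_u1, mulf_u2, mulf_v0, mulf_v1, mulf_v2, sf_eq,
      Prod.fst_add, Prod.snd_add, Prod.smul_fst, Prod.smul_snd, Pi.add_apply, Pi.smul_apply,
      Prod.fst_sub, Prod.snd_sub, Pi.sub_apply, Prod.fst_zero, Prod.snd_zero, Pi.zero_apply,
      smul_eq_mul]; ring)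

theorem mulf_smul_left (c : R) (x y : C7RE R) : mulf (c • x) y = c • mulf x y := by
  refine C7RAux.ext ?_ (C7RAux.ext3 ?_ ?_ ?_) (C7RAux.ext3 ?_ ?_ ?_) <;>
    (simp only [mulf_1, mulf_u0, mulf_u1, mulf_u2, mulf_v0, mulf_v1, mulf_v2, sf_eq,
      Prod.fst_add, Prod.snd_add, Prod.smul_fst, Prod.smul_snd, Pi.add_apply, Pi.smul_apply,
      Prod.fst_sub, Prod.snd_sub, Pi.sub_apply, Prod.fst_zero, Prod.snd_zero, Pi.zero_apply,
      smul_eq_mul]; ring)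

theorem mulf_add_right (x y y' : C7RE R) : mulf x (y + y') = mulf x y + mulf x y' := by
  refine C7RAux.ext ?_ (C7RAux.ext3 ?_ ?_ ?_) (C7RAux.ext3 ?_ ?_ ?_) <;>
    (simp only [mulf_1, mulf_u0, mulf_u1, mulf_u2, mulf_v0, mulf_v1, mulf_v2, sf_eq,
      Prod.fst_add, Prod.snd_add, Prod.smul_fst, Prod.smul_snd, Pi.add_apply, Pi.smul_apply,
      Prod.fst_sub, Prod.snd_sub, Pi.sub_apply, Prod.fst_zero, Prod.snd_zero, Pi.zero_apply,
      smul_eq_mul]; ring)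

theorem mulf_smul_right (c : R) (x y : C7RE R) : mulf x (c • y) = c • mulf x y := by
  refine C7RAux.ext ?_ (C7RAux.ext3 ?_ ?_ ?_) (C7RAux.ext3 ?_ ?_ ?_) <;>
    (simp only [mulf_1, mulf_u0, mulf_u1, mulf_u2, mulf_v0, mulf_v1, mulf_v2, sf_eq,
      Prod.fst_add, Prod.snd_add, Prod.smul_fst, Prod.smul_snd, Pi.add_apply, Pi.smul_apply,
      Prod.fst_sub, Prod.snd_sub, Pi.sub_apply, Prod.fst_zero, Prod.snd_zero, Pi.zero_apply,
      smul_eq_mul]; ring)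

theorem sf_add_left (x x' y : C7RE R) : sf (x + x') y = sf x y + sf x' y := by
  simp only [sf_eq, Prod.fst_add, Prod.snd_add, Pi.add_apply]
  ring

theorem sf_smul_left (c : R) (x y : C7RE R) : sf (c • x) y = c • sf x y := by
  simp only [sf_eq, Prod.smul_fst, Prod.smul_snd, Pi.smul_apply, smul_eq_mul]
  ring

theorem sf_add_right (x y y' : C7RE R) : sf x (y + y') = sf x y + sf x y' := by
  simp only [sf_eq, Prod.fst_add, Prod.snd_add, Pi.add_apply]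
  ring

theorem sf_smul_right (c : R) (x y : C7RE R) : sf x (c • y) = c • sf x y := by
  simp only [sf_eq, Prod.smul_fst, Prod.smul_snd, Pi.smul_apply, smul_eq_mul]
  ring

theorem mulf_self (x : C7RE R) : mulf x x = 0 := by
  refine C7RAux.ext ?_ (C7RAux.ext3 ?_ ?_ ?_) (C7RAux.ext3 ?_ ?_ ?_) <;>
    (simp only [mulf_1, mulf_u0, mulf_u1, mulf_u2, mulf_v0, mulf_v1, mulf_v2, sf_eq,
      Prod.fst_add, Prod.snd_add, Prod.smul_fst, Prod.smul_snd, Pi.add_apply, Pi.smul_apply,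
      Prod.fst_sub, Prod.snd_sub, Pi.sub_apply, Prod.fst_zero, Prod.snd_zero, Pi.zero_apply,
      smul_eq_mul]; ring)

theorem sf_symm (x y : C7RE R) : sf x y = sf y x := by
  simp only [sf_eq]
  ring

theorem sf_assoc (x y z : C7RE R) : sf (mulf x y) z = sf x (mulf y z) := by
  simp only [sf_eq, mulf_1, mulf_u0, mulf_u1, mulf_u2, mulf_v0, mulf_v1, mulf_v2]
  ring

theorem main (x y z : C7RE R) : mulf x (mulf y z) + mulf (mulf x y) z =
    (2 * sf x z) • y - sf x y • z - sf y z • x := by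
  refine C7RAux.ext ?_ (C7RAux.ext3 ?_ ?_ ?_) (C7RAux.ext3 ?_ ?_ ?_) <;>
    (simp only [mulf_1, mulf_u0, mulf_u1, mulf_u2, mulf_v0, mulf_v1, mulf_v2, sf_eq,
      Prod.fst_add, Prod.snd_add, Prod.smul_fst, Prod.smul_snd, Pi.add_apply, Pi.smul_apply,
      Prod.fst_sub, Prod.snd_sub, Pi.sub_apply, Prod.fst_zero, Prod.snd_zero, Pi.zero_apply,
      smul_eq_mul]; ring)

end C7RAux

variable (F : Type u) [Field F] (R : Type u) [CommRing R] [Algebra F R]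

open C7RAux in
/-- the split cross product algebra over the ring `R` -/
noncomputable def C7R : CPA F where
  S := R
  E := C7RE R
  mul := LinearMap.mk₂ R mulf mulf_add_left mulf_smul_left mulf_add_right mulf_smul_right
  s := LinearMap.mk₂ R sf sf_add_left sf_smul_left sf_add_right sf_smul_right
  skew := mulf_self
  symm := sf_symm
  assoc := sf_assoc
  main := main

/-- the points in coordinates -/
def pnt (x0 u0 u1 u2 v0 v1 v2 : R) : (C7R F R).E := ((x0, ![u0, u1, u2], ![v0, v1, v2]) : C7RE R)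

/-- the points of the special null plane -/
def vec2 (p q : R) : (C7R F R).E := pnt F R 0 p 0 0 0 q 0

/-- the null points orthogonal to the special null plane which map it to one line -/
def nulA (ν u0 v1 p q : R) : (C7R F R).E :=
  pnt F R (-2 * ν * p * q) u0 0 (-ν * q ^ 2) 0 v1 (ν * p ^ 2)

/-- the points orthogonal to the special null plane -/
def perp (x0 u0 u2 v1 v2 : R) : (C7R F R).E := pnt F R x0 u0 0 u2 0 v1 v2

/-- the points whose form with the special null plane is a multiple of a determinant -/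
def per2 (x0 u0 u2 v1 v2 t p q : R) : (C7R F R).E := pnt F R x0 u0 (-t * p) u2 (t * q) v1 v2

/-- the elements of the ring as scalars of `C7R F R` -/
def sc {R : Type u} [CommRing R] [Algebra F R] (r : R) : (C7R F R).S := r

variable {F} {R}

theorem sc_zero : sc F (0 : R) = 0 := rfl

theorem sc_one : sc F (1 : R) = 1 := rfl

theorem sc_add (a b : R) : sc F (a + b) = sc F a + sc F b := rfl

theorem sc_mul (a b : R) : sc F (a * b) = sc F a * sc F b := rfl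

theorem sc_neg (a : R) : sc F (-a) = - sc F a := rfl

theorem sc_sub (a b : R) : sc F (a - b) = sc F a - sc F b := rfl

theorem sc_eq {a b : R} (h : a = b) : sc F a = b := h

theorem mul_eqR (x y : (C7R F R).E) : (C7R F R).mul x y = C7RAux.mulf x y := rfl

theorem s_eqR (x y : (C7R F R).E) : (C7R F R).s x y = C7RAux.sf x y := rfl

theorem mul_pnt (x0 u0 u1 u2 v0 v1 v2 y0 a0 a1 a2 b0 b1 b2 : R) :
    (C7R F R).mul (pnt F R x0 u0 u1 u2 v0 v1 v2) (pnt F R y0 a0 a1 a2 b0 b1 b2) =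
      pnt F R (2 * (u0 * b0 + u1 * b1 + u2 * b2 - (v0 * a0 + v1 * a1 + v2 * a2)))
        (x0 * a0 - y0 * u0 - 2 * (v1 * b2 - v2 * b1)) (x0 * a1 - y0 * u1 - 2 * (v2 * b0 - v0 * b2))
        (x0 * a2 - y0 * u2 - 2 * (v0 * b1 - v1 * b0)) (y0 * v0 - x0 * b0 + 2 * (u1 * a2 - u2 * a1))
        (y0 * v1 - x0 * b1 + 2 * (u2 * a0 - u0 * a2)) (y0 * v2 - x0 * b2 + 2 * (u0 * a1 - u1 * a0)) := by
  exact C7RAux.ext (C7RAux.mulf_1 _ _)
    (C7RAux.ext3 (C7RAux.mulf_u0 _ _) (C7RAux.mulf_u1 _ _) (C7RAux.mulf_u2 _ _))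
    (C7RAux.ext3 (C7RAux.mulf_v0 _ _) (C7RAux.mulf_v1 _ _) (C7RAux.mulf_v2 _ _))

theorem s_pnt (x0 u0 u1 u2 v0 v1 v2 y0 a0 a1 a2 b0 b1 b2 : R) :
    (C7R F R).s (pnt F R x0 u0 u1 u2 v0 v1 v2) (pnt F R y0 a0 a1 a2 b0 b1 b2) =
      sc F (- x0 * y0 - 2 * (u0 * b0 + u1 * b1 + u2 * b2 + (v0 * a0 + v1 * a1 + v2 * a2))) :=
  C7RAux.sf_eq _ _

theorem smul_pnt (r x0 u0 u1 u2 v0 v1 v2 : R) :
    sc F r • pnt F R x0 u0 u1 u2 v0 v1 v2 =
      pnt F R (r * x0) (r * u0) (r * u1) (r * u2) (r * v0) (r * v1) (r * v2) :=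
  C7RAux.ext rfl (C7RAux.ext3 rfl rfl rfl) (C7RAux.ext3 rfl rfl rfl)

theorem add_pnt (x0 u0 u1 u2 v0 v1 v2 y0 a0 a1 a2 b0 b1 b2 : R) :
    pnt F R x0 u0 u1 u2 v0 v1 v2 + pnt F R y0 a0 a1 a2 b0 b1 b2 =
      pnt F R (x0 + y0) (u0 + a0) (u1 + a1) (u2 + a2) (v0 + b0) (v1 + b1) (v2 + b2) :=
  C7RAux.ext rfl (C7RAux.ext3 rfl rfl rfl) (C7RAux.ext3 rfl rfl rfl)

theorem pnt_zero : pnt F R (0 : R) 0 0 0 0 0 0 = 0 :=
  C7RAux.ext rfl (C7RAux.ext3 rfl rfl rfl) (C7RAux.ext3 rfl rfl rfl)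

/-- every point is given by coordinates -/
theorem exists_pnt (x : (C7R F R).E) : ∃ x0 u0 u1 u2 v0 v1 v2 : R, x = pnt F R x0 u0 u1 u2 v0 v1 v2 :=
  ⟨(x : C7RE R).1, (x : C7RE R).2.1 0, (x : C7RE R).2.1 1, (x : C7RE R).2.1 2, (x : C7RE R).2.2 0,
    (x : C7RE R).2.2 1, (x : C7RE R).2.2 2,
    C7RAux.ext rfl (C7RAux.ext3 rfl rfl rfl) (C7RAux.ext3 rfl rfl rfl)⟩

theorem pnt_congr {x0 u0 u1 u2 v0 v1 v2 y0 a0 a1 a2 b0 b1 b2 : R} (h : x0 = y0) (h0 : u0 = a0) (h1 : u1 = a1)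
    (h2 : u2 = a2) (h3 : v0 = b0) (h4 : v1 = b1) (h5 : v2 = b2) :
    pnt F R x0 u0 u1 u2 v0 v1 v2 = pnt F R y0 a0 a1 a2 b0 b1 b2 := by
  subst h h0 h1 h2 h3 h4 h5
  rfl

theorem vec2_zero : vec2 F R (0 : R) 0 = 0 := pnt_zero

theorem smul_vec2 (r p q : R) : sc F r • vec2 F R p q = vec2 F R (r * p) (r * q) := by
  unfold vec2
  rw [smul_pnt]
  exact pnt_congr (by ring) (by ring) (by ring) (by ring) (by ring) (by ring) (by ring)

theorem add_vec2 (p q p' q' : R) : vec2 F R p q + vec2 F R p' q' = vec2 F R (p + p') (q + q') := by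
  unfold vec2
  rw [add_pnt]
  exact pnt_congr (by ring) (by ring) (by ring) (by ring) (by ring) (by ring) (by ring)

variable (F) (R) in
theorem mul_vec2 (p q p' q' : R) : (C7R F R).mul (vec2 F R p q) (vec2 F R p' q') = 0 := by
  unfold vec2
  rw [mul_pnt, ← pnt_zero]
  exact pnt_congr (by ring) (by ring) (by ring) (by ring) (by ring) (by ring) (by ring)

variable (F) (R) in
theorem s_vec2 (p q p' q' : R) : (C7R F R).s (vec2 F R p q) (vec2 F R p' q') = (0 : R) := by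
  unfold vec2
  rw [s_pnt]
  exact sc_eq (by ring)

variable (F) (R) in
theorem mul_nulA (ν u0 v1 p q p' q' : R) : (C7R F R).mul (nulA F R ν u0 v1 p q) (vec2 F R p' q') =
    sc F (2 * ν * (p * q' - q * p')) • vec2 F R p q := by
  unfold vec2 nulA
  rw [mul_pnt, smul_pnt]
  exact pnt_congr (by ring) (by ring) (by ring) (by ring) (by ring) (by ring) (by ring)

theorem mul_nulA' (ν u0 v1 p q p' q' : R) : (C7R F R).mul (nulA F R ν u0 v1 p q) (vec2 F R p' q') =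
    vec2 F R (2 * ν * (p * q' - q * p') * p) (2 * ν * (p * q' - q * p') * q) := by
  rw [mul_nulA, smul_vec2]

variable (F) (R) in
theorem s_nulA_self (ν u0 v1 p q : R) : (C7R F R).s (nulA F R ν u0 v1 p q) (nulA F R ν u0 v1 p q) = (0 : R) := by
  unfold nulA
  rw [s_pnt]
  exact sc_eq (by ring)

variable (F) (R) in
theorem s_nulA (ν u0 v1 p q p' q' : R) : (C7R F R).s (nulA F R ν u0 v1 p q) (vec2 F R p' q') = (0 : R) := by
  unfold nulA vec2
  rw [s_pnt]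
  exact sc_eq (by ring)

theorem mul_perp_vec2 (x0 u0 u2 v1 v2 p q : R) :
    (C7R F R).mul (perp F R x0 u0 u2 v1 v2) (vec2 F R p q) = vec2 F R (x0 * p + 2 * v2 * q) (2 * u2 * p - x0 * q) := by
  unfold perp vec2
  rw [mul_pnt]
  exact pnt_congr (by ring) (by ring) (by ring) (by ring) (by ring) (by ring) (by ring)

variable (F) (R) in
theorem s_perp (x0 u0 u2 v1 v2 p q : R) : (C7R F R).s (perp F R x0 u0 u2 v1 v2) (vec2 F R p q) = (0 : R) := by
  unfold perp vec2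
  rw [s_pnt]
  exact sc_eq (by ring)

variable (F) (R) in
theorem s_perp_self (x0 u0 u2 v1 v2 : R) :
    (C7R F R).s (perp F R x0 u0 u2 v1 v2) (perp F R x0 u0 u2 v1 v2) = (- x0 ^ 2 - 4 * u2 * v2 : R) := by
  unfold perp
  rw [s_pnt]
  exact sc_eq (by ring)

variable (F) (R) in
theorem s_per2 (x0 u0 u2 v1 v2 t p q p' q' : R) :
    (C7R F R).s (per2 F R x0 u0 u2 v1 v2 t p q) (vec2 F R p' q') = (2 * t * (p * q' - q * p') : R) := by
  unfold per2 vec2
  rw [s_pnt]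
  exact sc_eq (by ring)

theorem s_pnt_vec2 (x0 u0 u1 u2 v0 v1 v2 p q : R) :
    (C7R F R).s (pnt F R x0 u0 u1 u2 v0 v1 v2) (vec2 F R p q) = sc F (- 2 * (u1 * q + v0 * p)) := by
  unfold vec2
  rw [s_pnt]
  congr 1
  ring

theorem nulA_zero (u0 v1 p q : R) : nulA F R 0 u0 v1 p q = vec2 F R u0 v1 := by
  unfold nulA vec2
  exact pnt_congr (by ring) (by ring) (by ring) (by ring) (by ring) (by ring) (by ring)

theorem perp_zero (u0 v1 : R) : perp F R 0 u0 0 v1 0 = vec2 F R u0 v1 := rfl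

theorem nulA_eq_perp (ν u0 v1 p q : R) :
    nulA F R ν u0 v1 p q = perp F R (-2 * ν * p * q) u0 (-ν * q ^ 2) v1 (ν * p ^ 2) := rfl

theorem per2_zero (x0 u0 u2 v1 v2 p q : R) : per2 F R x0 u0 u2 v1 v2 0 p q = perp F R x0 u0 u2 v1 v2 := by
  unfold per2 perp
  exact pnt_congr (by ring) (by ring) (by ring) (by ring) (by ring) (by ring) (by ring)

section hom

variable {R' : Type u} [CommRing R'] [Algebra F R']

/-- the map of the spaces given by a homomorphism of the rings -/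
def psiR (φ : R →ₐ[F] R') (x : C7RE R) : C7RE R' := (φ x.1, fun i => φ (x.2.1 i), fun i => φ (x.2.2 i))

theorem psiR_1 (φ : R →ₐ[F] R') (x : C7RE R) : (psiR φ x).1 = φ x.1 := rfl

theorem psiR_u (φ : R →ₐ[F] R') (x : C7RE R) (i : Fin 3) : (psiR φ x).2.1 i = φ (x.2.1 i) := rfl

theorem psiR_v (φ : R →ₐ[F] R') (x : C7RE R) (i : Fin 3) : (psiR φ x).2.2 i = φ (x.2.2 i) := rfl

theorem psiR_mulf (φ : R →ₐ[F] R') (x y : C7RE R) :
    psiR φ (C7RAux.mulf x y) = C7RAux.mulf (psiR φ x) (psiR φ y) := by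
  refine C7RAux.ext ?_ (C7RAux.ext3 ?_ ?_ ?_) (C7RAux.ext3 ?_ ?_ ?_) <;>
    simp only [psiR_1, psiR_u, psiR_v, C7RAux.mulf_1, C7RAux.mulf_u0, C7RAux.mulf_u1, C7RAux.mulf_u2, C7RAux.mulf_v0,
      C7RAux.mulf_v1, C7RAux.mulf_v2, map_add, map_sub, map_mul, map_ofNat]

theorem psiR_sf (φ : R →ₐ[F] R') (x y : C7RE R) :
    φ (C7RAux.sf x y) = C7RAux.sf (psiR φ x) (psiR φ y) := by
  simp only [psiR_1, psiR_u, psiR_v, C7RAux.sf_eq, map_add, map_sub, map_mul, map_neg, map_ofNat]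

/-- the homomorphism given by a homomorphism of the scalars -/
noncomputable def homR (F : Type u) [Field F] {R R' : Type u} [CommRing R] [Algebra F R] [CommRing R'] [Algebra F R'] (φ : R →ₐ[F] R') : Hom (C7R F R) (C7R F R') where
  φ := φ
  ψ := { toFun := psiR φ
         map_add' := fun x y => by
            refine C7RAux.ext ?_ (C7RAux.ext3 ?_ ?_ ?_) (C7RAux.ext3 ?_ ?_ ?_) <;> exact map_add φ _ _
         map_smul' := fun r x => by
            refine C7RAux.ext ?_ (C7RAux.ext3 ?_ ?_ ?_) (C7RAux.ext3 ?_ ?_ ?_) <;> exact map_mul φ _ _ }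
  map_mul := psiR_mulf φ
  map_s := psiR_sf φ

variable (F) in
theorem homR_φ {R R' : Type u} [CommRing R] [Algebra F R] [CommRing R'] [Algebra F R'] (φ : R →ₐ[F] R') (r : R) :
    (homR F φ).φ r = φ r := rfl

theorem homR_sc (φ : R →ₐ[F] R') (r : R) : (homR F φ).φ (sc F r) = sc F (φ r) := rfl

variable (F) in
theorem homR_ψ {R R' : Type u} [CommRing R] [Algebra F R] [CommRing R'] [Algebra F R'] (φ : R →ₐ[F] R')
    (x0 u0 u1 u2 v0 v1 v2 : R) : (homR F φ).ψ (pnt F R x0 u0 u1 u2 v0 v1 v2) =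
      pnt F R' (φ x0) (φ u0) (φ u1) (φ u2) (φ v0) (φ v1) (φ v2) :=
  C7RAux.ext rfl (C7RAux.ext3 rfl rfl rfl) (C7RAux.ext3 rfl rfl rfl)

theorem homR_vec2 (φ : R →ₐ[F] R') (p q : R) : (homR F φ).ψ (vec2 F R p q) = vec2 F R' (φ p) (φ q) := by
  unfold vec2
  rw [homR_ψ]
  exact pnt_congr (map_zero φ) rfl (map_zero φ) (map_zero φ) (map_zero φ) rfl (map_zero φ)

theorem homR_nulA (φ : R →ₐ[F] R') (ν u0 v1 p q : R) :
    (homR F φ).ψ (nulA F R ν u0 v1 p q) = nulA F R' (φ ν) (φ u0) (φ v1) (φ p) (φ q) := by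
  unfold nulA
  rw [homR_ψ]
  exact pnt_congr (by simp only [map_mul, map_neg, map_ofNat]) rfl (map_zero φ)
    (by simp only [map_mul, map_neg, map_pow]) (map_zero φ) rfl (by simp only [map_mul, map_pow])

theorem homR_perp (φ : R →ₐ[F] R') (x0 u0 u2 v1 v2 : R) :
    (homR F φ).ψ (perp F R x0 u0 u2 v1 v2) = perp F R' (φ x0) (φ u0) (φ u2) (φ v1) (φ v2) := by
  unfold perp
  rw [homR_ψ]
  exact pnt_congr rfl rfl (map_zero φ) rfl (map_zero φ) rfl rfl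

theorem homR_per2 (φ : R →ₐ[F] R') (x0 u0 u2 v1 v2 t p q : R) :
    (homR F φ).ψ (per2 F R x0 u0 u2 v1 v2 t p q) = per2 F R' (φ x0) (φ u0) (φ u2) (φ v1) (φ v2) (φ t) (φ p) (φ q) := by
  unfold per2
  rw [homR_ψ]
  exact pnt_congr rfl rfl (by simp only [map_mul, map_neg]) rfl (by simp only [map_mul]) rfl rfl

end hom

end X

end Pool.Agent.MalP
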