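import Pool.Agent.MalP.X.Fam

/-! # Theorem X: closure properties of the families -/

set_option autoImplicit false

namespace Pool.Agent.MalP

universe u

namespace X

open CPA Finset

variable {F : Type u} [Field F]

section ring

variable (a a' b b' c : VF F) (f g : SF F) (r : F)

theorem mV_add_left : mV (a + a') b = mV a b + mV a' b := by
  funext A x
  exact (by simp : A.mul ((a + a') A x) (b A x) = A.mul (a A x) (b A x) + A.mul (a' A x) (b A x))

theorem mV_add_right : mV b (a + a') = mV b a + mV b a' := by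
  funext A x
  exact (by simp : A.mul (b A x) ((a + a') A x) = A.mul (b A x) (a A x) + A.mul (b A x) (a' A x))

theorem mV_zero_left : mV 0 b = 0 := by
  funext A x
  exact (by simp : A.mul ((0 : VF F) A x) (b A x) = 0)

theorem mV_zero_right : mV b 0 = 0 := by
  funext A x
  exact (by simp : A.mul (b A x) ((0 : VF F) A x) = 0)

theorem mV_neg_left : mV (-a) b = - mV a b := by
  funext A x
  exact (by simp : A.mul ((-a) A x) (b A x) = - A.mul (a A x) (b A x))

theorem mV_neg_right : mV b (-a) = - mV b a := by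
  funext A x
  exact (by simp : A.mul (b A x) ((-a) A x) = - A.mul (b A x) (a A x))

theorem sV_add_left : sV (a + a') b = sV a b + sV a' b := by
  funext A x
  exact (by simp : A.s ((a + a') A x) (b A x) = A.s (a A x) (b A x) + A.s (a' A x) (b A x))

theorem sV_add_right : sV b (a + a') = sV b a + sV b a' := by
  funext A x
  exact (by simp : A.s (b A x) ((a + a') A x) = A.s (b A x) (a A x) + A.s (b A x) (a' A x))

theorem sV_zero_left : sV 0 b = 0 := by
  funext A x
  exact (by simp : A.s ((0 : VF F) A x) (b A x) = 0)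

theorem sV_zero_right : sV b 0 = 0 := by
  funext A x
  exact (by simp : A.s (b A x) ((0 : VF F) A x) = 0)

theorem sV_neg_left : sV (-a) b = - sV a b := by
  funext A x
  exact (by simp : A.s ((-a) A x) (b A x) = - A.s (a A x) (b A x))

theorem sV_neg_right : sV b (-a) = - sV b a := by
  funext A x
  exact (by simp : A.s (b A x) ((-a) A x) = - A.s (b A x) (a A x))

theorem sV_symm : sV a b = sV b a := by
  funext A x
  exact A.symm _ _

theorem mV_anti : mV a b = - mV b a := by
  funext A x
  exact A.anti _ _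

theorem mV_self : mV a a = 0 := by
  funext A x
  exact A.skew _

theorem sV_assoc : sV (mV a b) c = sV a (mV b c) := by
  funext A x
  exact A.assoc _ _ _

theorem cV_add_left : cV (f + g) a = cV f a + cV g a := by
  funext A x
  exact add_smul _ _ _

theorem cV_add_right : cV f (a + b) = cV f a + cV f b := by
  funext A x
  exact smul_add _ _ _

theorem cV_zero_left : cV 0 a = 0 := by
  funext A x
  exact zero_smul _ _

theorem cV_zero_right : cV f 0 = 0 := by
  funext A x
  exact smul_zero _

theorem cV_neg_left : cV (-f) a = - cV f a := by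
  funext A x
  exact neg_smul _ _

theorem cV_neg_right : cV f (-a) = - cV f a := by
  funext A x
  exact smul_neg _ _

theorem cV_one : cV 1 a = a := by
  funext A x
  exact one_smul _ _

theorem cV_cV : cV f (cV g a) = cV (f * g) a := by
  funext A x
  exact (mul_smul _ _ _).symm

theorem mV_cV_left : mV (cV f a) b = cV f (mV a b) := by
  funext A x
  exact (by rw [map_smul]; rfl : A.mul (f A x • a A x) (b A x) = f A x • A.mul (a A x) (b A x))

theorem mV_cV_right : mV a (cV f b) = cV f (mV a b) := by
  funext A x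
  exact (by rw [map_smul] : A.mul (a A x) (f A x • b A x) = f A x • A.mul (a A x) (b A x))

theorem sV_cV_left : sV (cV f a) b = f * sV a b := by
  funext A x
  exact (by rw [map_smul]; rfl : A.s (f A x • a A x) (b A x) = f A x * A.s (a A x) (b A x))

theorem sV_cV_right : sV a (cV f b) = f * sV a b := by
  funext A x
  exact (by rw [map_smul]; rfl : A.s (a A x) (f A x • b A x) = f A x * A.s (a A x) (b A x))

/-- the main identity -/
theorem mV_mV : mV (mV a b) c = - mV a (mV b c) + cV (2 * sV a c) b - cV (sV a b) c - cV (sV b c) a := by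
  funext A x
  have h := A.main (a A x) (b A x) (c A x)
  have h1 : A.mul (A.mul (a A x) (b A x)) (c A x) = - A.mul (a A x) (A.mul (b A x) (c A x)) +
      (2 * A.s (a A x) (c A x)) • b A x - A.s (a A x) (b A x) • c A x - A.s (b A x) (c A x) • a A x := by
    rw [eq_sub_iff_add_eq, eq_sub_iff_add_eq, eq_neg_add_iff_add_eq]
    rw [eq_sub_iff_add_eq, eq_sub_iff_add_eq] at h
    rw [← h]
    abel
  exact h1

end ring

/-! ### monomials -/

theorem Mo.cast {L M : Finset ℕ} {f : SF F} (h : Mo L f) (e : L = M) : Mo M f := e ▸ h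

theorem Wd.cast {L M : Finset ℕ} {f : VF F} (h : Wd L f) (e : L = M) : Wd M f := e ▸ h

theorem Mo.mul' {L M : Finset ℕ} {f g : SF F} (hf : Mo L f) (hg : Mo M g) (h : Disjoint L M) :
    Mo (L ∪ M) (f * g) := by
  induction hf with
  | one =>
    rw [one_mul, Finset.empty_union]
    exact hg
  | @mul L1 L2 N a b f ha hb hf h1 h2 ih =>
    have h3 : Disjoint N M := h.mono_left Finset.subset_union_right
    have h4 : Disjoint (L1 ∪ L2) M := h.mono_left Finset.subset_union_left
    have h5 := Mo.mul ha hb (ih h3) h1 (by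
      rw [Finset.disjoint_union_right]
      exact ⟨h2, h4⟩)
    rw [mul_assoc]
    exact h5.cast (by rw [Finset.union_assoc, Finset.union_assoc, Finset.union_assoc])

theorem D_cast {L M : Finset ℕ} {f : SF F} (h : f ∈ D F L) (e : L = M) : f ∈ D F M := e ▸ h

theorem E_cast {L M : Finset ℕ} {f : VF F} (h : f ∈ E F L) (e : L = M) : f ∈ E F M := e ▸ h

theorem D_of {L : Finset ℕ} {f : SF F} (h : Mo L f) : f ∈ D F L := Submodule.subset_span h

theorem one_mem : (1 : SF F) ∈ D F ∅ := D_of Mo.one

theorem D_mul {L M : Finset ℕ} {f g : SF F} (hf : f ∈ D F L) (hg : g ∈ D F M) (h : Disjoint L M) :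
    f * g ∈ D F (L ∪ M) := by
  unfold D at hf
  induction hf using Submodule.span_induction with
  | zero => rw [zero_mul]; exact Submodule.zero_mem _
  | add x y _ _ hx hy => rw [add_mul]; exact Submodule.add_mem _ hx hy
  | smul r x _ hx => rw [smul_mul_assoc]; exact Submodule.smul_mem _ _ hx
  | mem x hx =>
    unfold D at hg
    induction hg using Submodule.span_induction with
    | zero => rw [mul_zero]; exact Submodule.zero_mem _
    | add x y _ _ hx hy => rw [mul_add]; exact Submodule.add_mem _ hx hy
    | smul r x _ hx => rw [mul_smul_comm]; exact Submodule.smul_mem _ _ hx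
    | mem y hy => exact D_of (Mo.mul' hx hy h)

theorem E_of {L : Finset ℕ} {a : VF F} (h : Wd L a) : a ∈ E F L :=
  AddSubgroup.subset_closure ⟨∅, L, 1, a, one_mem, h, Finset.disjoint_empty_left _,
    Finset.empty_union _, (cV_one a).symm⟩

theorem xx_mem (i : ℕ) : (xx i : VF F) ∈ E F {i} := E_of (Wd.of i)

theorem D_s_wd {L M : Finset ℕ} {a b : VF F} (ha : Wd L a) (hb : Wd M b) (h : Disjoint L M) :
    sV a b ∈ D F (L ∪ M) := by
  have h1 := Mo.mul ha hb Mo.one h (Finset.disjoint_empty_right _)
  rw [mul_one, Finset.union_empty] at h1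
  exact D_of h1

/-- induction for `E` -/
theorem E_ind {L : Finset ℕ} {p : VF F → Prop} (h0 : p 0) (hadd : ∀ a b, p a → p b → p (a + b))
    (hneg : ∀ a, p a → p (-a))
    (hm : ∀ N M f a, f ∈ D F N → Wd M a → Disjoint N M → N ∪ M = L → p (cV f a)) {a : VF F}
    (ha : a ∈ E F L) : p a := by
  unfold E at ha
  induction ha using AddSubgroup.closure_induction with
  | mem x hx =>
    obtain ⟨N, M, f, a, hf, hw, hd, hL, rfl⟩ := hx
    exact hm N M f a hf hw hd hL
  | zero => exact h0
  | add x y _ _ hx hy => exact hadd x y hx hy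
  | neg x _ hx => exact hneg x hx

theorem E_c {L M : Finset ℕ} {f : SF F} {a : VF F} (hf : f ∈ D F L) (ha : a ∈ E F M)
    (h : Disjoint L M) : cV f a ∈ E F (L ∪ M) := by
  refine E_ind (p := fun a => cV f a ∈ E F (L ∪ M)) ?_ ?_ ?_ ?_ ha
  · rw [cV_zero_right]; exact AddSubgroup.zero_mem _
  · intro a b ha hb; rw [cV_add_right]; exact AddSubgroup.add_mem _ ha hb
  · intro a ha; rw [cV_neg_right]; exact AddSubgroup.neg_mem _ ha
  · intro N M' g a hg hw hd hL
    rw [cV_cV]
    subst hL
    rw [Finset.disjoint_union_right] at h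
    exact AddSubgroup.subset_closure ⟨L ∪ N, M', f * g, a, D_mul hf hg h.1, hw, by
      rw [Finset.disjoint_union_left]; exact ⟨h.2, hd⟩, by rw [Finset.union_assoc], rfl⟩

theorem E_m {L M : Finset ℕ} {a b : VF F} (ha : a ∈ E F L) (hb : b ∈ E F M)
    (h : Disjoint L M) : mV a b ∈ E F (L ∪ M) := by
  refine E_ind (p := fun a => mV a b ∈ E F (L ∪ M)) ?_ ?_ ?_ ?_ ha
  · rw [mV_zero_left]; exact AddSubgroup.zero_mem _
  · intro a b ha hb; rw [mV_add_left]; exact AddSubgroup.add_mem _ ha hb
  · intro a ha; rw [mV_neg_left]; exact AddSubgroup.neg_mem _ ha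
  · intro N M' g a hg hw hd hL
    subst hL
    rw [Finset.disjoint_union_left] at h
    rw [mV_cV_left, Finset.union_assoc]
    refine E_c hg ?_ (by rw [Finset.disjoint_union_right]; exact ⟨hd, h.1⟩)
    refine E_ind (p := fun b => mV a b ∈ E F (M' ∪ M)) ?_ ?_ ?_ ?_ hb
    · rw [mV_zero_right]; exact AddSubgroup.zero_mem _
    · intro a b ha hb; rw [mV_add_right]; exact AddSubgroup.add_mem _ ha hb
    · intro a ha; rw [mV_neg_right]; exact AddSubgroup.neg_mem _ ha
    · intro N2 M2 g2 a2 hg2 hw2 hd2 hL2
      subst hL2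
      have h3 := h.2
      rw [Finset.disjoint_union_right] at h3
      rw [mV_cV_right]
      refine AddSubgroup.subset_closure ⟨N2, M' ∪ M2, g2, mV a a2, hg2, Wd.mul hw hw2 h3.2, ?_, ?_, rfl⟩
      · rw [Finset.disjoint_union_right]
        exact ⟨h3.1.symm, hd2⟩
      · rw [← Finset.union_assoc, Finset.union_comm N2, Finset.union_assoc]

theorem D_s {L M : Finset ℕ} {a b : VF F} (ha : a ∈ E F L) (hb : b ∈ E F M)
    (h : Disjoint L M) : sV a b ∈ D F (L ∪ M) := by
  refine E_ind (p := fun a => sV a b ∈ D F (L ∪ M)) ?_ ?_ ?_ ?_ ha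
  · rw [sV_zero_left]; exact Submodule.zero_mem _
  · intro a b ha hb; rw [sV_add_left]; exact Submodule.add_mem _ ha hb
  · intro a ha; rw [sV_neg_left]; exact Submodule.neg_mem _ ha
  · intro N M' g a hg hw hd hL
    subst hL
    rw [Finset.disjoint_union_left] at h
    rw [sV_cV_left, Finset.union_assoc]
    refine D_mul hg ?_ (by rw [Finset.disjoint_union_right]; exact ⟨hd, h.1⟩)
    refine E_ind (p := fun b => sV a b ∈ D F (M' ∪ M)) ?_ ?_ ?_ ?_ hb
    · rw [sV_zero_right]; exact Submodule.zero_mem _
    · intro a b ha hb; rw [sV_add_right]; exact Submodule.add_mem _ ha hb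
    · intro a ha; rw [sV_neg_right]; exact Submodule.neg_mem _ ha
    · intro N2 M2 g2 a2 hg2 hw2 hd2 hL2
      subst hL2
      have h3 := h.2
      rw [Finset.disjoint_union_right] at h3
      rw [sV_cV_right]
      have h4 := D_mul hg2 (D_s_wd hw hw2 h3.2) (by
        rw [Finset.disjoint_union_right]
        exact ⟨h3.1.symm, hd2⟩)
      refine D_cast h4 ?_
      rw [← Finset.union_assoc, Finset.union_comm N2, Finset.union_assoc]

/-- induction for `D` -/
theorem D_ind {L : Finset ℕ} {p : SF F → Prop} (hadd : ∀ a b, p a → p b → p (a + b))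
    (hsmul : ∀ (r : F) a, p a → p (r • a)) (h0 : p 0)
    (hm : ∀ f, Mo L f → p f) {f : SF F}
    (hf : f ∈ D F L) : p f := by
  unfold D at hf
  induction hf using Submodule.span_induction with
  | mem x hx => exact hm x hx
  | zero => exact h0
  | add x y _ _ hx hy => exact hadd x y hx hy
  | smul r x _ hx => exact hsmul r x hx

end X

end Pool.Agent.MalP
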