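import Pool.Agent.MalP.X.KK

/-! # Theorem X: one representative for the relations of one kind -/

set_option autoImplicit false

namespace Pool.Agent.MalP

universe u

namespace X

open CPA Finset

variable {F : Type u} [Field F] {L : Finset ℕ} {S P Q S' P' : ℕ → ℕ → Prop} {i j : ℕ} {w : SF F}

theorem rr_self (i : ℕ) (f : SF F) : rr i i f = f := by
  funext A x
  show f A (fun n => x (Equiv.swap i i n)) = f A x
  rw [Equiv.swap_self]
  rfl

theorem rr_sV_mul (i j p q : ℕ) (w : SF F) : rr i j (sV (xx p) (xx q) * w) =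
    sV (xx (Equiv.swap i j p)) (xx (Equiv.swap i j q)) * rr i j w := rfl

theorem KQ' (hi : i ∈ L) (hj : j ∈ L) (h : i = j ∨ Q i j) (hw : w ∈ D F L) :
    w - rr i j w ∈ KK F L S P Q := by
  rcases eq_or_ne i j with rfl | hij
  · rw [rr_self, sub_self]
    exact Submodule.zero_mem _
  · exact KQ hi hj hij (h.resolve_left hij) hw

/-- moving the relation of the second kind -/
theorem moveP {i0 j0 : ℕ} (hi0 : i0 ∈ L) (hj0 : j0 ∈ L) (h0 : i0 ≠ j0) (hi : i ∈ L) (hj : j ∈ L)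
    (hij : i ≠ j) (h1 : i = i0 ∨ Q i i0) (h2 : j = j0 ∨ Q j j0) (h3 : j ≠ i0)
    (hw : w ∈ D F (L.erase i)) : ∃ g ∈ D F (L.erase i0),
      sb j (mV (xx i) (xx j)) w - sb j0 (mV (xx i0) (xx j0)) g ∈ KK F L S P Q := by
  have hj' : j ∈ L.erase i0 := Finset.mem_erase.2 ⟨h3, hj⟩
  have hj0' : j0 ∈ L.erase i0 := Finset.mem_erase.2 ⟨h0.symm, hj0⟩
  have hg1 : rr i i0 w ∈ D F (L.erase i0) := rr_erase hw hi hi0
  refine ⟨rr j j0 (rr i i0 w), rr_mem hg1 hj' hj0', ?_⟩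
  have e1 : rr i i0 (sb j (mV (xx i) (xx j)) w) = sb j (mV (xx i0) (xx j)) (rr i i0 w) := by
    refine (ren_sb (Equiv.swap i i0) j (mV (xx i) (xx j)) w).trans ?_
    rw [renV_mV, renV_xx, renV_xx, Equiv.swap_apply_left, Equiv.swap_apply_of_ne_of_ne hij.symm h3]
  have e2 : rr j j0 (sb j (mV (xx i0) (xx j)) (rr i i0 w)) =
      sb j0 (mV (xx i0) (xx j0)) (rr j j0 (rr i i0 w)) := by
    refine (ren_sb (Equiv.swap j j0) j (mV (xx i0) (xx j)) (rr i i0 w)).trans ?_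
    rw [renV_mV, renV_xx, renV_xx, Equiv.swap_apply_left, Equiv.swap_apply_of_ne_of_ne h3.symm h0]
  have m1 := KQ' (S := S) (P := P) hi hi0 h1 (G_mem hi hj hij hw)
  have m2 := KQ' (S := S) (P := P) hj hj0 h2 (G_mem hi0 hj h3.symm hg1)
  rw [e1] at m1
  rw [e2] at m2
  have m3 := Submodule.add_mem _ m1 m2
  rwa [sub_add_sub_cancel] at m3

/-- the relations of the second kind with one representative -/
theorem decP {i0 j0 : ℕ} (hi0 : i0 ∈ L) (hj0 : j0 ∈ L) (h0 : i0 ≠ j0)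
    (hP : ∀ i ∈ L, ∀ j ∈ L, i ≠ j → P i j → P' i j ∨
      ((i = i0 ∨ Q i i0) ∧ (j = j0 ∨ Q j j0) ∧ j ≠ i0) ∨
      ((j = i0 ∨ Q j i0) ∧ (i = j0 ∨ Q i j0) ∧ i ≠ i0)) {h : SF F} (hh : h ∈ KK F L S P Q) :
    ∃ g ∈ D F (L.erase i0), h - sb j0 (mV (xx i0) (xx j0)) g ∈ KK F L S P' Q := by
  refine KK_ind (p := fun h => ∃ g ∈ D F (L.erase i0),
    h - sb j0 (mV (xx i0) (xx j0)) g ∈ KK F L S P' Q) ?_ ?_ ?_ ?_ ?_ ?_ hh
  · refine ⟨0, Submodule.zero_mem _, ?_⟩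
    rw [sb_zero, sub_zero]
    exact Submodule.zero_mem _
  · rintro f g ⟨f', hf', hf⟩ ⟨g', hg', hg⟩
    refine ⟨f' + g', Submodule.add_mem _ hf' hg', ?_⟩
    rw [sb_add, add_sub_add_comm]
    exact Submodule.add_mem _ hf hg
  · rintro r f ⟨f', hf', hf⟩
    refine ⟨r • f', Submodule.smul_mem _ _ hf', ?_⟩
    rw [sb_smul, ← smul_sub]
    exact Submodule.smul_mem _ _ hf
  · intro i hi j hj hij h w hw
    refine ⟨0, Submodule.zero_mem _, ?_⟩
    rw [sb_zero, sub_zero]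
    exact KS hi hj hij h hw
  · intro i hi j hj hij h w hw
    rcases hP i hi j hj hij h with h | ⟨h1, h2, h3⟩ | ⟨h1, h2, h3⟩
    · refine ⟨0, Submodule.zero_mem _, ?_⟩
      rw [sb_zero, sub_zero]
      exact KP hi hj hij h hw
    · exact moveP hi0 hj0 h0 hi hj hij h1 h2 h3 hw
    · obtain ⟨w', hw', e⟩ := flip hi hj hw hij
      rw [e]
      exact moveP hi0 hj0 h0 hj hi hij.symm h1 h2 h3 hw'
  · intro i hi j hj hij h w hw
    refine ⟨0, Submodule.zero_mem _, ?_⟩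
    rw [sb_zero, sub_zero]
    exact KQ hi hj hij h hw

/-- moving the relation of the first kind -/
theorem moveS {i0 j0 : ℕ} (hi0 : i0 ∈ L) (hj0 : j0 ∈ L) (h0 : i0 ≠ j0) (hi : i ∈ L) (hj : j ∈ L)
    (hij : i ≠ j) (h1 : i = i0 ∨ Q i i0) (h2 : j = j0 ∨ Q j j0) (h3 : j ≠ i0)
    (hw : w ∈ D F ((L.erase i).erase j)) : ∃ g ∈ D F ((L.erase i0).erase j0),
      sV (xx i) (xx j) * w - sV (xx i0) (xx j0) * g ∈ KK F L S P Q := by
  have hj' : j ∈ L.erase i0 := Finset.mem_erase.2 ⟨h3, hj⟩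
  have hj0' : j0 ∈ L.erase i0 := Finset.mem_erase.2 ⟨h0.symm, hj0⟩
  have hi' : i ∈ L.erase j := Finset.mem_erase.2 ⟨hij, hi⟩
  have hi0' : i0 ∈ L.erase j := Finset.mem_erase.2 ⟨h3.symm, hi0⟩
  have hg1 : rr i i0 w ∈ D F ((L.erase i0).erase j) := by
    rw [Finset.erase_right_comm] at hw ⊢
    exact rr_erase hw hi' hi0'
  refine ⟨rr j j0 (rr i i0 w), rr_erase hg1 hj' hj0', ?_⟩
  have e1 : rr i i0 (sV (xx i) (xx j) * w) = sV (xx i0) (xx j) * (rr i i0 w) := by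
    rw [rr_sV_mul, Equiv.swap_apply_left, Equiv.swap_apply_of_ne_of_ne hij.symm h3]
  have e2 : rr j j0 (sV (xx i0) (xx j) * (rr i i0 w)) =
      sV (xx i0) (xx j0) * (rr j j0 (rr i i0 w)) := by
    rw [rr_sV_mul, Equiv.swap_apply_left, Equiv.swap_apply_of_ne_of_ne h3.symm h0]
  have m1 := KQ' (S := S) (P := P) hi hi0 h1 (S_mem hi hj hij hw)
  have m2 := KQ' (S := S) (P := P) hj hj0 h2 (S_mem hi0 hj h3.symm hg1)
  rw [e1] at m1
  rw [e2] at m2
  have m3 := Submodule.add_mem _ m1 m2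
  rwa [sub_add_sub_cancel] at m3

/-- the relations of the first kind with one representative -/
theorem decS {i0 j0 : ℕ} (hi0 : i0 ∈ L) (hj0 : j0 ∈ L) (h0 : i0 ≠ j0)
    (hS : ∀ i ∈ L, ∀ j ∈ L, i ≠ j → S i j → S' i j ∨
      ((i = i0 ∨ Q i i0) ∧ (j = j0 ∨ Q j j0) ∧ j ≠ i0) ∨
      ((j = i0 ∨ Q j i0) ∧ (i = j0 ∨ Q i j0) ∧ i ≠ i0)) {h : SF F} (hh : h ∈ KK F L S P Q) :
    ∃ g ∈ D F ((L.erase i0).erase j0), h - sV (xx i0) (xx j0) * g ∈ KK F L S' P Q := by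
  refine KK_ind (p := fun h => ∃ g ∈ D F ((L.erase i0).erase j0),
    h - sV (xx i0) (xx j0) * g ∈ KK F L S' P Q) ?_ ?_ ?_ ?_ ?_ ?_ hh
  · refine ⟨0, Submodule.zero_mem _, ?_⟩
    rw [mul_zero, sub_zero]
    exact Submodule.zero_mem _
  · rintro f g ⟨f', hf', hf⟩ ⟨g', hg', hg⟩
    refine ⟨f' + g', Submodule.add_mem _ hf' hg', ?_⟩
    rw [mul_add, add_sub_add_comm]
    exact Submodule.add_mem _ hf hg
  · rintro r f ⟨f', hf', hf⟩
    refine ⟨r • f', Submodule.smul_mem _ _ hf', ?_⟩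
    rw [mul_smul_comm, ← smul_sub]
    exact Submodule.smul_mem _ _ hf
  · intro i hi j hj hij h w hw
    rcases hS i hi j hj hij h with h | ⟨h1, h2, h3⟩ | ⟨h1, h2, h3⟩
    · refine ⟨0, Submodule.zero_mem _, ?_⟩
      rw [mul_zero, sub_zero]
      exact KS hi hj hij h hw
    · exact moveS hi0 hj0 h0 hi hj hij h1 h2 h3 hw
    · rw [sV_symm]
      rw [Finset.erase_right_comm] at hw
      exact moveS hi0 hj0 h0 hj hi hij.symm h1 h2 h3 hw
  · intro i hi j hj hij h w hw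
    refine ⟨0, Submodule.zero_mem _, ?_⟩
    rw [mul_zero, sub_zero]
    exact KP hi hj hij h hw
  · intro i hi j hj hij h w hw
    refine ⟨0, Submodule.zero_mem _, ?_⟩
    rw [mul_zero, sub_zero]
    exact KQ hi hj hij h hw

/-- the products of two letters of the same colour -/
theorem PQ (hc : (2 : F) ≠ 0) (hi : i ∈ L) (hj : j ∈ L) (hij : i ≠ j) (h : Q i j)
    (hw : w ∈ D F (L.erase i)) : sb j (mV (xx i) (xx j)) w ∈ KK F L S P Q := by
  have m := KQ (S := S) (P := P) hi hj hij h (G_mem hi hj hij hw)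
  have e : rr i j (sb j (mV (xx i) (xx j)) w) = - sb j (mV (xx i) (xx j)) w := by
    funext A x
    have h2 : w A (Function.update (fun n => x (Equiv.swap i j n)) j
        (A.mul (x (Equiv.swap i j i)) (x (Equiv.swap i j j)))) =
        w A (Function.update x j (A.mul (x j) (x i))) := by
      refine D_congr hw A ?_
      intro n hn
      rcases eq_or_ne n j with rfl | h3
      · rw [Function.update_self, Function.update_self, Equiv.swap_apply_left, Equiv.swap_apply_right]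
      · rw [Function.update_of_ne h3, Function.update_of_ne h3,
          Equiv.swap_apply_of_ne_of_ne (Finset.ne_of_mem_erase hn) h3]
    refine Eq.trans h2 ?_
    rw [A.anti (x j) (x i)]
    exact D_neg hw A x (Finset.mem_erase.2 ⟨hij.symm, hj⟩) _
  rw [e, sub_neg_eq_add, ← two_smul F] at m
  have m2 := Submodule.smul_mem _ (2 : F)⁻¹ m
  rwa [smul_smul, inv_mul_cancel₀ hc, one_smul] at m2

end X

end Pool.Agent.MalP
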