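import Pool.Agent.MalP.X.C7R

/-! # Theorem X: density

`PF F` is the type of the functions of parameters `θ c k` in all commutative `F`-algebras, `Natl` says that such a
function is natural (it is then given by its value at the generic point of `F[X_{c,k}]`). `dens`: a factor which is not
identically zero can be cancelled. `dens_infinite`: a natural function which vanishes over an infinite field vanishes
everywhere. -/

set_option autoImplicit false

namespace Pool.Agent.MalP

universe u

namespace X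

/-- functions of parameters -/
abbrev PF (F : Type u) [Field F] : Type (u + 1) :=
  ∀ (R : Type u) [CommRing R] [Algebra F R], (ℕ → ℕ → R) → R

variable {F : Type u} [Field F]

/-- natural functions of parameters -/
def Natl (f : PF F) : Prop :=
  ∀ (R R' : Type u) [CommRing R] [Algebra F R] [CommRing R'] [Algebra F R'] (φ : R →ₐ[F] R') (θ : ℕ → ℕ → R),
    φ (f R θ) = f R' (fun c k => φ (θ c k))

theorem Natl.theta (c k : ℕ) : Natl (F := F) (fun _ _ _ θ => θ c k) := fun _ _ _ _ _ _ _ _ => rfl

theorem Natl.zero : Natl (F := F) (fun _ _ _ _ => 0) := fun _ _ _ _ _ _ φ _ => map_zero φ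

theorem Natl.one : Natl (F := F) (fun _ _ _ _ => 1) := fun _ _ _ _ _ _ φ _ => map_one φ

theorem Natl.const (r : F) : Natl (F := F) (fun R _ _ _ => algebraMap F R r) :=
  fun _ _ _ _ _ _ φ _ => φ.commutes r

theorem Natl.add {f g : PF F} (hf : Natl f) (hg : Natl g) : Natl (F := F) (fun R _ _ θ => f R θ + g R θ) := by
  intro R R' _ _ _ _ φ θ
  rw [map_add, hf R R' φ θ, hg R R' φ θ]

theorem Natl.sub {f g : PF F} (hf : Natl f) (hg : Natl g) : Natl (F := F) (fun R _ _ θ => f R θ - g R θ) := by
  intro R R' _ _ _ _ φ θ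
  rw [map_sub, hf R R' φ θ, hg R R' φ θ]

theorem Natl.mul {f g : PF F} (hf : Natl f) (hg : Natl g) : Natl (F := F) (fun R _ _ θ => f R θ * g R θ) := by
  intro R R' _ _ _ _ φ θ
  rw [map_mul, hf R R' φ θ, hg R R' φ θ]

theorem Natl.neg {f : PF F} (hf : Natl f) : Natl (F := F) (fun R _ _ θ => - f R θ) := by
  intro R R' _ _ _ _ φ θ
  rw [map_neg, hf R R' φ θ]

theorem Natl.pow {f : PF F} (hf : Natl f) (n : ℕ) : Natl (F := F) (fun R _ _ θ => f R θ ^ n) := by
  intro R R' _ _ _ _ φ θ
  rw [map_pow, hf R R' φ θ]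

theorem Natl.finset_sum {ι : Type*} (s : Finset ι) {f : ι → PF F} (hf : ∀ i ∈ s, Natl (f i)) :
    Natl (F := F) (fun R _ _ θ => ∑ i ∈ s, f i R θ) := by
  intro R R' _ _ _ _ φ θ
  rw [map_sum]
  exact Finset.sum_congr rfl fun i hi => hf i hi R R' φ θ

/-- the generic ring -/
abbrev GR (F : Type u) [Field F] : Type u := MvPolynomial (ℕ × ℕ) F

/-- the generic point -/
noncomputable def gp (F : Type u) [Field F] : ℕ → ℕ → GR F := fun c k => MvPolynomial.X (c, k)

/-- a natural function is given by its value at the generic point -/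
theorem Natl.eq_aeval {f : PF F} (hf : Natl f) (R : Type u) [CommRing R] [Algebra F R] (θ : ℕ → ℕ → R) :
    f R θ = MvPolynomial.aeval (fun q : ℕ × ℕ => θ q.1 q.2) (f (GR F) (gp F)) := by
  rw [hf (GR F) R (MvPolynomial.aeval (R := F) (fun q : ℕ × ℕ => θ q.1 q.2)) (gp F)]
  congr 1
  funext c k
  unfold gp
  rw [MvPolynomial.aeval_X]

/-- natural functions which are zero at the generic point are zero -/
theorem Natl.eq_zero {f : PF F} (hf : Natl f) (h : f (GR F) (gp F) = 0) (R : Type u) [CommRing R] [Algebra F R]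
    (θ : ℕ → ℕ → R) : f R θ = 0 := by
  rw [hf.eq_aeval R θ, h, map_zero]

/-- cancelling a factor -/
theorem dens' {m f : PF F} (hm : Natl m) (hf : Natl f)
    (h : ∀ (R : Type u) [CommRing R] [Algebra F R] (θ : ℕ → ℕ → R), m R θ * f R θ = 0)
    (h0 : ∃ (R : Type u) (_ : CommRing R) (_ : Algebra F R) (θ : ℕ → ℕ → R), m R θ ≠ 0)
    (R : Type u) [CommRing R] [Algebra F R] (θ : ℕ → ℕ → R) : f R θ = 0 := by
  refine hf.eq_zero ?_ R θ
  rcases mul_eq_zero.1 (h (GR F) (gp F)) with h1 | h1
  · obtain ⟨R', _, _, θ', h2⟩ := h0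
    exact absurd (hm.eq_zero h1 R' θ') h2
  · exact h1

/-- cancelling a factor which is not zero over the base field -/
theorem dens {m f : ∀ (R : Type u) [CommRing R] [Algebra F R], (ℕ → ℕ → R) → R} (hm : Natl m) (hf : Natl f)
    (h : ∀ (R : Type u) [CommRing R] [Algebra F R] (θ : ℕ → ℕ → R), m R θ * f R θ = 0)
    (h0 : ∃ θ : ℕ → ℕ → F, m F θ ≠ 0) (R : Type u) [CommRing R] [Algebra F R] (θ : ℕ → ℕ → R) : f R θ = 0 :=
  dens' hm hf h ⟨F, inferInstance, inferInstance, h0⟩ R θ

/-- natural functions which vanish over an infinite field vanish -/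
theorem dens_infinite (K : Type u) [Field K] [Algebra F K] [Infinite K] {f : PF F} (hf : Natl f)
    (h : ∀ θ : ℕ → ℕ → K, f K θ = 0) (R : Type u) [CommRing R] [Algebra F R] (θ : ℕ → ℕ → R) : f R θ = 0 := by
  refine hf.eq_zero ?_ R θ
  refine MvPolynomial.map_injective (algebraMap F K) (algebraMap F K).injective ?_
  rw [map_zero]
  refine MvPolynomial.funext fun x => ?_
  rw [map_zero, MvPolynomial.eval_map, ← h (fun c k => x (c, k)), hf.eq_aeval K (fun c k => x (c, k))]
  rfl

end X

end Pool.Agent.MalP
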