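import Pool.Agent.MalP.X.IdsH

/-! # Theorem X: the elimination identities for two and three letters -/

set_option autoImplicit false

namespace Pool.Agent.MalP

universe u

namespace X

open CPA Finset

variable {F : Type u} [Field F] {L : Finset ℕ} {S P Q : ℕ → ℕ → Prop} {i j k l q : ℕ} {w u : SF F}

theorem ren_zero (σ : ℕ → ℕ) : ren σ (0 : SF F) = 0 := rfl

theorem alt3_add (a b : SF F) : alt3 j k l (a + b) = alt3 j k l a + alt3 j k l b := by
  unfold alt3 rr
  simp only [ren_add]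
  abel

theorem alt3_smul (r : F) (a : SF F) : alt3 j k l (r • a) = r • alt3 j k l a := by
  unfold alt3 rr
  simp only [ren_smul, smul_sub, smul_add]

theorem alt3_zero : alt3 j k l (0 : SF F) = 0 := by
  unfold alt3 rr
  simp only [ren_zero, sub_zero, add_zero]

/-- **L1**, with the relations for the pairs of the three letters only -/
theorem L1s (hc : (2 : F) ≠ 0) (hj : j ∈ L) (hk : k ∈ L) (hl : l ∈ L)
    (hjk : j ≠ k) (hjl : j ≠ l) (hkl : k ≠ l) (hu : u ∈ D F L) :
    alt3 j k l u ∈ KK F L (Rel3 j k l) (Rel3 j k l) NR := by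
  have hL : ({j, k, l} : Finset ℕ) ⊆ L := by
    intro n hn
    simp only [Finset.mem_insert, Finset.mem_singleton] at hn
    rcases hn with rfl | rfl | rfl
    · exact hj
    · exact hk
    · exact hl
  refine KK_T3 (sep3 (p := fun u => alt3 j k l u ∈ KK F L (Rel3s j k l) (Rel3s j k l) NR) ?_ ?_ ?_
    hj hk hl hjk hjl hkl ?_ ?_ hu)
  · rw [alt3_zero]
    exact Submodule.zero_mem _
  · intro a b ha hb
    rw [alt3_add]
    exact Submodule.add_mem _ ha hb
  · intro r a ha
    rw [alt3_smul]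
    exact Submodule.smul_mem _ r ha
  · exact fun f hf => alt3_T3s hL hf
  · exact fun M1 M2 M3 a b c ha hb hc' h12 h13 h23 hM =>
      det3_mem hc hj hk hl hjk hjl hkl ha hb hc' h12 h13 h23 hM

/-- **L1** -/
theorem L1 (hc : (2 : F) ≠ 0) (hj : j ∈ L) (hk : k ∈ L) (hl : l ∈ L)
    (hjk : j ≠ k) (hjl : j ≠ l) (hkl : k ≠ l) (hu : u ∈ D F L) (h1 : S j k) (h2 : S j l)
    (h3 : S k l) (h4 : P j k) (h5 : P j l) (h6 : P k l) :
    alt3 j k l u ∈ KK F L S P Q := by
  refine KK_mono rfl ?_ ?_ ?_ (L1s hc hj hk hl hjk hjl hkl hu)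
  · rintro p _ q _ _ (⟨rfl, rfl⟩ | ⟨rfl, rfl⟩ | ⟨rfl, rfl⟩)
    · exact h1
    · exact h2
    · exact h3
  · rintro p _ q _ _ (⟨rfl, rfl⟩ | ⟨rfl, rfl⟩ | ⟨rfl, rfl⟩)
    · exact h4
    · exact h5
    · exact h6
  · exact fun _ _ _ _ _ h => h.elim

/-- the value of the double product, in a form -/
theorem s_mm (e : VF F) : sV e (mV (mV (xx i) (xx j)) (xx q)) =
    - sV (mV e (xx i)) (mV (xx j) (xx q)) + (2 : F) • (sV (xx i) (xx q) * sV e (xx j)) -
      sV (xx i) (xx j) * sV e (xx q) - sV (xx j) (xx q) * sV e (xx i) := by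
  funext A x
  have m := congrArg (fun z => A.s (e A x) z) (A.main (x i) (x j) (x q))
  have t := A.assoc (e A x) (x i) (A.mul (x j) (x q))
  simp only [map_add, map_sub, map_smul, smul_eq_mul] at m
  show A.s (e A x) (A.mul (A.mul (x i) (x j)) (x q)) =
    - A.s (A.mul (e A x) (x i)) (A.mul (x j) (x q)) +
      (2 : F) • (A.s (x i) (x q) * A.s (e A x) (x j)) -
      A.s (x i) (x j) * A.s (e A x) (x q) - A.s (x j) (x q) * A.s (e A x) (x i)
  rw [two_smul]
  linear_combination m + t

/-- one double product -/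
theorem s_mm_mem (hi : i ∈ L) (hj : j ∈ L) (hq : q ∈ L) (hij : i ≠ j) (hiq : i ≠ q)
    (hjq : j ≠ q) {e : VF F} (he : e ∈ E F (((L.erase i).erase j).erase q)) (h1 : S i j)
    (h2 : S i q) (h3 : S j q) (h4 : P j q) :
    sV e (mV (mV (xx i) (xx j)) (xx q)) ∈ KK F L S P Q := by
  rw [s_mm]
  have hI : i ∉ ((L.erase i).erase j).erase q := by simp
  have hJ : j ∉ ((L.erase i).erase j).erase q := by simp
  have hK : q ∉ ((L.erase i).erase j).erase q := by simp
  refine Submodule.sub_mem _ (Submodule.sub_mem _ (Submodule.add_mem _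
    (Submodule.neg_mem _ ?_) (Submodule.smul_mem _ _ ?_)) ?_) ?_
  · refine KPe hj hq hjq h4 (E_cast (E_m he (xx_mem i)
      (by rwa [Finset.disjoint_singleton_right])) ?_)
    ext n
    simp only [Finset.mem_union, Finset.mem_erase, Finset.mem_singleton]
    grind
  · refine KS hi hq hiq h2 (D_cast (D_s he (xx_mem j)
      (by rwa [Finset.disjoint_singleton_right])) ?_)
    ext n
    simp only [Finset.mem_union, Finset.mem_erase, Finset.mem_singleton]
    grind
  · refine KS hi hj hij h1 (D_cast (D_s he (xx_mem q)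
      (by rwa [Finset.disjoint_singleton_right])) ?_)
    ext n
    simp only [Finset.mem_union, Finset.mem_erase, Finset.mem_singleton]
    grind
  · refine KS hj hq hjq h3 (D_cast (D_s he (xx_mem i)
      (by rwa [Finset.disjoint_singleton_right])) ?_)
    ext n
    simp only [Finset.mem_union, Finset.mem_erase, Finset.mem_singleton]
    grind

/-- **(R)** -/
theorem L2R (hc : (2 : F) ≠ 0) (hi : i ∈ L) (hj : j ∈ L) (hk : k ∈ L) (hij : i ≠ j) (hik : i ≠ k)
    (hjk : j ≠ k) (hu : u ∈ D F (L.erase i)) (h1 : S i j) (h2 : S i k) (h3 : S j k) (h4 : P j k) :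
    sb j (mV (xx i) (xx j)) (u - rr j k u) + sb k (mV (xx i) (xx k)) (u - rr j k u) ∈
      KK F L S P Q := by
  have hj' : j ∈ L.erase i := Finset.mem_erase.2 ⟨hij.symm, hj⟩
  have hk' : k ∈ L.erase i := Finset.mem_erase.2 ⟨hik.symm, hk⟩
  have hu2 := sep2 hj' hk' hjk hu
  clear hu
  have hI : i ∉ ((L.erase i).erase j).erase k := by simp
  have hJ : j ∉ ((L.erase i).erase j).erase k := by simp
  have hK : k ∉ ((L.erase i).erase j).erase k := by simp
  unfold Op2 at hu2
  induction hu2 using Submodule.span_induction with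
  | zero =>
    have e : sb j (mV (xx i) (xx j)) ((0 : SF F) - rr j k 0) +
      sb k (mV (xx i) (xx k)) ((0 : SF F) - rr j k 0) = 0 := by
      unfold rr
      rw [ren_zero, sub_zero, sb_zero, sb_zero, add_zero]
    rw [e]
    exact Submodule.zero_mem _
  | add x y _ _ hx hy =>
    have e : sb j (mV (xx i) (xx j)) ((x + y : SF F) - rr j k (x + y)) +
        sb k (mV (xx i) (xx k)) ((x + y : SF F) - rr j k (x + y)) =
        (sb j (mV (xx i) (xx j)) (x - rr j k x) + sb k (mV (xx i) (xx k)) (x - rr j k x)) +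
        (sb j (mV (xx i) (xx j)) (y - rr j k y) + sb k (mV (xx i) (xx k)) (y - rr j k y)) := by
      unfold rr
      simp only [ren_add, sb_sub, sb_add]
      abel
    rw [e]
    exact Submodule.add_mem _ hx hy
  | smul r x _ hx =>
    have e : sb j (mV (xx i) (xx j)) ((r • x : SF F) - rr j k (r • x)) +
        sb k (mV (xx i) (xx k)) ((r • x : SF F) - rr j k (r • x)) =
        r • (sb j (mV (xx i) (xx j)) (x - rr j k x) + sb k (mV (xx i) (xx k)) (x - rr j k x)) := by
      unfold rr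
      simp only [ren_smul, sb_sub, sb_smul, smul_add, smul_sub]
    rw [e]
    exact Submodule.smul_mem _ r hx
  | mem x hx =>
    rcases hx with (⟨l', hl1, rfl⟩ | ⟨e, he, rfl⟩) | ⟨M, N, b, c, hb, hc', hd, hL, rfl⟩
    · have e1 : rr j k (l' * sV (xx j) (xx k)) = l' * sV (xx j) (xx k) := by
        have h : rr j k (l' * sV (xx j) (xx k)) =
          rr j k l' * sV (xx (Equiv.swap j k j)) (xx (Equiv.swap j k k)) := rfl
        rw [h, rr_of_notMem hl1 hJ hK, Equiv.swap_apply_left, Equiv.swap_apply_right,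
          sV_symm (xx k) (xx j)]
      rw [e1, sub_self, sb_zero, sb_zero, add_zero]
      exact Submodule.zero_mem _
    · have e1 : rr j k (sV e (mV (xx j) (xx k))) = - sV e (mV (xx j) (xx k)) := by
        have h : rr j k (sV e (mV (xx j) (xx k))) =
          sV (renV (Equiv.swap j k) e) (mV (xx (Equiv.swap j k j)) (xx (Equiv.swap j k k))) := rfl
        rw [h, renV_of_notMem he hJ hK, Equiv.swap_apply_left, Equiv.swap_apply_right,
          mV_anti, sV_neg_right]
      rw [e1, sub_neg_eq_add, ← two_smul F, sb_smul, sb_smul, ← smul_add]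
      refine Submodule.smul_mem _ _ ?_
      rw [sb_sV, sb_sV, sbV_mV, sbV_mV, sbV_xx_self, sbV_xx_self, sbV_xx_ne hjk.symm, sbV_xx_ne hjk,
        sbV_indep he hJ, sbV_indep he hK, mV_anti (xx j) (mV (xx i) (xx k)), sV_neg_right]
      refine Submodule.add_mem _ (s_mm_mem hi hj hk hij hik hjk he h1 h2 h3 h4)
        (Submodule.neg_mem _ ?_)
      have h5 := s_mm_mem (S := fun p q => S p q ∨ S q p) (P := fun p q => P p q ∨ P q p)
        (Q := Q) hi hk hj hik hij hjk.symm (E_cast he Finset.erase_right_comm) (Or.inl h2)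
        (Or.inl h1) (Or.inr h3) (Or.inr h4)
      exact KK_symm h5
    · have hL' : ∀ n, n ∈ M ∨ n ∈ N ↔ n ≠ k ∧ n ≠ j ∧ n ≠ i ∧ n ∈ L := by
        intro n
        have := Finset.ext_iff.1 hL n
        simpa only [Finset.mem_union, Finset.mem_erase] using this
      have hd' := Finset.disjoint_left.1 hd
      have iM : i ∉ M := by grind
      have iN : i ∉ N := by grind
      have jM : j ∉ M := by grind
      have jN : j ∉ N := by grind
      have kM : k ∉ M := by grind
      have kN : k ∉ N := by grind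
      have e1 : rr j k (sV b (xx j) * sV c (xx k)) = sV b (xx k) * sV c (xx j) := by
        have h : rr j k (sV b (xx j) * sV c (xx k)) =
          sV (renV (Equiv.swap j k) b) (xx (Equiv.swap j k j)) *
            sV (renV (Equiv.swap j k) c) (xx (Equiv.swap j k k)) := rfl
        rw [h, renV_of_notMem hb jM kM, renV_of_notMem hc' jN kN, Equiv.swap_apply_left,
          Equiv.swap_apply_right]
      have hid : sb j (mV (xx i) (xx j)) (sV b (xx j) * sV c (xx k) - sV b (xx k) * sV c (xx j)) +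
          sb k (mV (xx i) (xx k)) (sV b (xx j) * sV c (xx k) - sV b (xx k) * sV c (xx j)) =
          sV (mV (mV c b) (xx i)) (mV (xx j) (xx k)) - sV (xx i) (xx k) * sV c (mV b (xx j)) +
            sV (xx i) (xx j) * sV c (mV b (xx k)) -
            sV (cV (sV c (xx i)) b) (mV (xx j) (xx k)) +
            sV (cV (sV b (xx i)) c) (mV (xx j) (xx k)) := by
        rw [sb_sub, sb_sub, sb_mul, sb_mul, sb_mul, sb_mul, sb_sV, sb_sV, sb_sV, sb_sV, sb_sV,
          sb_sV, sb_sV, sb_sV, sbV_xx_self, sbV_xx_self, sbV_xx_ne hjk.symm, sbV_xx_ne hjk,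
          sbV_indep hb jM, sbV_indep hb kM, sbV_indep hc' jN, sbV_indep hc' kN]
        funext A x
        have h := brk hc A (x i) (x j) (x k) (b A x) (c A x)
        show (A.s (b A x) (A.mul (x i) (x j)) * A.s (c A x) (x k) -
            A.s (b A x) (x k) * A.s (c A x) (A.mul (x i) (x j))) +
          (A.s (b A x) (x j) * A.s (c A x) (A.mul (x i) (x k)) -
            A.s (b A x) (A.mul (x i) (x k)) * A.s (c A x) (x j)) =
          A.s (A.mul (A.mul (c A x) (b A x)) (x i)) (A.mul (x j) (x k)) -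
            A.s (x i) (x k) * A.s (c A x) (A.mul (b A x) (x j)) +
            A.s (x i) (x j) * A.s (c A x) (A.mul (b A x) (x k)) -
            A.s (A.s (c A x) (x i) • b A x) (A.mul (x j) (x k)) +
            A.s (A.s (b A x) (x i) • c A x) (A.mul (x j) (x k))
        simp only [map_smul, LinearMap.smul_apply, smul_eq_mul]
        linear_combination h
      rw [e1, hid]
      refine Submodule.add_mem _ (Submodule.sub_mem _ (Submodule.add_mem _
        (Submodule.sub_mem _ ?_ ?_) ?_) ?_) ?_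
      · exact KPe hj hk hjk h4 (mem_m hc' hb (xx_mem i) hd.symm (Finset.disjoint_left.2 (by grind))
          (Finset.disjoint_left.2 (by grind)) (by ext n; have h := hL' n; grind))
      · refine KS hi hk hik h2 (D_cast (D_s hc' (E_m hb (xx_mem j)
          (Finset.disjoint_left.2 (by grind))) (Finset.disjoint_left.2 (by grind)))
          (by ext n; have h := hL' n; grind))
      · refine KS hi hj hij h1 (D_cast (D_s hc' (E_m hb (xx_mem k)
          (Finset.disjoint_left.2 (by grind))) (Finset.disjoint_left.2 (by grind)))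
          (by ext n; have h := hL' n; grind))
      · exact KPe hj hk hjk h4 (mem_c hc' (xx_mem i) hb (Finset.disjoint_left.2 (by grind)) hd.symm
          (Finset.disjoint_left.2 (by grind)) (by ext n; have h := hL' n; grind))
      · exact KPe hj hk hjk h4 (mem_c hb (xx_mem i) hc' (Finset.disjoint_left.2 (by grind)) hd
          (Finset.disjoint_left.2 (by grind)) (by ext n; have h := hL' n; grind))

/-- **L2**, another name -/
theorem L2 (hc : (2 : F) ≠ 0) (hi : i ∈ L) (hj : j ∈ L) (hk : k ∈ L) (hij : i ≠ j) (hik : i ≠ k)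
    (hjk : j ≠ k) (hu : u ∈ D F (L.erase i)) (h1 : S i j) (h2 : S i k) (h3 : S j k) (h4 : P j k) :
    sb j (mV (xx i) (xx j)) (u - rr j k u) + sb k (mV (xx i) (xx k)) (u - rr j k u) ∈
      KK F L S P Q := L2R hc hi hj hk hij hik hjk hu h1 h2 h3 h4

/-- **L2'** -/
theorem L2' (hc : (2 : F) ≠ 0) (hi : i ∈ L) (hj : j ∈ L) (hk : k ∈ L) (hij : i ≠ j) (hik : i ≠ k)
    (hjk : j ≠ k)
    (hu : u ∈ D F (L.erase i)) (h1 : S i j) (h2 : S i k) (h3 : S j k) (h4 : P j k) (h5 : P i k) :
    sb j (mV (xx i) (xx j)) (u - rr j k u) ∈ KK F L S P Q := by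
  have hj' : j ∈ L.erase i := Finset.mem_erase.2 ⟨hij.symm, hj⟩
  have hk' : k ∈ L.erase i := Finset.mem_erase.2 ⟨hik.symm, hk⟩
  have h6 := L2R (Q := Q) hc hi hj hk hij hik hjk hu h1 h2 h3 h4
  have h7 := KP (S := S) (Q := Q) hi hk hik h5 (Submodule.sub_mem _ hu (rr_mem hu hj' hk'))
  have h8 := Submodule.sub_mem _ h6 h7
  rwa [add_sub_cancel_right] at h8

/-! ### three letters and a substitution -/

theorem rr3a (hjk : j ≠ k) (hjl : j ≠ l) (hkl : k ≠ l) (u : SF F) :
    rr j l (rr j k u) = rr j k (rr k l u) := by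
  funext A x
  show u A (fun n => x (Equiv.swap j l (Equiv.swap j k n))) =
    u A (fun n => x (Equiv.swap j k (Equiv.swap k l n)))
  congr 1
  funext n
  congr 1
  simp only [Equiv.swap_apply_def]
  grind

theorem rr3b (hjk : j ≠ k) (hjl : j ≠ l) (hkl : k ≠ l) (u : SF F) :
    rr j k (rr j l u) = rr k l (rr j k u) := by
  funext A x
  show u A (fun n => x (Equiv.swap j k (Equiv.swap j l n))) =
    u A (fun n => x (Equiv.swap k l (Equiv.swap j k n)))
  congr 1
  funext n
  congr 1
  simp only [Equiv.swap_apply_def]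
  grind

theorem alt3_eq (hjk : j ≠ k) (hjl : j ≠ l) (hkl : k ≠ l) (u : SF F) :
    u - rr k l u = alt3 j k l u + (rr j k u - rr j l (rr j k u)) + (rr j l u - rr j k (rr j l u)) := by
  unfold alt3
  rw [rr3a hjk hjl hkl, rr3b hjk hjl hkl]
  abel

/-- **L3'** -/
theorem L3' (hc : (2 : F) ≠ 0) (hi : i ∈ L) (hj : j ∈ L) (hk : k ∈ L) (hl : l ∈ L) (hij : i ≠ j)
    (hik : i ≠ k) (hil : i ≠ l)
    (hjk : j ≠ k) (hjl : j ≠ l) (hkl : k ≠ l)
    (hu : u ∈ D F (L.erase i)) (h1 : S i j) (h2 : S i k) (h3 : S i l) (h4 : S j k) (h5 : S j l)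
    (h6 : S k l)
    (h7 : P j k) (h8 : P j l) (h9 : P k l) (h10 : P i k) (h11 : P i l) :
    sb j (mV (xx i) (xx j)) (u - rr k l u) ∈ KK F L S P Q := by
  have hj' : j ∈ L.erase i := Finset.mem_erase.2 ⟨hij.symm, hj⟩
  have hk' : k ∈ L.erase i := Finset.mem_erase.2 ⟨hik.symm, hk⟩
  have hl' : l ∈ L.erase i := Finset.mem_erase.2 ⟨hil.symm, hl⟩
  rw [alt3_eq hjk hjl hkl, sb_add, sb_add]
  refine Submodule.add_mem _ (Submodule.add_mem _ ?_ ?_) ?_
  · have h12 := L1s hc hj' hk' hl' hjk hjl hkl hu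
    refine KK_ind (p := fun h => sb j (mV (xx i) (xx j)) h ∈ KK F L S P Q) ?_ ?_ ?_ ?_ ?_ ?_ h12
    · rw [sb_zero]
      exact Submodule.zero_mem _
    · intro f g hf hg
      rw [sb_add]
      exact Submodule.add_mem _ hf hg
    · intro r f hf
      rw [sb_smul]
      exact Submodule.smul_mem _ r hf
    · rintro p _ q _ _ (⟨rfl, rfl⟩ | ⟨rfl, rfl⟩ | ⟨rfl, rfl⟩) w hw
      · have e1 : sb p (mV (xx i) (xx p)) (sV (xx p) (xx q) * w) =
            sV (mV (xx i) (xx p)) (xx q) * w := by
          rw [sb_mul, sb_sV, sbV_xx_self, sbV_xx_ne hjk.symm, sb_indep hw (by simp)]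
        rw [e1]
        exact GB hi hj hk hij hik hjk hw h7
      · have e1 : sb p (mV (xx i) (xx p)) (sV (xx p) (xx q) * w) =
            sV (mV (xx i) (xx p)) (xx q) * w := by
          rw [sb_mul, sb_sV, sbV_xx_self, sbV_xx_ne hjl.symm, sb_indep hw (by simp)]
        rw [e1]
        exact GB hi hj hl hij hil hjl hw h8
      · have e1 : sb j (mV (xx i) (xx j)) (sV (xx p) (xx q) * w) =
            sV (xx p) (xx q) * sb j (mV (xx i) (xx j)) w := by
          rw [sb_mul, sb_sV, sbV_xx_ne hjk.symm, sbV_xx_ne hjl.symm]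
        rw [e1]
        refine KS hk hl hkl h6 (G_mem (L := (L.erase p).erase q) ?_ ?_ hij (D_cast hw ?_))
        · exact Finset.mem_erase.2 ⟨hil, Finset.mem_erase.2 ⟨hik, hi⟩⟩
        · exact Finset.mem_erase.2 ⟨hjl, Finset.mem_erase.2 ⟨hjk, hj⟩⟩
        · ext n
          simp only [Finset.mem_erase]
          tauto
    · rintro p _ q _ _ (⟨rfl, rfl⟩ | ⟨rfl, rfl⟩ | ⟨rfl, rfl⟩) w hw
      · have e1 : sb p (mV (xx i) (xx p)) (sb q (mV (xx p) (xx q)) w) =
            sb q (mV (mV (xx i) (xx p)) (xx q)) w := by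
          funext A x
          have h13 : sbV p (mV (xx i) (xx p)) (mV (xx p) (xx q) : VF F) =
              mV (mV (xx i) (xx p)) (xx q) := by
            rw [sbV_mV, sbV_xx_self, sbV_xx_ne hjk.symm]
          show w A (Function.update (Function.update x p (A.mul (x i) (x p))) q
            (sbV p (mV (xx i) (xx p)) (mV (xx p) (xx q)) A x)) =
            w A (Function.update x q (mV (mV (xx i) (xx p)) (xx q) A x))
          rw [h13, Function.update_comm hjk]
          exact indep hw A _ (by simp) _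
        rw [e1]
        exact L4 hi hj hk hij hik hjk hw h1 h2 h4 h7
      · have e1 : sb p (mV (xx i) (xx p)) (sb q (mV (xx p) (xx q)) w) =
            sb q (mV (mV (xx i) (xx p)) (xx q)) w := by
          funext A x
          have h13 : sbV p (mV (xx i) (xx p)) (mV (xx p) (xx q) : VF F) =
              mV (mV (xx i) (xx p)) (xx q) := by
            rw [sbV_mV, sbV_xx_self, sbV_xx_ne hjl.symm]
          show w A (Function.update (Function.update x p (A.mul (x i) (x p))) q
            (sbV p (mV (xx i) (xx p)) (mV (xx p) (xx q)) A x)) =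
            w A (Function.update x q (mV (mV (xx i) (xx p)) (xx q) A x))
          rw [h13, Function.update_comm hjl]
          exact indep hw A _ (by simp) _
        rw [e1]
        exact L4 hi hj hl hij hil hjl hw h1 h3 h5 h8
      · rw [sb_sb_comm hjl (sbV_mV_xx hil hjl _) (sbV_mV_xx hjk.symm hjl.symm _)]
        refine KP hk hl hkl h9 (G_mem (L := L.erase p) ?_ ?_ hij (D_cast hw ?_))
        · exact Finset.mem_erase.2 ⟨hik, hi⟩
        · exact Finset.mem_erase.2 ⟨hjk, hj⟩
        · exact Finset.erase_right_comm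
    · exact fun _ _ _ _ _ h => h.elim
  · exact L2' hc hi hj hl hij hil hjl (rr_mem hu hj' hk') h1 h3 h5 h8 h11
  · exact L2' hc hi hj hk hij hik hjk (rr_mem hu hj' hl') h1 h2 h4 h7 h10

/-- **L5** -/
theorem L5 (hc : (2 : F) ≠ 0) (hi : i ∈ L) (hj : j ∈ L) (hk : k ∈ L) (hl : l ∈ L) (hij : i ≠ j)
    (hik : i ≠ k) (hil : i ≠ l)
    (hjk : j ≠ k) (hjl : j ≠ l) (hkl : k ≠ l)
    (hu : u ∈ D F ((L.erase i).erase j)) (h2 : S i k) (h3 : S i l) (h4 : S j k) (h5 : S j l)
    (h6 : S k l)
    (h7 : P j k) (h8 : P j l) (h9 : P k l) :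
    sV (xx i) (xx j) * (u - rr k l u) ∈ KK F L S P Q := by
  have hU := S_mem hi hj hij hu
  have hj' : j ∈ L.erase i := Finset.mem_erase.2 ⟨hij.symm, hj⟩
  have hk' : k ∈ L.erase i := Finset.mem_erase.2 ⟨hik.symm, hk⟩
  have hl' : l ∈ L.erase i := Finset.mem_erase.2 ⟨hil.symm, hl⟩
  have h10 := L1 (S := S) (P := P) (Q := Q) hc hj hk hl hjk hjl hkl hU h4 h5 h6 h7 h8 h9
  have kJ : k ∈ (L.erase i).erase j := Finset.mem_erase.2 ⟨hjk.symm, hk'⟩
  have lJ : l ∈ (L.erase i).erase j := Finset.mem_erase.2 ⟨hjl.symm, hl'⟩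
  have key : ∀ a ∈ L.erase i, ∀ f ∈ D F ((L.erase i).erase j),
      rr j a f ∈ D F ((L.erase i).erase a) := fun a ha f hf => rr_erase hf hj' ha
  have e1 : rr k l (sV (xx i) (xx j) * u) = sV (xx i) (xx j) * rr k l u := by
    have h : rr k l (sV (xx i) (xx j) * u) =
      sV (xx (Equiv.swap k l i)) (xx (Equiv.swap k l j)) * rr k l u := rfl
    rw [h, Equiv.swap_apply_of_ne_of_ne hik hil, Equiv.swap_apply_of_ne_of_ne hjk hjl]
  have e2 : ∀ f : SF F, rr j k (sV (xx i) (xx j) * f) = sV (xx i) (xx k) * rr j k f := by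
    intro f
    have h : rr j k (sV (xx i) (xx j) * f) =
      sV (xx (Equiv.swap j k i)) (xx (Equiv.swap j k j)) * rr j k f := rfl
    rw [h, Equiv.swap_apply_of_ne_of_ne hij hik, Equiv.swap_apply_left]
  have e3 : rr j l (sV (xx i) (xx j) * u) = sV (xx i) (xx l) * rr j l u := by
    have h : rr j l (sV (xx i) (xx j) * u) =
      sV (xx (Equiv.swap j l i)) (xx (Equiv.swap j l j)) * rr j l u := rfl
    rw [h, Equiv.swap_apply_of_ne_of_ne hij hil, Equiv.swap_apply_left]
  have e4 : rr k l (sV (xx i) (xx k) * rr j k u) = sV (xx i) (xx l) * rr k l (rr j k u) := by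
    have h : rr k l (sV (xx i) (xx k) * rr j k u) =
      sV (xx (Equiv.swap k l i)) (xx (Equiv.swap k l k)) * rr k l (rr j k u) := rfl
    rw [h, Equiv.swap_apply_of_ne_of_ne hik hil, Equiv.swap_apply_left]
  unfold alt3 at h10
  rw [e1, e2, e2, e3, e4] at h10
  have m1 : sV (xx i) (xx k) * rr j k u ∈ KK F L S P Q := KS hi hk hik h2 (key k hk' u hu)
  have m2 : sV (xx i) (xx l) * rr j l u ∈ KK F L S P Q := KS hi hl hil h3 (key l hl' u hu)
  have m3 : sV (xx i) (xx k) * rr j k (rr k l u) ∈ KK F L S P Q :=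
    KS hi hk hik h2 (key k hk' _ (rr_mem hu kJ lJ))
  have m4 : sV (xx i) (xx l) * rr k l (rr j k u) ∈ KK F L S P Q := by
    rw [← rr3b hjk hjl hkl]
    refine KS hi hl hil h3 ?_
    have h11 := key l hl' u hu
    refine rr_mem h11 ?_ ?_
    · exact Finset.mem_erase.2 ⟨hjl, hj'⟩
    · exact Finset.mem_erase.2 ⟨hkl, hk'⟩
  have h12 := Submodule.sub_mem _ (Submodule.sub_mem _ (Submodule.add_mem _ (Submodule.add_mem _
    h10 m1) m2) m3) m4
  have e5 : sV (xx i) (xx j) * (u - rr k l u) =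
      sV (xx i) (xx j) * u - sV (xx i) (xx k) * rr j k u - sV (xx i) (xx j) * rr k l u -
        sV (xx i) (xx l) * rr j l u + sV (xx i) (xx k) * rr j k (rr k l u) +
        sV (xx i) (xx l) * rr k l (rr j k u) + sV (xx i) (xx k) * rr j k u +
        sV (xx i) (xx l) * rr j l u - sV (xx i) (xx k) * rr j k (rr k l u) -
        sV (xx i) (xx l) * rr k l (rr j k u) := by
    ring
  rw [e5]
  exact h12

end X

end Pool.Agent.MalP
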