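import Pool.Agent.MalP.X.Dec

/-! # Theorem X: identities, first part -/

set_option autoImplicit false

namespace Pool.Agent.MalP

universe u

namespace X

open CPA Finset

variable {F : Type u} [Field F] {L : Finset ℕ} {S P Q : ℕ → ℕ → Prop} {i j k l q : ℕ} {w u : SF F}

/-- the identity `(x_i x_j) x_q = - x_i (x_j x_q) + 2 s(x_i, x_q) x_j - s(x_i, x_j) x_q - s(x_j, x_q) x_i` in the slot `q` -/
theorem sb_triple (hq : q ∈ L) (hiq : i ≠ q) (hjq : j ≠ q)
    (hw : w ∈ D F ((L.erase i).erase j)) :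
    sb q (mV (mV (xx i) (xx j)) (xx q)) w = - sb q (mV (xx i) (mV (xx j) (xx q))) w +
      2 * (sV (xx i) (xx q) * sb q (xx j) w) - sV (xx i) (xx j) * w -
      sV (xx j) (xx q) * sb q (xx i) w := by
  have hq' : q ∈ (L.erase i).erase j :=
    Finset.mem_erase.2 ⟨hjq.symm, Finset.mem_erase.2 ⟨hiq.symm, hq⟩⟩
  rw [mV_mV, sb_sub_W hw hq', sb_sub_W hw hq', sb_add_W hw hq', sb_neg_W hw hq', sb_cV hw hq',
    sb_cV hw hq', sb_cV hw hq', sb_xx, mul_assoc]

/-- renaming a letter by the substitution of a letter -/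
theorem sb_xx_mem {M : Finset ℕ} (hw : w ∈ D F M) (hq : q ∈ M) (hj : j ∉ M.erase q) :
    sb q (xx j) w ∈ D F (insert j (M.erase q)) := by
  have h := sb_mem hw hq (xx_mem j) (Finset.disjoint_singleton_right.2 hj)
  rwa [Finset.union_comm, ← Finset.insert_eq] at h

theorem L4 (hi : i ∈ L) (hj : j ∈ L) (hq : q ∈ L) (hij : i ≠ j) (hiq : i ≠ q) (hjq : j ≠ q)
    (hw : w ∈ D F ((L.erase i).erase j)) (h1 : S i j) (h2 : S i q) (h3 : S j q) (h4 : P j q) :
    sb q (mV (mV (xx i) (xx j)) (xx q)) w ∈ KK F L S P Q := by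
  have hq' : q ∈ (L.erase i).erase j :=
    Finset.mem_erase.2 ⟨hjq.symm, Finset.mem_erase.2 ⟨hiq.symm, hq⟩⟩
  rw [sb_triple hq hiq hjq hw]
  refine Submodule.sub_mem _ (Submodule.sub_mem _ (Submodule.add_mem _ (Submodule.neg_mem _ ?_) ?_) ?_) ?_
  · have e : sb q (mV (xx i) (mV (xx j) (xx q))) w =
        sb q (mV (xx j) (xx q)) (sb q (mV (xx i) (xx q)) w) := by
      rw [sb_sb_self, sbV_mV, sbV_xx_self, sbV_xx_ne hiq]
    rw [e]
    refine KP hj hq hjq h4 (D_cast (G_mem (L := L.erase j) (i := i) (j := q) ?_ ?_ hiq ?_) rfl)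
    · exact Finset.mem_erase.2 ⟨hij, hi⟩
    · exact Finset.mem_erase.2 ⟨hjq.symm, hq⟩
    · rwa [Finset.erase_right_comm]
  · rw [two_mul]
    refine Submodule.add_mem _ ?_ ?_ <;>
    · refine KS hi hq hiq h2 (D_cast (sb_xx_mem hw hq' (by simp)) ?_)
      ext n
      simp only [Finset.mem_insert, Finset.mem_erase]
      by_cases hn : n = j
      · subst hn
        simp [hj, hij.symm, hjq]
      · simp only [hn, false_or, not_false_eq_true, true_and, ne_eq]
  · exact KS hi hj hij h1 hw
  · refine KS hj hq hjq h3 (D_cast (sb_xx_mem hw hq' (by simp)) ?_)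
    ext n
    simp only [Finset.mem_insert, Finset.mem_erase]
    by_cases hn : n = i
    · subst hn
      simp [hi, hij, hiq]
    · simp only [hn, false_or, not_false_eq_true, true_and, ne_eq]

theorem GB (hi : i ∈ L) (hj : j ∈ L) (hq : q ∈ L) (hij : i ≠ j) (hiq : i ≠ q) (hjq : j ≠ q)
    (hw : w ∈ D F (((L.erase i).erase j).erase q)) (h1 : P j q) :
    sV (mV (xx i) (xx j)) (xx q) * w ∈ KK F L S P Q := by
  have e : sV (mV (xx i) (xx j)) (xx q) * w = sb q (mV (xx j) (xx q)) (sV (xx i) (xx q) * w) := by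
    rw [sb_mul, sb_sV, sbV_xx_self, sbV_xx_ne hiq, sb_indep hw (Finset.notMem_erase q _), sV_assoc]
  rw [e]
  refine KP hj hq hjq h1 (S_mem (L := L.erase j) ?_ ?_ hiq ?_)
  · exact Finset.mem_erase.2 ⟨hij, hi⟩
  · exact Finset.mem_erase.2 ⟨hjq.symm, hq⟩
  · rwa [Finset.erase_right_comm (a := j)]

/-- elements which are skew in two letters of the same colour -/
theorem skew_mem (hc : (2 : F) ≠ 0) (hi : i ∈ L) (hj : j ∈ L) (hij : i ≠ j) (h : Q i j)
    (hw : w ∈ D F L) (hs : rr i j w = - w) : w ∈ KK F L S P Q := by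
  have m := KQ (S := S) (P := P) hi hj hij h hw
  rw [hs, sub_neg_eq_add, ← two_smul F] at m
  have m2 := Submodule.smul_mem _ (2 : F)⁻¹ m
  rwa [smul_smul, inv_mul_cancel₀ hc, one_smul] at m2

theorem GB' (hc : (2 : F) ≠ 0) (hi : i ∈ L) (hj : j ∈ L) (hq : q ∈ L) (hij : i ≠ j) (hiq : i ≠ q) (hjq : j ≠ q)
    (hw : w ∈ D F (((L.erase i).erase j).erase q)) (h1 : Q i q) :
    sV (mV (xx i) (xx j)) (xx q) * w ∈ KK F L S P Q := by
  refine skew_mem hc hi hq hiq h1 ?_ ?_
  · have e : sV (mV (xx i) (xx j)) (xx q) * w = sb q (mV (xx j) (xx q)) (sV (xx i) (xx q) * w) := by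
      rw [sb_mul, sb_sV, sbV_xx_self, sbV_xx_ne hiq, sb_indep hw (Finset.notMem_erase q _), sV_assoc]
    rw [e]
    refine G_mem hj hq hjq (S_mem (L := L.erase j) ?_ ?_ hiq ?_)
    · exact Finset.mem_erase.2 ⟨hij, hi⟩
    · exact Finset.mem_erase.2 ⟨hjq.symm, hq⟩
    · rwa [Finset.erase_right_comm (a := j)]
  · have e1 : rr i q (sV (mV (xx i) (xx j)) (xx q) * w) =
        sV (mV (xx (Equiv.swap i q i)) (xx (Equiv.swap i q j))) (xx (Equiv.swap i q q)) * rr i q w := rfl
    have e2 : rr i q w = w := by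
      refine rr_of_notMem hw ?_ ?_
      · intro h
        exact Finset.notMem_erase i L (Finset.mem_of_mem_erase (Finset.mem_of_mem_erase h))
      · exact Finset.notMem_erase q _
    rw [e1, e2, Equiv.swap_apply_left, Equiv.swap_apply_right,
      Equiv.swap_apply_of_ne_of_ne hij.symm hjq, sV_assoc, mV_anti (xx j) (xx i), sV_neg_right,
      neg_mul, sV_symm]

theorem L4' (hc : (2 : F) ≠ 0) (hi : i ∈ L) (hj : j ∈ L) (hq : q ∈ L) (hij : i ≠ j) (hiq : i ≠ q) (hjq : j ≠ q)
    (hw : w ∈ D F ((L.erase i).erase j)) (h1 : Q i q) (h2 : S i j) (h3 : S i q) (h4 : S j q) :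
    sb q (mV (mV (xx i) (xx j)) (xx q)) w ∈ KK F L S P Q := by
  have hq' : q ∈ (L.erase i).erase j :=
    Finset.mem_erase.2 ⟨hjq.symm, Finset.mem_erase.2 ⟨hiq.symm, hq⟩⟩
  -- `(x_i x_q) x_j` is skew
  have hskew : sb q (mV (mV (xx i) (xx q)) (xx j)) w ∈ KK F L S P Q := by
    refine skew_mem hc hi hq hiq h1 ?_ ?_
    · have hd : (mV (mV (xx i) (xx q)) (xx j) : VF F) ∈ E F ({i} ∪ {q} ∪ {j}) :=
        E_m (pr_mem hiq) (xx_mem j) (by
          rw [Finset.disjoint_singleton_right, Finset.mem_union, Finset.mem_singleton,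
            Finset.mem_singleton]
          rintro (h | h)
          · exact hij h.symm
          · exact hjq h)
      refine D_cast (sb_mem hw hq' hd ?_) ?_
      · rw [Finset.disjoint_left]
        intro n hn hn2
        simp only [Finset.mem_union, Finset.mem_singleton, Finset.mem_erase] at hn hn2
        tauto
      · ext n
        simp only [Finset.mem_union, Finset.mem_singleton, Finset.mem_erase]
        by_cases h1 : n = i
        · subst h1
          simp [hi]
        · by_cases h2 : n = j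
          · subst h2
            simp [hj]
          · by_cases h3 : n = q
            · subst h3
              simp [hq]
            · simp [h1, h2, h3]
    · refine (ren_sb (Equiv.swap i q) q (mV (mV (xx i) (xx q)) (xx j)) w).trans ?_
      rw [renV_mV, renV_mV, renV_xx, renV_xx, renV_xx, Equiv.swap_apply_left, Equiv.swap_apply_right,
        Equiv.swap_apply_of_ne_of_ne hij.symm hjq]
      funext A x
      have e1 : sb i (mV (mV (xx q) (xx i)) (xx j)) (ren (Equiv.swap i q) w) A x =
          w A (fun n => Function.update x i (A.mul (A.mul (x q) (x i)) (x j)) (Equiv.swap i q n)) := rfl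
      have e2 : (- sb q (mV (mV (xx i) (xx q)) (xx j)) w) A x =
        - w A (Function.update x q (A.mul (A.mul (x i) (x q)) (x j))) := rfl
      rw [e1, e2, ← D_neg hw A x hq']
      refine D_congr hw A ?_
      intro n hn
      rcases eq_or_ne n q with rfl | h3
      · rw [Equiv.swap_apply_right, Function.update_self, Function.update_self, A.anti (x n) (x i),
          map_neg, LinearMap.neg_apply]
      · have h4 : n ≠ i := by
          rintro rfl
          exact Finset.notMem_erase n L (Finset.mem_of_mem_erase hn)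
        rw [Equiv.swap_apply_of_ne_of_ne h4 h3, Function.update_of_ne h4, Function.update_of_ne h3]
  -- `x_i (x_q x_j)`
  have hT : sb q (mV (xx i) (mV (xx q) (xx j))) w ∈ KK F L S P Q := by
    have e : sb q (mV (mV (xx i) (xx q)) (xx j)) w = - sb q (mV (xx i) (mV (xx q) (xx j))) w +
        2 * (sV (xx i) (xx j) * w) - sV (xx i) (xx q) * sb q (xx j) w -
        sV (xx q) (xx j) * sb q (xx i) w := by
      rw [mV_mV, sb_sub_W hw hq', sb_sub_W hw hq', sb_add_W hw hq', sb_neg_W hw hq', sb_cV hw hq',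
        sb_cV hw hq', sb_cV hw hq', sb_xx, mul_assoc]
    have m1 : sV (xx i) (xx j) * w ∈ KK F L S P Q := KS hi hj hij h2 hw
    have m2 : sV (xx i) (xx q) * sb q (xx j) w ∈ KK F L S P Q := by
      refine KS hi hq hiq h3 (D_cast (sb_xx_mem hw hq' (by simp)) ?_)
      ext n
      simp only [Finset.mem_insert, Finset.mem_erase]
      by_cases hn : n = j
      · subst hn
        simp [hj, hij.symm, hjq]
      · simp only [hn, false_or, not_false_eq_true, true_and, ne_eq]
    have m3 : sV (xx q) (xx j) * sb q (xx i) w ∈ KK F L S P Q := by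
      rw [sV_symm]
      refine KS hj hq hjq h4 (D_cast (sb_xx_mem hw hq' (by simp)) ?_)
      ext n
      simp only [Finset.mem_insert, Finset.mem_erase]
      by_cases hn : n = i
      · subst hn
        simp [hi, hij, hiq]
      · simp only [hn, false_or, not_false_eq_true, true_and, ne_eq]
    have e' : sb q (mV (xx i) (mV (xx q) (xx j))) w = - sb q (mV (mV (xx i) (xx q)) (xx j)) w +
        (sV (xx i) (xx j) * w + sV (xx i) (xx j) * w) - sV (xx i) (xx q) * sb q (xx j) w -
        sV (xx q) (xx j) * sb q (xx i) w := by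
      rw [e]
      ring
    rw [e']
    exact Submodule.sub_mem _ (Submodule.sub_mem _ (Submodule.add_mem _ (Submodule.neg_mem _ hskew)
      (Submodule.add_mem _ m1 m1)) m2) m3
  -- exchange `i` and `q`
  have hex : sb q (mV (xx q) (mV (xx i) (xx j))) w ∈ KK F L S P Q := by
    have hd : (mV (xx i) (mV (xx q) (xx j)) : VF F) ∈ E F ({i} ∪ ({q} ∪ {j})) :=
      E_m (xx_mem i) (pr_mem hjq.symm) (by
        rw [Finset.disjoint_singleton_left, Finset.mem_union, Finset.mem_singleton,
          Finset.mem_singleton]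
        rintro (h | h)
        · exact hiq h
        · exact hij h)
    have hm : sb q (mV (xx i) (mV (xx q) (xx j))) w ∈ D F L := KK_le hT
    have m := KQ (S := S) (P := P) hi hq hiq h1 hm
    have e : rr i q (sb q (mV (xx i) (mV (xx q) (xx j))) w) = sb q (mV (xx q) (mV (xx i) (xx j))) w := by
      refine (ren_sb (Equiv.swap i q) q (mV (xx i) (mV (xx q) (xx j))) w).trans ?_
      rw [renV_mV, renV_mV, renV_xx, renV_xx, renV_xx, Equiv.swap_apply_left, Equiv.swap_apply_right,
        Equiv.swap_apply_of_ne_of_ne hij.symm hjq]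
      funext A x
      refine D_congr hw A ?_
      intro n hn
      rcases eq_or_ne n q with rfl | h3
      · rw [Equiv.swap_apply_right, Function.update_self, Function.update_self]
      · have h4 : n ≠ i := by
          rintro rfl
          exact Finset.notMem_erase n L (Finset.mem_of_mem_erase hn)
        rw [Equiv.swap_apply_of_ne_of_ne h4 h3, Function.update_of_ne h4, Function.update_of_ne h3]
    rw [e] at m
    have m' := Submodule.sub_mem _ hT m
    rwa [sub_sub_cancel] at m'
  have e : sb q (mV (mV (xx i) (xx j)) (xx q)) w = - sb q (mV (xx q) (mV (xx i) (xx j))) w := by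
    rw [mV_anti, sb_neg_W hw hq']
  rw [e]
  exact Submodule.neg_mem _ hex

end X

end Pool.Agent.MalP
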