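import Pool.Agent.MalP.X.Sub

/-! # Theorem X: the span of the relations -/

set_option autoImplicit false

namespace Pool.Agent.MalP

universe u

namespace X

open CPA Finset

variable {F : Type u} [Field F] {L : Finset ℕ} {S P Q : ℕ → ℕ → Prop} {i j : ℕ} {w : SF F}

theorem KS (hi : i ∈ L) (hj : j ∈ L) (hij : i ≠ j) (h : S i j) (hw : w ∈ D F ((L.erase i).erase j)) :
    sV (xx i) (xx j) * w ∈ KK F L S P Q :=
  Submodule.subset_span (Or.inl ⟨i, hi, j, hj, hij, h, w, hw, rfl⟩)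

theorem KP (hi : i ∈ L) (hj : j ∈ L) (hij : i ≠ j) (h : P i j) (hw : w ∈ D F (L.erase i)) :
    sb j (mV (xx i) (xx j)) w ∈ KK F L S P Q :=
  Submodule.subset_span (Or.inr (Or.inl ⟨i, hi, j, hj, hij, h, w, hw, rfl⟩))

theorem KQ (hi : i ∈ L) (hj : j ∈ L) (hij : i ≠ j) (h : Q i j) (hw : w ∈ D F L) :
    w - rr i j w ∈ KK F L S P Q :=
  Submodule.subset_span (Or.inr (Or.inr ⟨i, hi, j, hj, hij, h, w, hw, rfl⟩))

/-- induction for the span of the relations -/
theorem KK_ind {p : SF F → Prop} (h0 : p 0) (hadd : ∀ f g, p f → p g → p (f + g))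
    (hsmul : ∀ (r : F) f, p f → p (r • f))
    (hS : ∀ i ∈ L, ∀ j ∈ L, i ≠ j → S i j → ∀ w ∈ D F ((L.erase i).erase j),
      p (sV (xx i) (xx j) * w))
    (hP : ∀ i ∈ L, ∀ j ∈ L, i ≠ j → P i j → ∀ w ∈ D F (L.erase i), p (sb j (mV (xx i) (xx j)) w))
    (hQ : ∀ i ∈ L, ∀ j ∈ L, i ≠ j → Q i j → ∀ w ∈ D F L, p (w - rr i j w))
    {h : SF F} (hh : h ∈ KK F L S P Q) : p h := by
  unfold KK at hh
  induction hh using Submodule.span_induction with
  | zero => exact h0
  | add x y _ _ hx hy => exact hadd x y hx hy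
  | smul r x _ hx => exact hsmul r x hx
  | mem x hx =>
    rcases hx with ⟨i, hi, j, hj, hij, h, w, hw, rfl⟩ | ⟨i, hi, j, hj, hij, h, w, hw, rfl⟩ |
      ⟨i, hi, j, hj, hij, h, w, hw, rfl⟩
    · exact hS i hi j hj hij h w hw
    · exact hP i hi j hj hij h w hw
    · exact hQ i hi j hj hij h w hw

theorem KK_mono {L' : Finset ℕ} {S' P' Q' : ℕ → ℕ → Prop} (hL : L = L')
    (hS : ∀ i ∈ L, ∀ j ∈ L, i ≠ j → S i j → S' i j)
    (hP : ∀ i ∈ L, ∀ j ∈ L, i ≠ j → P i j → P' i j)
    (hQ : ∀ i ∈ L, ∀ j ∈ L, i ≠ j → Q i j → Q' i j) {h : SF F} (hh : h ∈ KK F L S P Q) :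
    h ∈ KK F L' S' P' Q' := by
  subst hL
  refine KK_ind (p := fun h => h ∈ KK F L S' P' Q') (Submodule.zero_mem _)
    (fun f g => Submodule.add_mem _) (fun r f => Submodule.smul_mem _ r) ?_ ?_ ?_ hh
  · exact fun i hi j hj hij h w hw => KS hi hj hij (hS i hi j hj hij h) hw
  · exact fun i hi j hj hij h w hw => KP hi hj hij (hP i hi j hj hij h) hw
  · exact fun i hi j hj hij h w hw => KQ hi hj hij (hQ i hi j hj hij h) hw

theorem set1 (hi : i ∈ L) (hj : j ∈ L) : {i} ∪ {j} ∪ (L.erase i).erase j = L := by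
  ext n
  simp only [Finset.mem_union, Finset.mem_singleton, Finset.mem_erase]
  by_cases h1 : n = i
  · subst h1
    simp [hi]
  · by_cases h2 : n = j
    · subst h2
      simp [hj]
    · simp [h1, h2]

theorem pr_mem (hij : i ≠ j) : (mV (xx i) (xx j) : VF F) ∈ E F ({i} ∪ {j}) :=
  E_m (xx_mem i) (xx_mem j) (Finset.disjoint_singleton.2 hij)

theorem S_mem (hi : i ∈ L) (hj : j ∈ L) (hij : i ≠ j) (hw : w ∈ D F ((L.erase i).erase j)) :
    sV (xx i) (xx j) * w ∈ D F L := by
  refine D_cast (D_mul (D_s (xx_mem i) (xx_mem j) (Finset.disjoint_singleton.2 hij)) hw ?_)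
    (set1 hi hj)
  rw [Finset.disjoint_left]
  intro n hn hn2
  simp only [Finset.mem_union, Finset.mem_singleton, Finset.mem_erase] at hn hn2
  tauto

theorem G_mem (hi : i ∈ L) (hj : j ∈ L) (hij : i ≠ j) (hw : w ∈ D F (L.erase i)) :
    sb j (mV (xx i) (xx j)) w ∈ D F L := by
  refine D_cast (sb_mem hw (Finset.mem_erase.2 ⟨hij.symm, hj⟩) (pr_mem hij) ?_) ?_
  · rw [Finset.disjoint_left]
    intro n hn hn2
    simp only [Finset.mem_union, Finset.mem_singleton, Finset.mem_erase] at hn hn2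
    tauto
  · rw [Finset.union_comm]
    exact set1 hi hj

theorem KK_le {h : SF F} (hh : h ∈ KK F L S P Q) : h ∈ D F L := by
  refine KK_ind (p := fun h => h ∈ D F L) (Submodule.zero_mem _)
    (fun f g => Submodule.add_mem _) (fun r f => Submodule.smul_mem _ r) ?_ ?_ ?_ hh
  · exact fun i hi j hj hij _ w hw => S_mem hi hj hij hw
  · exact fun i hi j hj hij _ w hw => G_mem hi hj hij hw
  · exact fun i hi j hj hij _ w hw => Submodule.sub_mem _ hw (rr_mem hw hi hj)

/-- the relations vanish on the assignments which satisfy them -/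
theorem KK_van {h : SF F} (hh : h ∈ KK F L S P Q) (A : CPA F) (x : ℕ → A.E)
    (hS : ∀ i ∈ L, ∀ j ∈ L, i ≠ j → S i j → A.s (x i) (x j) = 0)
    (hP : ∀ i ∈ L, ∀ j ∈ L, i ≠ j → P i j → A.mul (x i) (x j) = 0)
    (hQ : ∀ i ∈ L, ∀ j ∈ L, i ≠ j → Q i j → x i = x j) : h A x = 0 := by
  refine KK_ind (p := fun h => h A x = 0) rfl ?_ ?_ ?_ ?_ ?_ hh
  · intro f g hf hg
    show f A x + g A x = 0
    rw [hf, hg, add_zero]
  · intro r f hf
    show r • f A x = 0
    rw [hf, smul_zero]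
  · intro i hi j hj hij h w _
    show A.s (x i) (x j) * w A x = 0
    rw [hS i hi j hj hij h, zero_mul]
  · intro i hi j hj hij h w hw
    show w A (Function.update x j (A.mul (x i) (x j))) = 0
    rw [hP i hi j hj hij h]
    exact D_zero hw A x (Finset.mem_erase.2 ⟨hij.symm, hj⟩)
  · intro i hi j hj hij h w _
    show w A x - w A (fun n => x (Equiv.swap i j n)) = 0
    have h1 : (fun n => x (Equiv.swap i j n)) = x := by
      funext n
      rcases eq_or_ne n i with rfl | h1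
      · rw [Equiv.swap_apply_left, hQ n hi j hj hij h]
      · rcases eq_or_ne n j with rfl | h2
        · rw [Equiv.swap_apply_right, hQ i hi n hj hij h]
        · rw [Equiv.swap_apply_of_ne_of_ne h1 h2]
    rw [h1, sub_self]

/-- the other orientation of the second kind of the relations -/
theorem flip (hi : i ∈ L) (hj : j ∈ L) (hw : w ∈ D F (L.erase i)) (hij : i ≠ j) :
    ∃ w' ∈ D F (L.erase j), sb j (mV (xx i) (xx j)) w = sb i (mV (xx j) (xx i)) w' := by
  refine ⟨- rr i j w, Submodule.neg_mem _ (rr_erase hw hi hj), ?_⟩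
  funext A x
  have h1 : (- rr i j w) A (Function.update x i (A.mul (x j) (x i))) =
      - w A (fun n => Function.update x i (A.mul (x j) (x i)) (Equiv.swap i j n)) := rfl
  show w A (Function.update x j (A.mul (x i) (x j))) = (- rr i j w) A _
  refine Eq.trans ?_ h1.symm
  have h2 : w A (fun n => Function.update x i (A.mul (x j) (x i)) (Equiv.swap i j n)) =
      w A (Function.update x j (A.mul (x j) (x i))) := by
    refine D_congr hw A ?_
    intro n hn
    rcases eq_or_ne n j with rfl | h3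
    · rw [Equiv.swap_apply_right, Function.update_self, Function.update_self]
    · rw [Equiv.swap_apply_of_ne_of_ne (Finset.ne_of_mem_erase hn) h3, Function.update_of_ne
        (Finset.ne_of_mem_erase hn), Function.update_of_ne h3]
  rw [h2, A.anti (x i) (x j)]
  exact D_neg hw A x (Finset.mem_erase.2 ⟨hij.symm, hj⟩) _

/-- it is enough to have one of the orientations -/
theorem KP' (hi : i ∈ L) (hj : j ∈ L) (hij : i ≠ j) (h : P j i) (hw : w ∈ D F (L.erase i)) :
    sb j (mV (xx i) (xx j)) w ∈ KK F L S P Q := by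
  obtain ⟨w', hw', e⟩ := flip hi hj hw hij
  rw [e]
  exact KP hj hi hij.symm h hw'

theorem KS' (hi : i ∈ L) (hj : j ∈ L) (hij : i ≠ j) (h : S j i)
    (hw : w ∈ D F ((L.erase i).erase j)) : sV (xx i) (xx j) * w ∈ KK F L S P Q := by
  rw [sV_symm]
  rw [Finset.erase_right_comm] at hw
  exact KS hj hi hij.symm h hw

/-- multiplication by a form in two new letters -/
theorem KK_mul {i j : ℕ} (hi : i ∈ L) (hj : j ∈ L) (hij : i ≠ j) {S' P' Q' : ℕ → ℕ → Prop}
    (hS : ∀ p ∈ (L.erase i).erase j, ∀ q ∈ (L.erase i).erase j, p ≠ q → S' p q → S p q)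
    (hP : ∀ p ∈ (L.erase i).erase j, ∀ q ∈ (L.erase i).erase j, p ≠ q → P' p q → P p q)
    (hQ : ∀ p ∈ (L.erase i).erase j, ∀ q ∈ (L.erase i).erase j, p ≠ q → Q' p q →
      ∀ w ∈ D F ((L.erase i).erase j), sV (xx i) (xx j) * (w - rr p q w) ∈ KK F L S P Q)
    {h : SF F} (hh : h ∈ KK F ((L.erase i).erase j) S' P' Q') :
    sV (xx i) (xx j) * h ∈ KK F L S P Q := by
  refine KK_ind (p := fun h => sV (xx i) (xx j) * h ∈ KK F L S P Q) ?_ ?_ ?_ ?_ ?_ hQ hh
  · rw [mul_zero]
    exact Submodule.zero_mem _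
  · intro f g hf hg
    rw [mul_add]
    exact Submodule.add_mem _ hf hg
  · intro r f hf
    rw [mul_smul_comm]
    exact Submodule.smul_mem _ r hf
  · intro p hp q hq hpq h w hw
    rw [mul_left_comm]
    have hp1 := Finset.mem_of_mem_erase (Finset.mem_of_mem_erase hp)
    have hq1 := Finset.mem_of_mem_erase (Finset.mem_of_mem_erase hq)
    have hpj := Finset.ne_of_mem_erase hp
    have hqj := Finset.ne_of_mem_erase hq
    have hpi := Finset.ne_of_mem_erase (Finset.mem_of_mem_erase hp)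
    have hqi := Finset.ne_of_mem_erase (Finset.mem_of_mem_erase hq)
    refine KS hp1 hq1 hpq (hS p hp q hq hpq h) (S_mem (L := (L.erase p).erase q) ?_ ?_ hij ?_)
    · exact Finset.mem_erase.2 ⟨hqi.symm, Finset.mem_erase.2 ⟨hpi.symm, hi⟩⟩
    · exact Finset.mem_erase.2 ⟨hqj.symm, Finset.mem_erase.2 ⟨hpj.symm, hj⟩⟩
    · refine D_cast hw ?_
      ext n
      simp only [Finset.mem_erase]
      tauto
  · intro p hp q hq hpq h w hw
    have hp1 := Finset.mem_of_mem_erase (Finset.mem_of_mem_erase hp)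
    have hq1 := Finset.mem_of_mem_erase (Finset.mem_of_mem_erase hq)
    have hpj := Finset.ne_of_mem_erase hp
    have hqj := Finset.ne_of_mem_erase hq
    have hpi := Finset.ne_of_mem_erase (Finset.mem_of_mem_erase hp)
    have hqi := Finset.ne_of_mem_erase (Finset.mem_of_mem_erase hq)
    have e : sV (xx i) (xx j) * sb q (mV (xx p) (xx q)) w =
        sb q (mV (xx p) (xx q)) (sV (xx i) (xx j) * w) := by
      rw [sb_mul, sb_sV, sbV_xx_ne hqi.symm, sbV_xx_ne hqj.symm]
    rw [e]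
    refine KP hp1 hq1 hpq (hP p hp q hq hpq h) (S_mem (L := L.erase p) ?_ ?_ hij ?_)
    · exact Finset.mem_erase.2 ⟨hpi.symm, hi⟩
    · exact Finset.mem_erase.2 ⟨hpj.symm, hj⟩
    · refine D_cast hw ?_
      ext n
      simp only [Finset.mem_erase]
      tauto

end X

end Pool.Agent.MalP
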