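import Pool.Agent.MalP.X.Dens
import Pool.Agent.MalP.X.Dec

/-! # Theorem X: the families of assignments -/

set_option autoImplicit false

namespace Pool.Agent.MalP

universe u

namespace X

open CPA Finset

variable (F : Type u) [Field F]

/-- families of assignments of the colours in `C7`, with parameters -/
abbrev Pt : Type (u + 1) := ∀ (R : Type u) [CommRing R] [Algebra F R], (ℕ → ℕ → R) → ℕ → (C7R F R).E

variable {F}

/-- natural families of assignments -/
def PtNat (p : Pt F) : Prop :=
  ∀ (R R' : Type u) [CommRing R] [Algebra F R] [CommRing R'] [Algebra F R'] (φ : R →ₐ[F] R')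
    (θ : ℕ → ℕ → R) (c : ℕ), (homR F φ).ψ (p R θ c) = p R' (fun c k => φ (θ c k)) c

/-- the value of a family on the assignments `p` of the colours -/
noncomputable def evp (p : Pt F) (col : ℕ → ℕ) (f : SF F) (R : Type u) [CommRing R] [Algebra F R] (θ : ℕ → ℕ → R) : R :=
  f (C7R F R) (fun i => p R θ (col i))

/-- the vanishing of a family on the assignments `p` of the colours -/
def Van (p : Pt F) (col : ℕ → ℕ) (f : SF F) : Prop :=
  ∀ (R : Type u) [CommRing R] [Algebra F R] (θ : ℕ → ℕ → R), evp p col f R θ = 0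

theorem evp_nat {p : Pt F} (hp : PtNat p) (col : ℕ → ℕ) {L : Finset ℕ} {f : SF F} (hf : f ∈ D F L) :
    Natl (F := F) (fun R _ _ => evp p col f R) := by
  intro R R' _ _ _ _ φ θ
  have h1 := D_nat hf (homR F φ) (fun i => p R θ (col i))
  have h2 : (fun i => (homR F φ).ψ (p R θ (col i))) = fun i => p R' (fun c k => φ (θ c k)) (col i) := by
    funext i
    exact hp R R' φ θ (col i)
  rw [h2] at h1
  refine Eq.trans ?_ h1
  exact (homR_φ F φ _).symm

variable (F)

/-- generic values for the colours in `G`, values in the special null plane for the others -/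
noncomputable def pt0 (G : Finset ℕ) : Pt F := fun R _ _ θ c =>
  if c ∈ G then pnt F R (θ c 0) (θ c 1) (θ c 2) (θ c 3) (θ c 4) (θ c 5) (θ c 6)
  else vec2 F R (θ c 0) (θ c 1)

/-- the value of `X` is in the null cone -/
noncomputable def pt5 (G : Finset ℕ) (X b : ℕ) : Pt F := fun R _ _ θ c =>
  if c = X then nulA F R (θ X 0) (θ X 1) (θ X 2) (θ b 0) (θ b 1) else pt0 F G R θ c

/-- the value of `X` is orthogonal to the plane -/
noncomputable def pt3 (G : Finset ℕ) (X : ℕ) : Pt F := fun R _ _ θ c =>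
  if c = X then perp F R (θ X 0) (θ X 1) (θ X 2) (θ X 3) (θ X 4) else pt0 F G R θ c

/-- the value of `X` is orthogonal to the value of `b` -/
noncomputable def pt2 (G : Finset ℕ) (X b : ℕ) : Pt F := fun R _ _ θ c =>
  if c = X then per2 F R (θ X 0) (θ X 1) (θ X 2) (θ X 3) (θ X 4) (θ X 5) (θ b 0) (θ b 1)
  else pt0 F G R θ c

variable {F}

theorem pt0_nat (G : Finset ℕ) : PtNat (pt0 F G) := by
  intro R R' _ _ _ _ φ θ c
  unfold pt0
  by_cases h : c ∈ G
  · simp only [if_pos h]
    exact homR_ψ F φ _ _ _ _ _ _ _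
  · simp only [if_neg h]
    refine (homR_ψ F φ _ _ _ _ _ _ _).trans ?_
    unfold vec2
    simp only [map_zero]

theorem pt5_nat (G : Finset ℕ) (X b : ℕ) : PtNat (pt5 F G X b) := by
  intro R R' _ _ _ _ φ θ c
  unfold pt5
  by_cases h : c = X
  · simp only [if_pos h]
    refine (homR_ψ F φ _ _ _ _ _ _ _).trans ?_
    unfold nulA
    simp only [map_zero, map_mul, map_neg, map_pow, map_ofNat]
  · simp only [if_neg h]
    exact pt0_nat G R R' φ θ c

theorem pt3_nat (G : Finset ℕ) (X : ℕ) : PtNat (pt3 F G X) := by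
  intro R R' _ _ _ _ φ θ c
  unfold pt3
  by_cases h : c = X
  · simp only [if_pos h]
    refine (homR_ψ F φ _ _ _ _ _ _ _).trans ?_
    unfold perp
    simp only [map_zero]
  · simp only [if_neg h]
    exact pt0_nat G R R' φ θ c

theorem pt2_nat (G : Finset ℕ) (X b : ℕ) : PtNat (pt2 F G X b) := by
  intro R R' _ _ _ _ φ θ c
  unfold pt2
  by_cases h : c = X
  · simp only [if_pos h]
    refine (homR_ψ F φ _ _ _ _ _ _ _).trans ?_
    unfold per2
    simp only [map_mul, map_neg]
  · simp only [if_neg h]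
    exact pt0_nat G R R' φ θ c

/-! ### the relations between the colours -/

/-- both colours are not generic -/
def R0 (G : Finset ℕ) (col : ℕ → ℕ) (i j : ℕ) : Prop := col i ∉ G ∧ col j ∉ G

/-- both colours are special, or one is `X` and the other is in `B` -/
def Rl (G : Finset ℕ) (X : ℕ) (B : Finset ℕ) (col : ℕ → ℕ) (i j : ℕ) : Prop :=
  ((col i ∉ G ∧ col i ≠ X) ∧ (col j ∉ G ∧ col j ≠ X)) ∨ (col i = X ∧ col j ∈ B) ∨
    (col j = X ∧ col i ∈ B)

/-- equal colours -/
def Qc (col : ℕ → ℕ) (i j : ℕ) : Prop := col i = col j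

theorem Rl_symm {G : Finset ℕ} {X : ℕ} {B : Finset ℕ} {col : ℕ → ℕ} {i j : ℕ}
    (h : Rl G X B col i j) : Rl G X B col j i := by
  unfold Rl at *
  tauto

/-- the colours after merging the colours of `B` with `b` -/
def mer (B : Finset ℕ) (b : ℕ) (col : ℕ → ℕ) (i : ℕ) : ℕ := if col i ∈ B then b else col i

/-- the parameters after the evaluation of the colours of `B` at the value of `b` -/
def mth {R : Type u} (B : Finset ℕ) (b : ℕ) (θ : ℕ → ℕ → R) (c : ℕ) : ℕ → R :=
  if c ∈ B then θ b else θ c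

variable (F)

/-- Theorem X with generic colours `G` and special colours -/
def HH (G : Finset ℕ) : Prop := ∀ (L : Finset ℕ) (col : ℕ → ℕ) (f : SF F), f ∈ D F L →
  Van (pt0 F G) col f → f ∈ KK F L (R0 G col) (R0 G col) (Qc col)

end X

end Pool.Agent.MalP
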