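import Pool.Agent.MalP.X.T3

/-! # Theorem X: the last family and the induction -/

set_option autoImplicit false

namespace Pool.Agent.MalP

universe u

namespace X

open CPA Finset

variable {F : Type u} [Field F]

section values

variable {G : Finset ℕ} {X b c : ℕ} {R : Type u} [CommRing R] [Algebra F R] {θ : ℕ → ℕ → R}

theorem pt2_X : pt2 F G X b R θ X =
    per2 F R (θ X 0) (θ X 1) (θ X 2) (θ X 3) (θ X 4) (θ X 5) (θ b 0) (θ b 1) := if_pos rfl

theorem pt2_sp (h : c ∉ G) (h' : c ≠ X) : pt2 F G X b R θ c = vec2 F R (θ c 0) (θ c 1) :=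
  (if_neg h').trans (if_neg h)

theorem pt2_ne (h' : c ≠ X) : pt2 F G X b R θ c = pt0 F G R θ c := if_neg h'

end values

section step

variable {G : Finset ℕ} {X b c : ℕ} {L B : Finset ℕ} {col : ℕ → ℕ} {i0 j0 : ℕ}

theorem mer_mem {i : ℕ} (h : col i ∈ B) : mer B b col i = b := if_pos h

theorem mer_not {i : ℕ} (h : col i ∉ B) : mer B b col i = col i := if_neg h

theorem van2 (hb : b ∉ G) (hbX : b ≠ X) (hB : ∀ c ∈ B, c ∉ G ∧ c ≠ X) {h : SF F}
    (hh : h ∈ KK F L (Rl G X (insert b B) col) (Rl G X ∅ col) (Qc col)) (R : Type u) [CommRing R]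
    [Algebra F R] (θ : ℕ → ℕ → R) : evp (pt2 F G X b) col h R (mth B b θ) = 0 := by
  have hX : ∀ c ∈ insert b B, (C7R F R).s (pt2 F G X b R (mth B b θ) X)
      (pt2 F G X b R (mth B b θ) c) = 0 := by
    intro c hc
    have h1 : mth B b θ c = θ b := by
      rcases Finset.mem_insert.1 hc with rfl | h
      · exact mth_b
      · exact mth_mem h
    have h2 : c ∉ G ∧ c ≠ X := by
      rcases Finset.mem_insert.1 hc with rfl | h
      · exact ⟨hb, hbX⟩
      · exact hB c h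
    rw [pt2_X, pt2_sp h2.1 h2.2, h1, mth_b, s_per2]
    show 2 * (mth B b θ X 5) * (θ b 0 * θ b 1 - θ b 1 * θ b 0) = (0 : R)
    ring
  refine KK_van hh (C7R F R) _ ?_ ?_ ?_
  · rintro i _ j _ _ (⟨h1, h2⟩ | ⟨h1, h2⟩ | ⟨h1, h2⟩)
    · rw [pt2_sp h1.1 h1.2, pt2_sp h2.1 h2.2]
      exact s_vec2 F R _ _ _ _
    · rw [h1]
      exact hX _ h2
    · rw [h1, (C7R F R).symm, hX _ h2]
  · rintro i _ j _ _ (⟨h1, h2⟩ | ⟨_, h2⟩ | ⟨_, h2⟩)
    · rw [pt2_sp h1.1 h1.2, pt2_sp h2.1 h2.2]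
      exact mul_vec2 F R _ _ _ _
    · exact absurd h2 (Finset.notMem_empty _)
    · exact absurd h2 (Finset.notMem_empty _)
  · intro i _ j _ _ h
    have h' : col i = col j := h
    rw [h']

theorem step2 (hb : b ∉ G) (hbX : b ≠ X) (hB : ∀ c ∈ B, c ∉ G ∧ c ≠ X) (hc : (2 : F) ≠ 0)
    (hcG : c ∉ G) (hcX : c ≠ X) (hcb : c ≠ b) (hcB : c ∉ B)
    (hi : col i0 = X) (hj : col j0 = c) {f g : SF F} (hf : Van (pt2 F G X b) col f)
    (hg : g ∈ D F ((L.erase i0).erase j0)) (hfg : f - sV (xx i0) (xx j0) * g ∈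
      KK F L (Rl G X (insert b B) col) (Rl G X ∅ col) (Qc col)) :
    Van (pt2 F G X b) (mer B b col) g := by
  have hXB : X ∉ B := fun h => (hB X h).2 rfl
  have hnat : Natl (F := F) (fun R _ _ θ => 2 * θ X 5 * (θ b 0 * θ c 1 - θ b 1 * θ c 0)) := by
    intro R R' _ _ _ _ φ θ
    simp only [map_mul, map_sub, map_ofNat]
  refine dens hnat (evp_nat (pt2_nat G X b) (mer B b col) hg) ?_ ?_
  · intro R _ _ θ
    have h1 : evp (pt2 F G X b) col (sV (xx i0) (xx j0) * g) R (mth B b θ) = 0 := by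
      have h2 := van2 hb hbX hB hfg R θ
      have h3 : evp (pt2 F G X b) col f R (mth B b θ) -
          evp (pt2 F G X b) col (sV (xx i0) (xx j0) * g) R (mth B b θ) = 0 := h2
      rw [hf R (mth B b θ), zero_sub, neg_eq_zero] at h3
      exact h3
    have h2 : (C7R F R).s (pt2 F G X b R (mth B b θ) (col i0)) (pt2 F G X b R (mth B b θ) (col j0)) *
        g (C7R F R) (fun i => pt2 F G X b R (mth B b θ) (col i)) = 0 := h1
    rw [hi, hj, pt2_X, pt2_sp hcG hcX, s_per2, mth_b, mth_not hXB, mth_not hcB] at h2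
    have h3 : g (C7R F R) (fun i => pt2 F G X b R (mth B b θ) (col i)) =
        g (C7R F R) (fun i => pt2 F G X b R θ (mer B b col i)) := by
      refine D_congr hg _ ?_
      intro i _
      by_cases hiB : col i ∈ B
      · rw [mer_mem hiB, pt2_sp hb hbX, pt2_sp (hB _ hiB).1 (hB _ hiB).2, mth_mem hiB]
      · rw [mer_not hiB]
        by_cases hiX : col i = X
        · rw [hiX, pt2_X, pt2_X, mth_b, mth_not hXB]
        · rw [pt2_ne hiX, pt2_ne hiX]
          unfold pt0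
          rw [mth_not hiB]
    rw [h3] at h2
    exact h2
  · refine ⟨fun c' k => if (c' = X ∧ k = 5) ∨ (c' = b ∧ k = 0) ∨ (c' = c ∧ k = 1) then 1 else 0, ?_⟩
    have e1 : (X = X ∧ (5 : ℕ) = 5) ∨ (X = b ∧ (5 : ℕ) = 0) ∨ (X = c ∧ (5 : ℕ) = 1) := by tauto
    have e2 : (b = X ∧ (0 : ℕ) = 5) ∨ (b = b ∧ (0 : ℕ) = 0) ∨ (b = c ∧ (0 : ℕ) = 1) := by tauto
    have e3 : (c = X ∧ (1 : ℕ) = 5) ∨ (c = b ∧ (1 : ℕ) = 0) ∨ (c = c ∧ (1 : ℕ) = 1) := by tauto
    have e4 : ¬ ((b = X ∧ (1 : ℕ) = 5) ∨ (b = b ∧ (1 : ℕ) = 0) ∨ (b = c ∧ (1 : ℕ) = 1)) := by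
      rintro (h | h | h)
      · exact absurd h.2 (by decide)
      · exact one_ne_zero h.2
      · exact hcb h.1.symm
    show (2 : F) * _ * (_ * _ - _ * _) ≠ 0
    beta_reduce
    rw [if_pos e1, if_pos e2, if_pos e3, if_neg e4, zero_mul, sub_zero, mul_one, mul_one, mul_one]
    exact hc

theorem gam2 (hb : b ∉ G) (hbX : b ≠ X) (hB : ∀ c ∈ B, c ∉ G ∧ c ≠ X) (hc : (2 : F) ≠ 0)
    (hcG : c ∉ G) (hcX : c ≠ X) (hi0 : i0 ∈ L) (hj0 : j0 ∈ L)
    (hi : col i0 = X) (hj : col j0 = c) {g : SF F}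
    (hg : g ∈ KK F ((L.erase i0).erase j0) (Rl G X {b} (mer B b col)) (Rl G X ∅ (mer B b col))
      (Qc (mer B b col))) :
    sV (xx i0) (xx j0) * g ∈ KK F L (Rl G X (insert b B) col) (Rl G X ∅ col) (Qc col) := by
  have hij : i0 ≠ j0 := by
    rintro rfl
    exact hcX (hj.symm.trans hi)
  have c1 : ∀ i, (mer B b col i ∉ G ↔ col i ∉ G) := by
    intro i
    by_cases hiB : col i ∈ B
    · rw [mer_mem hiB]
      exact ⟨fun _ => (hB _ hiB).1, fun _ => hb⟩
    · rw [mer_not hiB]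
  have c2 : ∀ i, (mer B b col i = X ↔ col i = X) := by
    intro i
    by_cases hiB : col i ∈ B
    · rw [mer_mem hiB]
      exact ⟨fun h => absurd h hbX, fun h => absurd h (hB _ hiB).2⟩
    · rw [mer_not hiB]
  have c3 : ∀ i, (mer B b col i = b ↔ col i ∈ insert b B) := by
    intro i
    rw [Finset.mem_insert]
    by_cases hiB : col i ∈ B
    · rw [mer_mem hiB]
      tauto
    · rw [mer_not hiB]
      tauto
  have c4 : ∀ c ∈ insert b B, c ∉ G ∧ c ≠ X := by
    intro c hc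
    rcases Finset.mem_insert.1 hc with rfl | h
    · exact ⟨hb, hbX⟩
    · exact hB c h
  refine KK_mul hi0 hj0 hij ?_ ?_ ?_ hg
  · rintro p _ q _ _ (⟨h1, h2⟩ | ⟨h1, h2⟩ | ⟨h1, h2⟩)
    · rw [c1 p, Ne, c2 p] at h1
      rw [c1 q, Ne, c2 q] at h2
      exact Or.inl ⟨h1, h2⟩
    · rw [c2 p] at h1
      rw [Finset.mem_singleton, c3 q] at h2
      exact Or.inr (Or.inl ⟨h1, h2⟩)
    · rw [c2 q] at h1
      rw [Finset.mem_singleton, c3 p] at h2
      exact Or.inr (Or.inr ⟨h1, h2⟩)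
  · rintro p _ q _ _ (⟨h1, h2⟩ | ⟨_, h2⟩ | ⟨_, h2⟩)
    · rw [c1 p, Ne, c2 p] at h1
      rw [c1 q, Ne, c2 q] at h2
      exact Or.inl ⟨h1, h2⟩
    · exact absurd h2 (Finset.notMem_empty _)
    · exact absurd h2 (Finset.notMem_empty _)
  · intro p hp q hq hpq h w hw
    have hpL := Finset.mem_of_mem_erase (Finset.mem_of_mem_erase hp)
    have hqL := Finset.mem_of_mem_erase (Finset.mem_of_mem_erase hq)
    have hpj := Finset.ne_of_mem_erase hp
    have hqj := Finset.ne_of_mem_erase hq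
    have hpi := Finset.ne_of_mem_erase (Finset.mem_of_mem_erase hp)
    have hqi := Finset.ne_of_mem_erase (Finset.mem_of_mem_erase hq)
    have h : mer B b col p = mer B b col q := h
    have hjc : col j0 ∉ G ∧ col j0 ≠ X := by
      rw [hj]
      exact ⟨hcG, hcX⟩
    by_cases hpqc : col p = col q
    · exact KQ_mul hi0 hj0 hij hp hq hpq hpqc hw
    · have hpB : col p ∈ insert b B := by
        by_cases h1 : col p ∈ B
        · exact Finset.mem_insert_of_mem h1
        · by_cases h2 : col q ∈ B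
          · rw [mer_mem h2] at h
            exact (c3 p).1 h
          · rw [mer_not h1, mer_not h2] at h
            exact absurd h hpqc
      have hqB : col q ∈ insert b B := by
        rw [(c3 p).2 hpB] at h
        exact (c3 q).1 h.symm
      have hp' := c4 _ hpB
      have hq' := c4 _ hqB
      exact L5 hc hi0 hj0 hpL hqL hij hpi.symm hqi.symm hpj.symm hqj.symm hpq hw
        (Or.inr (Or.inl ⟨hi, hpB⟩)) (Or.inr (Or.inl ⟨hi, hqB⟩))
        (Or.inl ⟨hjc, hp'⟩) (Or.inl ⟨hjc, hq'⟩) (Or.inl ⟨hp', hq'⟩)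
        (Or.inl ⟨hjc, hp'⟩) (Or.inl ⟨hjc, hq'⟩) (Or.inl ⟨hp', hq'⟩)

theorem elim2 (hb : b ∉ G) (hbX : b ≠ X) (hc : (2 : F) ≠ 0)
    (IH : ∀ i0 ∈ L, ∀ j0 ∈ L, col i0 = X → col j0 ≠ X → ∀ col' : ℕ → ℕ,
      (∀ i, col' i = X ↔ col i = X) →
      ∀ g ∈ D F ((L.erase i0).erase j0), Van (pt2 F G X b) col' g →
        g ∈ KK F ((L.erase i0).erase j0) (Rl G X {b} col') (Rl G X ∅ col') (Qc col'))
    (B : Finset ℕ) (hB : ∀ c ∈ B, c ∉ G ∧ c ≠ X) : ∀ f : SF F,
      f ∈ KK F L (Rl G X (insert b B) col) (Rl G X ∅ col) (Qc col) → Van (pt2 F G X b) col f →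
      f ∈ KK F L (Rl G X {b} col) (Rl G X ∅ col) (Qc col) := by
  induction B using Finset.induction_on with
  | empty =>
    intro f hf _
    exact hf
  | @insert c B hcB ih =>
    intro f hf hv
    have hB' : ∀ c ∈ B, c ∉ G ∧ c ≠ X := fun c hc => hB c (Finset.mem_insert_of_mem hc)
    obtain ⟨hcG, hcX⟩ := hB c (Finset.mem_insert_self c B)
    refine ih hB' f ?_ hv
    by_cases hcb : c = b
    · subst hcb
      rwa [Finset.insert_idem] at hf
    by_cases hi : ∃ i0 ∈ L, col i0 = X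
    · by_cases hj : ∃ j0 ∈ L, col j0 = c
      · obtain ⟨i0, hi0, hi⟩ := hi
        obtain ⟨j0, hj0, hj⟩ := hj
        have hij : i0 ≠ j0 := by
          rintro rfl
          exact hcX (hj.symm.trans hi)
        obtain ⟨g, hg, hfg⟩ := decS (S' := Rl G X (insert b B) col) hi0 hj0 hij (by
          rintro i _ j _ _ (h | ⟨h1, h2⟩ | ⟨h1, h2⟩)
          · exact Or.inl (Or.inl h)
          · by_cases h3 : col j = c
            · refine Or.inr (Or.inl ⟨Or.inr (h1.trans hi.symm), Or.inr (h3.trans hj.symm), ?_⟩)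
              rintro rfl
              exact hcX (h3.symm.trans hi)
            · refine Or.inl (Or.inr (Or.inl ⟨h1, ?_⟩))
              simp only [Finset.mem_insert] at h2 ⊢
              tauto
          · by_cases h3 : col i = c
            · refine Or.inr (Or.inr ⟨Or.inr (h1.trans hi.symm), Or.inr (h3.trans hj.symm), ?_⟩)
              rintro rfl
              exact hcX (h3.symm.trans hi)
            · refine Or.inl (Or.inr (Or.inr ⟨h1, ?_⟩))
              simp only [Finset.mem_insert] at h2 ⊢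
              tauto) hf
        have hvg := step2 hb hbX hB' hc hcG hcX hcb hcB hi hj hv hg hfg
        have hgK := IH i0 hi0 j0 hj0 hi (by rw [hj]; exact hcX) (mer B b col) (by
          intro i
          by_cases hiB : col i ∈ B
          · rw [mer_mem hiB]
            exact ⟨fun h => absurd h hbX, fun h => absurd h (hB' _ hiB).2⟩
          · rw [mer_not hiB]) g hg hvg
        have hG := gam2 hb hbX hB' hc hcG hcX hi0 hj0 hi hj hgK
        have := Submodule.add_mem _ hfg hG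
        rwa [sub_add_cancel] at this
      · refine KK_mono rfl ?_ (fun _ _ _ _ _ h => h) (fun _ _ _ _ _ h => h) hf
        rintro i hiL j hjL _ (h | ⟨h1, h2⟩ | ⟨h1, h2⟩)
        · exact Or.inl h
        · refine Or.inr (Or.inl ⟨h1, ?_⟩)
          have h3 : col j ≠ c := fun h => hj ⟨j, hjL, h⟩
          simp only [Finset.mem_insert] at h2 ⊢
          tauto
        · refine Or.inr (Or.inr ⟨h1, ?_⟩)
          have h3 : col i ≠ c := fun h => hj ⟨i, hiL, h⟩
          simp only [Finset.mem_insert] at h2 ⊢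
          tauto
    · refine KK_mono rfl ?_ (fun _ _ _ _ _ h => h) (fun _ _ _ _ _ h => h) hf
      rintro i hiL j hjL _ (h | ⟨h1, h2⟩ | ⟨h1, h2⟩)
      · exact Or.inl h
      · exact absurd ⟨i, hiL, h1⟩ hi
      · exact absurd ⟨j, hjL, h1⟩ hi

end step

/-- the vanishing for values of `X` orthogonal to the plane -/
theorem van23 {G : Finset ℕ} {X b : ℕ} (hbX : b ≠ X) {col : ℕ → ℕ} {f : SF F} {L : Finset ℕ}
    (hf : f ∈ D F L) (h : Van (pt2 F G X b) col f) : Van (pt3 F G X) col f := by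
  intro R _ _ θ
  have h1 := h R (fun c k => if c = X ∧ k = 5 then 0 else θ c k)
  refine Eq.trans ?_ h1
  refine D_congr hf (C7R F R) ?_
  intro i _
  by_cases hi : col i = X
  · rw [hi, pt2_X, pt3_X]
    simp only [true_and, hbX, false_and, if_false, if_true]
    unfold per2 perp
    congr 1 <;> simp
  · rw [pt2_ne hi, pt3_ne hi]
    unfold pt0
    simp only [hi, false_and, if_false]

/-- **the third family** -/
theorem sft2 (hc : (2 : F) ≠ 0) {G : Finset ℕ} {X : ℕ} (hXG : X ∉ G) (H : HH F G) (n : ℕ) :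
    ∀ (L : Finset ℕ) (col : ℕ → ℕ) (b : ℕ) (f : SF F), b ∉ G → b ≠ X →
      (L.filter (fun i => col i = X)).card = n → f ∈ D F L → Van (pt2 F G X b) col f →
      f ∈ KK F L (Rl G X {b} col) (Rl G X ∅ col) (Qc col) := by
  induction n with
  | zero =>
    intro L col b f hb hbX hn hf hv
    have h1 := sft3 hc hXG H 0 L col f hn hf (van23 hbX hf hv)
    have h2 : ∀ i ∈ L, col i ≠ X := by
      intro i hi h
      have := Finset.card_eq_zero.1 hn
      exact Finset.notMem_empty i (this ▸ Finset.mem_filter.2 ⟨hi, h⟩)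
    refine KK_mono rfl ?_ (fun _ _ _ _ _ h => h) (fun _ _ _ _ _ h => h) h1
    rintro i hi j hj _ ⟨⟨h3, h4⟩, _⟩
    exact Or.inl ⟨⟨h3, h2 i hi⟩, ⟨h4, h2 j hj⟩⟩
  | succ n ih =>
    intro L col b f hb hbX hn hf hv
    have h1 := sft3 hc hXG H (n + 1) L col f hn hf (van23 hbX hf hv)
    have h2 : f ∈ KK F L (Rl G X (insert b ((L.image col).filter
        (fun c => c ∉ G ∧ c ≠ X))) col) (Rl G X ∅ col) (Qc col) := by
      refine KK_mono rfl ?_ (fun _ _ _ _ _ h => h) (fun _ _ _ _ _ h => h) h1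
      rintro i hi j hj _ ⟨⟨h3, h4⟩, h5⟩
      by_cases h6 : col i = X
      · have h7 : col j ≠ X := fun h => h5 ⟨h6, h⟩
        exact Or.inr (Or.inl ⟨h6, Finset.mem_insert_of_mem (Finset.mem_filter.2
              ⟨Finset.mem_image_of_mem _ hj, h4, h7⟩)⟩)
      · by_cases h7 : col j = X
        · exact Or.inr (Or.inr ⟨h7, Finset.mem_insert_of_mem (Finset.mem_filter.2
              ⟨Finset.mem_image_of_mem _ hi, h3, h6⟩)⟩)
        · exact Or.inl ⟨⟨h3, h6⟩, ⟨h4, h7⟩⟩
    refine elim2 hb hbX hc ?_ _ ?_ f h2 hv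
    · intro i0 hi0 j0 hj0 hi hj col' hcol' g hg hvg
      refine ih _ col' b g hb hbX ?_ hg hvg
      have e1 : ((L.erase i0).erase j0).filter (fun i => col' i = X) =
          (L.filter (fun i => col i = X)).erase i0 := by
        ext i
        simp only [Finset.mem_filter, Finset.mem_erase, hcol']
        constructor
        · rintro ⟨⟨_, h3, h4⟩, h5⟩
          exact ⟨h3, h4, h5⟩
        · rintro ⟨h3, h4, h5⟩
          exact ⟨⟨fun h => hj (h ▸ h5), h3, h4⟩, h5⟩
      rw [e1, Finset.card_erase_of_mem (Finset.mem_filter.2 ⟨hi0, hi⟩), hn]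
      rfl
    · intro c hc
      exact (Finset.mem_filter.1 hc).2

/-- the induction on the number of generic colours -/
theorem HH_insert (hc : (2 : F) ≠ 0) {G : Finset ℕ} {X : ℕ} (hXG : X ∉ G) (H : HH F G) :
    HH F (insert X G) := by
  intro L col f hf hv
  obtain ⟨b, hb⟩ := Infinite.exists_notMem_finset (insert X G ∪ L.image col)
  rw [Finset.mem_union, Finset.mem_insert, not_or, not_or] at hb
  have h1 : Van (pt2 F G X b) col f := by
    intro R _ _ θ
    have h1 := hv R (fun c k => if c = X then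
      (match k with
        | 0 => θ X 0
        | 1 => θ X 1
        | 2 => -θ X 5 * θ b 0
        | 3 => θ X 2
        | 4 => θ X 5 * θ b 1
        | 5 => θ X 3
        | _ => θ X 4) else θ c k)
    refine Eq.trans ?_ h1
    refine D_congr hf (C7R F R) ?_
    intro i _
    by_cases hi : col i = X
    · rw [hi, pt2_X]
      unfold pt0
      rw [if_pos (Finset.mem_insert_self X G)]
      simp only [if_true]
      rfl
    · rw [pt2_ne hi]
      unfold pt0
      simp only [Finset.mem_insert, hi, false_or, if_false]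
  have h2 := sft2 hc hXG H _ L col b f hb.1.2 hb.1.1 rfl hf h1
  refine KK_mono rfl ?_ ?_ (fun _ _ _ _ _ h => h) h2
  · rintro i hi j hj _ (⟨h3, h4⟩ | ⟨_, h3⟩ | ⟨_, h3⟩)
    · unfold R0
      simp only [Finset.mem_insert, not_or]
      exact ⟨⟨h3.2, h3.1⟩, ⟨h4.2, h4.1⟩⟩
    · exact absurd (Finset.mem_singleton.1 h3 ▸ Finset.mem_image_of_mem col hj) hb.2
    · exact absurd (Finset.mem_singleton.1 h3 ▸ Finset.mem_image_of_mem col hi) hb.2
  · rintro i hi j hj _ (⟨h3, h4⟩ | ⟨_, h3⟩ | ⟨_, h3⟩)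
    · unfold R0
      simp only [Finset.mem_insert, not_or]
      exact ⟨⟨h3.2, h3.1⟩, ⟨h4.2, h4.1⟩⟩
    · exact absurd h3 (Finset.notMem_empty _)
    · exact absurd h3 (Finset.notMem_empty _)

end X

end Pool.Agent.MalP
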