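import Pool.Agent.MalP.X.T5

/-! # Theorem X: one colour orthogonal to the plane -/

set_option autoImplicit false

namespace Pool.Agent.MalP

universe u

namespace X

open CPA Finset

variable {F : Type u} [Field F]

theorem KQ_mul {L : Finset ℕ} {S P Q : ℕ → ℕ → Prop} {i j p q : ℕ} (hi : i ∈ L) (hj : j ∈ L)
    (hij : i ≠ j) (hp : p ∈ (L.erase i).erase j) (hq : q ∈ (L.erase i).erase j) (hpq : p ≠ q)
    (h : Q p q) {w : SF F} (hw : w ∈ D F ((L.erase i).erase j)) :
    sV (xx i) (xx j) * (w - rr p q w) ∈ KK F L S P Q := by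
  have hp1 := Finset.mem_of_mem_erase (Finset.mem_of_mem_erase hp)
  have hq1 := Finset.mem_of_mem_erase (Finset.mem_of_mem_erase hq)
  have hpj := Finset.ne_of_mem_erase hp
  have hqj := Finset.ne_of_mem_erase hq
  have hpi := Finset.ne_of_mem_erase (Finset.mem_of_mem_erase hp)
  have hqi := Finset.ne_of_mem_erase (Finset.mem_of_mem_erase hq)
  have e : sV (xx i) (xx j) * (w - rr p q w) = sV (xx i) (xx j) * w - rr p q (sV (xx i) (xx j) * w) := by
    rw [rr_sV_mul, Equiv.swap_apply_of_ne_of_ne hpi.symm hqi.symm,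
      Equiv.swap_apply_of_ne_of_ne hpj.symm hqj.symm, mul_sub]
  rw [e]
  exact KQ hp1 hq1 hpq h (S_mem hi hj hij hw)

/-- the relations for the orthogonal colour -/
def R3 (G : Finset ℕ) (X : ℕ) (col : ℕ → ℕ) (i j : ℕ) : Prop :=
  (col i ∉ G ∧ col j ∉ G) ∧ ¬ (col i = X ∧ col j = X)

section values

variable {G : Finset ℕ} {X b c : ℕ} {R : Type u} [CommRing R] [Algebra F R] {θ : ℕ → ℕ → R}

theorem pt3_X : pt3 F G X R θ X = perp F R (θ X 0) (θ X 1) (θ X 2) (θ X 3) (θ X 4) := if_pos rfl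

theorem pt3_sp (h : c ∉ G) (h' : c ≠ X) : pt3 F G X R θ c = vec2 F R (θ c 0) (θ c 1) :=
  (if_neg h').trans (if_neg h)

theorem pt3_ne (h' : c ≠ X) : pt3 F G X R θ c = pt0 F G R θ c := if_neg h'

end values

theorem van3 {G : Finset ℕ} {X : ℕ} {L : Finset ℕ} {col : ℕ → ℕ} {h : SF F}
    (hh : h ∈ KK F L (R3 G X col) (Rl G X ∅ col) (Qc col)) : Van (pt3 F G X) col h := by
  intro R _ _ θ
  refine KK_van hh (C7R F R) _ ?_ ?_ ?_
  · rintro i _ j _ _ ⟨⟨h1, h2⟩, h3⟩
    by_cases h4 : col i = X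
    · have h5 : col j ≠ X := fun h => h3 ⟨h4, h⟩
      rw [h4, pt3_X, pt3_sp h2 h5]
      exact s_perp F R _ _ _ _ _ _ _
    · by_cases h5 : col j = X
      · rw [h5, pt3_X, pt3_sp h1 h4, (C7R F R).symm]
        exact s_perp F R _ _ _ _ _ _ _
      · rw [pt3_sp h1 h4, pt3_sp h2 h5]
        exact s_vec2 F R _ _ _ _
  · rintro i _ j _ _ (⟨h1, h2⟩ | ⟨_, h2⟩ | ⟨_, h2⟩)
    · rw [pt3_sp h1.1 h1.2, pt3_sp h2.1 h2.2]
      exact mul_vec2 F R _ _ _ _
    · exact absurd h2 (Finset.notMem_empty _)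
    · exact absurd h2 (Finset.notMem_empty _)
  · intro i _ j _ _ h
    have h' : col i = col j := h
    rw [h']

/-- the vanishing for values of `X` in the null cone -/
theorem van35 {G : Finset ℕ} {X b : ℕ} {col : ℕ → ℕ} {f : SF F} {L : Finset ℕ} (hf : f ∈ D F L)
    (h : Van (pt3 F G X) col f) : Van (pt5 F G X b) col f := by
  intro R _ _ θ
  have h1 := h R (fun c k => if c = X then
    (match k with
      | 0 => -2 * θ X 0 * θ b 0 * θ b 1
      | 1 => θ X 1
      | 2 => -θ X 0 * θ b 1 ^ 2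
      | 3 => θ X 2
      | _ => θ X 0 * θ b 0 ^ 2) else θ c k)
  refine Eq.trans ?_ h1
  refine D_congr hf (C7R F R) ?_
  intro i _
  by_cases hi : col i = X
  · rw [hi, pt5_X, pt3_X]
    simp only [if_true]
    rfl
  · rw [pt5_ne hi, pt3_ne hi]
    unfold pt0
    simp only [if_neg hi]

/-- **the second family** -/
theorem sft3 (hc : (2 : F) ≠ 0) {G : Finset ℕ} {X : ℕ} (hXG : X ∉ G) (H : HH F G) (n : ℕ) :
    ∀ (L : Finset ℕ) (col : ℕ → ℕ) (f : SF F),
      (L.filter (fun i => col i = X)).card = n → f ∈ D F L → Van (pt3 F G X) col f →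
      f ∈ KK F L (R3 G X col) (Rl G X ∅ col) (Qc col) := by
  induction n using Nat.strong_induction_on with
  | _ n ih =>
    intro L col f hn hf hv
    obtain ⟨b, hb⟩ := Infinite.exists_notMem_finset (insert X G ∪ L.image col)
    rw [Finset.mem_union, Finset.mem_insert, not_or, not_or] at hb
    have h1 := sft5 hc hXG H n L col b f hb.1.2 hb.1.1 hn hf (van35 hf hv)
    have h2 : f ∈ KK F L (R0 G col) (Rl G X ∅ col) (Qc col) := by
      refine KK_mono rfl (fun _ _ _ _ _ h => h) ?_ (fun _ _ _ _ _ h => h) h1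
      rintro i hi j hj _ (h | ⟨_, h3⟩ | ⟨_, h3⟩)
      · exact Or.inl h
      · exact absurd (Finset.mem_singleton.1 h3 ▸ Finset.mem_image_of_mem col hj) hb.2
      · exact absurd (Finset.mem_singleton.1 h3 ▸ Finset.mem_image_of_mem col hi) hb.2
    by_cases hi : ∃ i0 ∈ L, ∃ i1 ∈ L, i0 ≠ i1 ∧ col i0 = X ∧ col i1 = X
    · obtain ⟨i0, hi0, i1, hi1, hne, e0, e1⟩ := hi
      obtain ⟨w, hw, hfw⟩ := decS (S' := R3 G X col) hi0 hi1 hne (by
        rintro i _ j _ hij ⟨h3, h4⟩
        by_cases h5 : col i = X ∧ col j = X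
        · right
          by_cases h6 : j = i0
          · subst h6
            right
            exact ⟨Or.inl rfl, Or.inr (h5.1.trans e1.symm), hij⟩
          · left
            exact ⟨Or.inr (h5.1.trans e0.symm), Or.inr (h5.2.trans e1.symm), h6⟩
        · exact Or.inl ⟨⟨h3, h4⟩, h5⟩) h2
      have hw2 : Van (pt3 F G X) col w := by
        have hnat : Natl (F := F) (fun R _ _ θ => -(θ X 0) ^ 2 - 4 * (θ X 2) * (θ X 4)) := by
          intro R R' _ _ _ _ φ θ
          simp only [map_mul, map_sub, map_ofNat, map_neg, map_pow]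
        refine dens hnat (evp_nat (pt3_nat G X) col hw) ?_ ?_
        · intro R _ _ θ
          have h3 := van3 hfw R θ
          have h4 : evp (pt3 F G X) col f R θ -
            evp (pt3 F G X) col (sV (xx i0) (xx i1) * w) R θ = 0 := h3
          rw [hv R θ, zero_sub, neg_eq_zero] at h4
          have h5 : (C7R F R).s (pt3 F G X R θ (col i0)) (pt3 F G X R θ (col i1)) *
            w (C7R F R) (fun i => pt3 F G X R θ (col i)) = 0 := h4
          rw [e0, e1, pt3_X, s_perp_self] at h5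
          exact h5
        · refine ⟨fun c k => if c = X ∧ k = 0 then 1 else 0, ?_⟩
          have e1 : (X = X ∧ (0 : ℕ) = 0) := by tauto
          have e2 : ¬ (X = X ∧ (2 : ℕ) = 0) := by
            rintro ⟨_, h⟩
            exact two_ne_zero h
          beta_reduce
          rw [if_pos e1, if_neg e2, mul_zero, zero_mul, sub_zero, one_pow]
          exact neg_ne_zero.2 one_ne_zero
      have hlt : (((L.filter (fun i => col i = X)).erase i0).erase i1).card < n := by
        rw [← hn]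
        refine lt_of_le_of_lt (Finset.card_erase_le) ?_
        exact Finset.card_erase_lt_of_mem (Finset.mem_filter.2 ⟨hi0, e0⟩)
      have hw3 := ih _ hlt ((L.erase i0).erase i1) col w (by
        congr 1
        ext i
        simp only [Finset.mem_filter, Finset.mem_erase]
        tauto) hw hw2
      have hw4 : sV (xx i0) (xx i1) * w ∈ KK F L (R3 G X col) (Rl G X ∅ col) (Qc col) := by
        refine KK_mul hi0 hi1 hne (fun _ _ _ _ _ h => h) (fun _ _ _ _ _ h => h) ?_ hw3
        exact fun p hp q hq hpq h w hw => KQ_mul hi0 hi1 hne hp hq hpq h hw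
      have := Submodule.add_mem _ hfw hw4
      rwa [sub_add_cancel] at this
    · refine KK_mono rfl ?_ (fun _ _ _ _ _ h => h) (fun _ _ _ _ _ h => h) h2
      rintro i hi' j hj' hij ⟨h3, h4⟩
      exact ⟨⟨h3, h4⟩, fun h => hi ⟨i, hi', j, hj', hij, h.1, h.2⟩⟩

end X

end Pool.Agent.MalP
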