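import Pool.Agent.MalP.X.Pts
import Pool.Agent.MalP.X.Ids
import Pool.Agent.MalP.X.Gam

/-! # Theorem X: one colour in the null cone -/

set_option autoImplicit false

namespace Pool.Agent.MalP

universe u

namespace X

open CPA Finset

variable {F : Type u} [Field F]

section values

variable {G : Finset ℕ} {X b c : ℕ} {R : Type u} [CommRing R] [Algebra F R] {θ : ℕ → ℕ → R}

theorem pt0_sp (h : c ∉ G) : pt0 F G R θ c = vec2 F R (θ c 0) (θ c 1) := if_neg h

theorem pt5_X : pt5 F G X b R θ X = nulA F R (θ X 0) (θ X 1) (θ X 2) (θ b 0) (θ b 1) := if_pos rfl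

theorem pt5_sp (h : c ∉ G) (h' : c ≠ X) : pt5 F G X b R θ c = vec2 F R (θ c 0) (θ c 1) :=
  (if_neg h').trans (if_neg h)

theorem pt5_ne (h' : c ≠ X) : pt5 F G X b R θ c = pt0 F G R θ c := if_neg h'

omit [CommRing R] in
theorem mth_mem {B : Finset ℕ} (h : c ∈ B) : mth B b θ c = θ b := if_pos h

omit [CommRing R] in
theorem mth_not {B : Finset ℕ} (h : c ∉ B) : mth B b θ c = θ c := if_neg h

omit [CommRing R] in
theorem mth_b {B : Finset ℕ} : mth B b θ b = θ b := by
  unfold mth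
  split_ifs <;> rfl

end values

/-- the colours in the first reduction -/
def col5 (B : Finset ℕ) (b j0 : ℕ) (col : ℕ → ℕ) (i : ℕ) : ℕ := if i = j0 then b else mer B b col i

section step

variable {G : Finset ℕ} {X b c : ℕ} {L B : Finset ℕ} {col : ℕ → ℕ} {i0 j0 : ℕ}

theorem col5_self : col5 B b j0 col j0 = b := if_pos rfl

theorem col5_mem {i : ℕ} (hi : i ≠ j0) (h : col i ∈ B) : col5 B b j0 col i = b :=
  (if_neg hi).trans (if_pos h)

theorem col5_not {i : ℕ} (hi : i ≠ j0) (h : col i ∉ B) : col5 B b j0 col i = col i :=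
  (if_neg hi).trans (if_neg h)

/-- the relations hold on the assignments -/
theorem van5 (hb : b ∉ G) (hbX : b ≠ X) (hB : ∀ c ∈ B, c ∉ G ∧ c ≠ X) {h : SF F}
    (hh : h ∈ KK F L (R0 G col) (Rl G X (insert b B) col) (Qc col)) (R : Type u) [CommRing R]
    [Algebra F R] (θ : ℕ → ℕ → R) : evp (pt5 F G X b) col h R (mth B b θ) = 0 := by
  have hs : ∀ i j, R0 G col i j → (C7R F R).s (pt5 F G X b R (mth B b θ) (col i))
      (pt5 F G X b R (mth B b θ) (col j)) = 0 := by
    rintro i j ⟨h1, h2⟩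
    by_cases h3 : col i = X
    · rw [h3]
      by_cases h4 : col j = X
      · rw [h4, pt5_X]
        exact s_nulA_self F R _ _ _ _ _
      · rw [pt5_X, pt5_sp h2 h4]
        exact s_nulA F R _ _ _ _ _ _ _
    · by_cases h4 : col j = X
      · rw [h4, pt5_X, pt5_sp h1 h3, (C7R F R).symm]
        exact s_nulA F R _ _ _ _ _ _ _
      · rw [pt5_sp h1 h3, pt5_sp h2 h4]
        exact s_vec2 F R _ _ _ _
  have hX : ∀ c ∈ insert b B, (C7R F R).mul (pt5 F G X b R (mth B b θ) X)
      (pt5 F G X b R (mth B b θ) c) = 0 := by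
    intro c hc
    have h1 : mth B b θ c = θ b := by
      rcases Finset.mem_insert.1 hc with rfl | h
      · exact mth_b
      · exact mth_mem h
    have h2 : c ∉ G ∧ c ≠ X := by
      rcases Finset.mem_insert.1 hc with rfl | h
      · exact ⟨hb, hbX⟩
      · exact hB c h
    rw [pt5_X, pt5_sp h2.1 h2.2, h1, mth_b, mul_nulA]
    have e : sc F (2 * (mth B b θ X 0) * (θ b 0 * θ b 1 - θ b 1 * θ b 0)) = (0 : (C7R F R).S) := by
      show 2 * (mth B b θ X 0) * (θ b 0 * θ b 1 - θ b 1 * θ b 0) = (0 : R)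
      ring
    rw [e, zero_smul]
  refine KK_van hh (C7R F R) _ (fun i _ j _ _ h => hs i j h) ?_ ?_
  · rintro i _ j _ _ (⟨h1, h2⟩ | ⟨h1, h2⟩ | ⟨h1, h2⟩)
    · rw [pt5_sp h1.1 h1.2, pt5_sp h2.1 h2.2]
      exact mul_vec2 F R _ _ _ _
    · rw [h1]
      exact hX _ h2
    · rw [h1, (C7R F R).anti, hX _ h2, neg_zero]
  · intro i _ j _ _ h
    have h' : col i = col j := h
    rw [h']

/-- the first reduction -/
theorem step5 (hb : b ∉ G) (hbX : b ≠ X) (hB : ∀ c ∈ B, c ∉ G ∧ c ≠ X) (hc : (2 : F) ≠ 0)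
    (hcG : c ∉ G) (hcX : c ≠ X) (hcb : c ≠ b) (hcB : c ∉ B) (hj0 : j0 ∈ L)
    (hi : col i0 = X) (hj : col j0 = c) {f g : SF F} (hf : Van (pt5 F G X b) col f)
    (hg : g ∈ D F (L.erase i0)) (hfg : f - sb j0 (mV (xx i0) (xx j0)) g ∈
      KK F L (R0 G col) (Rl G X (insert b B) col) (Qc col)) :
    Van (pt5 F G X b) (col5 B b j0 col) g := by
  have hij : i0 ≠ j0 := by
    rintro rfl
    exact hcX (hj.symm.trans hi)
  have hXB : X ∉ B := fun h => (hB X h).2 rfl
  have hnat : Natl (F := F) (fun R _ _ θ => 2 * θ X 0 * (θ b 0 * θ c 1 - θ b 1 * θ c 0)) := by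
    intro R R' _ _ _ _ φ θ
    simp only [map_mul, map_sub, map_ofNat]
  refine dens hnat (evp_nat (pt5_nat G X b) (col5 B b j0 col) hg) ?_ ?_
  · intro R _ _ θ
    have h1 : evp (pt5 F G X b) col (sb j0 (mV (xx i0) (xx j0)) g) R (mth B b θ) = 0 := by
      have h2 := van5 hb hbX hB hfg R θ
      have h3 : evp (pt5 F G X b) col f R (mth B b θ) -
          evp (pt5 F G X b) col (sb j0 (mV (xx i0) (xx j0)) g) R (mth B b θ) = 0 := h2
      rw [hf R (mth B b θ), zero_sub, neg_eq_zero] at h3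
      exact h3
    have h2 : g (C7R F R) (Function.update (fun i => pt5 F G X b R (mth B b θ) (col i)) j0
        ((C7R F R).mul (pt5 F G X b R (mth B b θ) (col i0)) (pt5 F G X b R (mth B b θ) (col j0)))) =
        0 := h1
    rw [hi, hj, pt5_X, pt5_sp hcG hcX, mul_nulA, mth_b, mth_not hXB, mth_not hcB,
      D_smul hg (C7R F R) _ (Finset.mem_erase.2 ⟨hij.symm, hj0⟩)] at h2
    have h3 : g (C7R F R) (Function.update (fun i => pt5 F G X b R (mth B b θ) (col i)) j0
        (vec2 F R (θ b 0) (θ b 1))) = g (C7R F R) (fun i => pt5 F G X b R θ (col5 B b j0 col i)) := by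
      refine D_congr hg _ ?_
      intro i _
      by_cases hij' : i = j0
      · subst hij'
        rw [Function.update_self, col5_self, pt5_sp hb hbX]
      · rw [Function.update_of_ne hij']
        by_cases hiB : col i ∈ B
        · rw [col5_mem hij' hiB, pt5_sp hb hbX, pt5_sp (hB _ hiB).1 (hB _ hiB).2, mth_mem hiB]
        · rw [col5_not hij' hiB]
          by_cases hiX : col i = X
          · rw [hiX, pt5_X, pt5_X, mth_b, mth_not hXB]
          · rw [pt5_ne hiX, pt5_ne hiX]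
            unfold pt0
            rw [mth_not hiB]
    rw [h3] at h2
    exact h2
  · refine ⟨fun c' k => if (c' = X ∧ k = 0) ∨ (c' = b ∧ k = 0) ∨ (c' = c ∧ k = 1) then 1 else 0, ?_⟩
    have e1 : (X = X ∧ (0 : ℕ) = 0) ∨ (X = b ∧ (0 : ℕ) = 0) ∨ (X = c ∧ (0 : ℕ) = 1) := by tauto
    have e2 : (b = X ∧ (0 : ℕ) = 0) ∨ (b = b ∧ (0 : ℕ) = 0) ∨ (b = c ∧ (0 : ℕ) = 1) := by tauto
    have e3 : (c = X ∧ (1 : ℕ) = 0) ∨ (c = b ∧ (1 : ℕ) = 0) ∨ (c = c ∧ (1 : ℕ) = 1) := by tauto
    have e4 : ¬ ((b = X ∧ (1 : ℕ) = 0) ∨ (b = b ∧ (1 : ℕ) = 0) ∨ (b = c ∧ (1 : ℕ) = 1)) := by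
      rintro (h | h | h)
      · exact one_ne_zero h.2
      · exact one_ne_zero h.2
      · exact hcb h.1.symm
    show (2 : F) * _ * (_ * _ - _ * _) ≠ 0
    beta_reduce
    rw [if_pos e1, if_pos e2, if_pos e3, if_neg e4, zero_mul, sub_zero, mul_one, mul_one, mul_one]
    exact hc

/-- the reduced family is in the span of the relations -/
theorem gam5 (hb : b ∉ G) (hbX : b ≠ X) (hB : ∀ c ∈ B, c ∉ G ∧ c ≠ X) (hc : (2 : F) ≠ 0)
    (hXG : X ∉ G) (hcG : c ∉ G) (hcX : c ≠ X) (hi0 : i0 ∈ L) (hj0 : j0 ∈ L)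
    (hi : col i0 = X) (hj : col j0 = c) {g : SF F}
    (hg : g ∈ KK F (L.erase i0) (R0 G (col5 B b j0 col)) (Rl G X {b} (col5 B b j0 col))
      (Qc (col5 B b j0 col))) :
    sb j0 (mV (xx i0) (xx j0)) g ∈ KK F L (R0 G col) (Rl G X (insert b B) col) (Qc col) := by
  have hij : i0 ≠ j0 := by
    rintro rfl
    exact hcX (hj.symm.trans hi)
  have hXB : X ∉ B := fun h => (hB X h).2 rfl
  have c1 : ∀ i, i ≠ j0 → (col5 B b j0 col i ∉ G ↔ col i ∉ G) := by
    intro i hij'
    by_cases hiB : col i ∈ B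
    · rw [col5_mem hij' hiB]
      exact ⟨fun _ => (hB _ hiB).1, fun _ => hb⟩
    · rw [col5_not hij' hiB]
  have c2 : ∀ i, i ≠ j0 → (col5 B b j0 col i = X ↔ col i = X) := by
    intro i hij'
    by_cases hiB : col i ∈ B
    · rw [col5_mem hij' hiB]
      exact ⟨fun h => absurd h hbX, fun h => absurd h (hB _ hiB).2⟩
    · rw [col5_not hij' hiB]
  have c3 : ∀ i, i ≠ j0 → (col5 B b j0 col i = b ↔ col i ∈ insert b B) := by
    intro i hij'
    rw [Finset.mem_insert]
    by_cases hiB : col i ∈ B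
    · rw [col5_mem hij' hiB]
      tauto
    · rw [col5_not hij' hiB]
      tauto
  have c4 : ∀ c ∈ insert b B, c ∉ G ∧ c ≠ X := by
    intro c hc
    rcases Finset.mem_insert.1 hc with rfl | h
    · exact ⟨hb, hbX⟩
    · exact hB c h
  refine gam hc hi0 hj0 hij ?_ ?_ ?_ ?_ ?_ hg
  · rintro p _ q _ _ _ _ hpj hqj ⟨h1, h2⟩
    exact ⟨(c1 p hpj).1 h1, (c1 q hqj).1 h2⟩
  · rintro p _ q _ _ _ _ hpj hqj (⟨h1, h2⟩ | ⟨h1, h2⟩ | ⟨h1, h2⟩)
    · rw [c1 p hpj, Ne, c2 p hpj] at h1
      rw [c1 q hqj, Ne, c2 q hqj] at h2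
      exact Or.inl ⟨h1, h2⟩
    · rw [c2 p hpj] at h1
      rw [Finset.mem_singleton, c3 q hqj] at h2
      exact Or.inr (Or.inl ⟨h1, h2⟩)
    · rw [c2 q hqj] at h1
      rw [Finset.mem_singleton, c3 p hpj] at h2
      exact Or.inr (Or.inr ⟨h1, h2⟩)
  · intro q _ _ hqj h
    have h1 : col q ∉ G := by
      rcases h with h | h
      · exact (c1 q hqj).1 h.2
      · exact (c1 q hqj).1 h.1
    by_cases hqX : col q = X
    · exact Or.inr (hi.trans hqX.symm)
    · refine Or.inl (Or.inl ⟨?_, ⟨h1, hqX⟩⟩)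
      rw [hj]
      exact ⟨hcG, hcX⟩
  · intro q _ _ hqj h
    have h0 : Rl G X {b} (col5 B b j0 col) j0 q := by
      rcases h with h | h
      · exact h
      · exact Rl_symm h
    have s1 : R0 G col i0 j0 := ⟨by rw [hi]; exact hXG, by rw [hj]; exact hcG⟩
    rcases h0 with ⟨_, h2⟩ | ⟨h1, _⟩ | ⟨h1, _⟩
    · rw [c1 q hqj, Ne, c2 q hqj] at h2
      refine Or.inl ⟨s1, ⟨s1.1, h2.1⟩, ⟨s1.2, h2.1⟩, Or.inl ⟨?_, h2⟩⟩
      rw [hj]
      exact ⟨hcG, hcX⟩
    · rw [col5_self] at h1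
      exact absurd h1 hbX
    · rw [c2 q hqj] at h1
      have hq : col q ∉ G := by
        rw [h1]
        exact hXG
      exact Or.inr ⟨hi.trans h1.symm, s1, ⟨s1.1, hq⟩, ⟨s1.2, hq⟩⟩
  · intro p hp q hq hpq h w hw
    have hpL := Finset.mem_of_mem_erase hp
    have hqL := Finset.mem_of_mem_erase hq
    have hpi := Finset.ne_of_mem_erase hp
    have hqi := Finset.ne_of_mem_erase hq
    have h : col5 B b j0 col p = col5 B b j0 col q := h
    have hjc : col j0 ∉ G ∧ col j0 ≠ X := by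
      rw [hj]
      exact ⟨hcG, hcX⟩
    have hiG : col i0 ∉ G := by
      rw [hi]
      exact hXG
    have key : ∀ q, q ∈ L → q ≠ i0 → q ≠ j0 → col q ∈ insert b B → ∀ w ∈ D F (L.erase i0),
        sb j0 (mV (xx i0) (xx j0)) (w - rr j0 q w) ∈
          KK F L (R0 G col) (Rl G X (insert b B) col) (Qc col) := by
      intro q hqL hqi hqj hqB w hw
      have hq := c4 _ hqB
      exact L2' hc hi0 hj0 hqL hij hqi.symm hqj.symm hw ⟨hiG, hjc.1⟩ ⟨hiG, hq.1⟩ ⟨hjc.1, hq.1⟩
        (Or.inl ⟨hjc, hq⟩) (Or.inr (Or.inl ⟨hi, hqB⟩))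
    rcases eq_or_ne p j0 with rfl | hpj
    · rw [col5_self] at h
      exact key q hqL hqi hpq.symm ((c3 q hpq.symm).1 h.symm) w hw
    · rcases eq_or_ne q j0 with rfl | hqj
      · rw [col5_self] at h
        rw [rr_comm]
        exact key p hpL hpi hpq ((c3 p hpq).1 h) w hw
      · by_cases hpqc : col p = col q
        · rw [sb_sub, gam_rr hpi hqi hpj hqj]
          exact KQ hpL hqL hpq hpqc (G_mem hi0 hj0 hij hw)
        · have hpB : col p ∈ insert b B := by
            by_cases h1 : col p ∈ B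
            · exact Finset.mem_insert_of_mem h1
            · by_cases h2 : col q ∈ B
              · rw [col5_mem hqj h2] at h
                exact (c3 p hpj).1 h
              · rw [col5_not hpj h1, col5_not hqj h2] at h
                exact absurd h hpqc
          have hqB : col q ∈ insert b B := by
            rw [(c3 p hpj).2 hpB] at h
            exact (c3 q hqj).1 h.symm
          have hp' := c4 _ hpB
          have hq' := c4 _ hqB
          exact L3' hc hi0 hj0 hpL hqL hij hpi.symm hqi.symm hpj.symm hqj.symm hpq hw ⟨hiG, hjc.1⟩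
            ⟨hiG, hp'.1⟩ ⟨hiG, hq'.1⟩ ⟨hjc.1, hp'.1⟩ ⟨hjc.1, hq'.1⟩ ⟨hp'.1, hq'.1⟩
            (Or.inl ⟨hjc, hp'⟩) (Or.inl ⟨hjc, hq'⟩) (Or.inl ⟨hp', hq'⟩)
            (Or.inr (Or.inl ⟨hi, hpB⟩)) (Or.inr (Or.inl ⟨hi, hqB⟩))

/-- elimination -/
theorem elim5 (hb : b ∉ G) (hbX : b ≠ X) (hc : (2 : F) ≠ 0) (hXG : X ∉ G)
    (IH : ∀ i0 ∈ L, col i0 = X → ∀ col' : ℕ → ℕ, (∀ i ∈ L.erase i0, col' i = X ↔ col i = X) →
      ∀ g ∈ D F (L.erase i0), Van (pt5 F G X b) col' g →
        g ∈ KK F (L.erase i0) (R0 G col') (Rl G X {b} col') (Qc col'))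
    (B : Finset ℕ) (hB : ∀ c ∈ B, c ∉ G ∧ c ≠ X) : ∀ f : SF F,
      f ∈ KK F L (R0 G col) (Rl G X (insert b B) col) (Qc col) → Van (pt5 F G X b) col f →
      f ∈ KK F L (R0 G col) (Rl G X {b} col) (Qc col) := by
  induction B using Finset.induction_on with
  | empty =>
    intro f hf _
    exact hf
  | @insert c B hcB ih =>
    intro f hf hv
    have hB' : ∀ c ∈ B, c ∉ G ∧ c ≠ X := fun c hc => hB c (Finset.mem_insert_of_mem hc)
    obtain ⟨hcG, hcX⟩ := hB c (Finset.mem_insert_self c B)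
    refine ih hB' f ?_ hv
    by_cases hcb : c = b
    · subst hcb
      rwa [Finset.insert_idem] at hf
    by_cases hi : ∃ i0 ∈ L, col i0 = X
    · by_cases hj : ∃ j0 ∈ L, col j0 = c
      · obtain ⟨i0, hi0, hi⟩ := hi
        obtain ⟨j0, hj0, hj⟩ := hj
        have hij : i0 ≠ j0 := by
          rintro rfl
          exact hcX (hj.symm.trans hi)
        obtain ⟨g, hg, hfg⟩ := decP (P' := Rl G X (insert b B) col) hi0 hj0 hij (by
          rintro i _ j _ _ (h | ⟨h1, h2⟩ | ⟨h1, h2⟩)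
          · exact Or.inl (Or.inl h)
          · by_cases h3 : col j = c
            · refine Or.inr (Or.inl ⟨Or.inr (h1.trans hi.symm), Or.inr (h3.trans hj.symm), ?_⟩)
              rintro rfl
              exact hcX (h3.symm.trans hi)
            · refine Or.inl (Or.inr (Or.inl ⟨h1, ?_⟩))
              simp only [Finset.mem_insert] at h2 ⊢
              tauto
          · by_cases h3 : col i = c
            · refine Or.inr (Or.inr ⟨Or.inr (h1.trans hi.symm), Or.inr (h3.trans hj.symm), ?_⟩)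
              rintro rfl
              exact hcX (h3.symm.trans hi)
            · refine Or.inl (Or.inr (Or.inr ⟨h1, ?_⟩))
              simp only [Finset.mem_insert] at h2 ⊢
              tauto) hf
        have hvg := step5 hb hbX hB' hc hcG hcX hcb hcB hj0 hi hj hv hg hfg
        have hXB : X ∉ B := fun h => (hB' X h).2 rfl
        have hgK := IH i0 hi0 hi (col5 B b j0 col) (by
          intro i _
          by_cases hij' : i = j0
          · subst hij'
            rw [col5_self, hj]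
            exact ⟨fun h => absurd h hbX, fun h => absurd h hcX⟩
          · by_cases hiB : col i ∈ B
            · rw [col5_mem hij' hiB]
              exact ⟨fun h => absurd h hbX, fun h => absurd h (hB' _ hiB).2⟩
            · rw [col5_not hij' hiB]) g hg hvg
        have hG := gam5 hb hbX hB' hc hXG hcG hcX hi0 hj0 hi hj hgK
        have := Submodule.add_mem _ hfg hG
        rwa [sub_add_cancel] at this
      · refine KK_mono rfl (fun _ _ _ _ _ h => h) ?_ (fun _ _ _ _ _ h => h) hf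
        rintro i hiL j hjL _ (h | ⟨h1, h2⟩ | ⟨h1, h2⟩)
        · exact Or.inl h
        · refine Or.inr (Or.inl ⟨h1, ?_⟩)
          have h3 : col j ≠ c := fun h => hj ⟨j, hjL, h⟩
          simp only [Finset.mem_insert] at h2 ⊢
          tauto
        · refine Or.inr (Or.inr ⟨h1, ?_⟩)
          have h3 : col i ≠ c := fun h => hj ⟨i, hiL, h⟩
          simp only [Finset.mem_insert] at h2 ⊢
          tauto
    · refine KK_mono rfl (fun _ _ _ _ _ h => h) ?_ (fun _ _ _ _ _ h => h) hf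
      rintro i hiL j hjL _ (h | ⟨h1, h2⟩ | ⟨h1, h2⟩)
      · exact Or.inl h
      · exact absurd ⟨i, hiL, h1⟩ hi
      · exact absurd ⟨j, hjL, h1⟩ hi

end step

/-- the vanishing for special values of `X` -/
theorem van50 {G : Finset ℕ} {X b : ℕ} (hXG : X ∉ G) (hbX : b ≠ X) {col : ℕ → ℕ} {f : SF F}
    (h : Van (pt5 F G X b) col f) : Van (pt0 F G) col f := by
  intro R _ _ θ
  have h1 := h R (fun c k => if c = X then (if k = 0 then 0 else if k = 1 then θ X 0 else θ X 1) else θ c k)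
  refine Eq.trans ?_ h1
  show f (C7R F R) _ = f (C7R F R) _
  congr 1
  funext i
  by_cases hi : col i = X
  · rw [hi, pt5_X, pt0_sp hXG]
    simp only [if_true, if_neg hbX, one_ne_zero, if_false, OfNat.ofNat_ne_zero, OfNat.ofNat_ne_one]
    unfold nulA vec2
    congr 1 <;> ring
  · rw [pt5_ne hi]
    unfold pt0
    simp only [if_neg hi]

/-- **the first family** -/
theorem sft5 (hc : (2 : F) ≠ 0) {G : Finset ℕ} {X : ℕ} (hXG : X ∉ G) (H : HH F G) (n : ℕ) :
    ∀ (L : Finset ℕ) (col : ℕ → ℕ) (b : ℕ) (f : SF F), b ∉ G → b ≠ X →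
      (L.filter (fun i => col i = X)).card = n → f ∈ D F L → Van (pt5 F G X b) col f →
      f ∈ KK F L (R0 G col) (Rl G X {b} col) (Qc col) := by
  induction n with
  | zero =>
    intro L col b f hb hbX hn hf hv
    have h1 := H L col f hf (van50 hXG hbX hv)
    have h2 : ∀ i ∈ L, col i ≠ X := by
      intro i hi h
      have := Finset.card_eq_zero.1 hn
      exact Finset.notMem_empty i (this ▸ Finset.mem_filter.2 ⟨hi, h⟩)
    refine KK_mono rfl (fun _ _ _ _ _ h => h) ?_ (fun _ _ _ _ _ h => h) h1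
    rintro i hi j hj _ ⟨h3, h4⟩
    exact Or.inl ⟨⟨h3, h2 i hi⟩, ⟨h4, h2 j hj⟩⟩
  | succ n ih =>
    intro L col b f hb hbX hn hf hv
    have h1 := H L col f hf (van50 hXG hbX hv)
    have h2 : f ∈ KK F L (R0 G col) (Rl G X (insert b ((L.image col).filter
        (fun c => c ∉ G ∧ c ≠ X))) col) (Qc col) := by
      refine KK_ind (p := fun f => f ∈ KK F L (R0 G col) (Rl G X (insert b ((L.image col).filter
        (fun c => c ∉ G ∧ c ≠ X))) col) (Qc col)) (Submodule.zero_mem _)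
        (fun f g => Submodule.add_mem _) (fun r f => Submodule.smul_mem _ r) ?_ ?_ ?_ h1
      · exact fun i hi j hj hij h w hw => KS hi hj hij h hw
      · rintro i hi j hj hij ⟨h3, h4⟩ w hw
        by_cases h5 : col i = X
        · by_cases h6 : col j = X
          · exact PQ hc hi hj hij (h5.trans h6.symm) hw
          · refine KP hi hj hij (Or.inr (Or.inl ⟨h5, ?_⟩)) hw
            exact Finset.mem_insert_of_mem (Finset.mem_filter.2
              ⟨Finset.mem_image_of_mem _ hj, h4, h6⟩)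
        · by_cases h6 : col j = X
          · refine KP hi hj hij (Or.inr (Or.inr ⟨h6, ?_⟩)) hw
            exact Finset.mem_insert_of_mem (Finset.mem_filter.2
              ⟨Finset.mem_image_of_mem _ hi, h3, h5⟩)
          · exact KP hi hj hij (Or.inl ⟨⟨h3, h5⟩, ⟨h4, h6⟩⟩) hw
      · exact fun i hi j hj hij h w hw => KQ hi hj hij h hw
    refine elim5 hb hbX hc hXG ?_ _ ?_ f h2 hv
    · intro i0 hi0 hi col' hcol' g hg hvg
      refine ih (L.erase i0) col' b g hb hbX ?_ hg hvg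
      have e1 : (L.erase i0).filter (fun i => col' i = X) =
          (L.filter (fun i => col i = X)).erase i0 := by
        ext i
        simp only [Finset.mem_filter, Finset.mem_erase]
        constructor
        · rintro ⟨⟨h3, h4⟩, h5⟩
          exact ⟨h3, h4, (hcol' i (Finset.mem_erase.2 ⟨h3, h4⟩)).1 h5⟩
        · rintro ⟨h3, h4, h5⟩
          exact ⟨⟨h3, h4⟩, (hcol' i (Finset.mem_erase.2 ⟨h3, h4⟩)).2 h5⟩
      rw [e1, Finset.card_erase_of_mem (Finset.mem_filter.2 ⟨hi0, hi⟩), hn]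
      rfl
    · intro c hc
      exact (Finset.mem_filter.1 hc).2

end X

end Pool.Agent.MalP
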